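import Pool.Agent.VGen.SwapGen
import Pool.Agent.GBB.Defs3

/-!
# The exchange of two factors for systems in general position
-/

set_option autoImplicit false

noncomputable section

namespace Pool.Agent.GBB

open Pool.Agent.ZCyc Pool.Agent.DCI57
open Pool.Agent.VCI (op2 ratEquiv2)
open scoped LinearAlgebra.Projectivization

theorem hasSwap_gen {d N : ℕ} [NeZero d] {n r : ℕ} (hN : N = n + r + 1) {c : Fin r → Fin N → ℂ}
    (hc : ∀ f : Fin r → Fin N, Function.Injective f →
      (Matrix.of fun i s => c i (f s)).det ≠ 0) : HasSwap (d := d) n r c := by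
  intro a t b h p q hp hq
  obtain ⟨-, -, -, ha, B, hB, hs⟩ := h
  exact Pool.Agent.VGen.swap_gen (zeta_prim d) hc (by rw [Fintype.card_fin]; exact hN) ha hB hs
    (zeta_prim d) (chi_apply a) hp hq

end Pool.Agent.GBB
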