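import Pool.Agent.VGen.Defs
import Pool.Agent.VCI.Defs
import Pool.Agent.VCI.FormalB
import Pool.Agent.DCI57.Relation

/-!
# The interface with the operators of VCI
-/

set_option autoImplicit false

noncomputable section

namespace Pool.Agent.VGen

open Pool.Agent.ZCyc Pool.Agent.DCI57 Pool.Agent.VCI Polynomial
open scoped LinearAlgebra.Projectivization

universe u w

/-! ## V3 Interface.lean -/

section Interface

variable {k : Type u} [Field k] {J : Type} [Fintype J] [DecidableEq J] {m : ℕ} [NeZero m]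
  {R : Type w} [Field R] {n r : ℕ}

/-- the class of the part of `(p, q)` for the character `ψ` on both factors, as a function of the
homogeneous coordinates -/
def syJ (e : Ix n r ≃ J) (ζ : kˣ) (ψ : AddChar (J → ZMod m) R) (X : Set (ℙ k (J → k)))
    (p q : Ix n r → k) : (ℙ k (J → k) × ℙ k (J → k) →₀ R) ⧸ ratEquiv2 R X := by
  classical
  exact if h : (fun j => p (e.symm j)) ≠ 0 ∧ (fun j => q (e.symm j)) ≠ 0 then
    (ratEquiv2 R X).mkQ (op2 ζ ψ ψ (Finsupp.single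
      (Projectivization.mk k _ h.1, Projectivization.mk k _ h.2) 1)) else 0

private lemma syJ_pos (e : Ix n r ≃ J) (ζ : kˣ) (ψ : AddChar (J → ZMod m) R)
    (X : Set (ℙ k (J → k))) {p q : Ix n r → k} (hp : (fun j => p (e.symm j)) ≠ 0)
    (hq : (fun j => q (e.symm j)) ≠ 0) : syJ e ζ ψ X p q =
      (ratEquiv2 R X).mkQ (op2 ζ ψ ψ (Finsupp.single
        (Projectivization.mk k _ hp, Projectivization.mk k _ hq) 1)) := by
  unfold syJ
  exact dif_pos ⟨hp, hq⟩

private lemma syJ_neg (e : Ix n r ≃ J) (ζ : kˣ) (ψ : AddChar (J → ZMod m) R)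
    (X : Set (ℙ k (J → k))) {p q : Ix n r → k}
    (h : ¬ ((fun j => p (e.symm j)) ≠ 0 ∧ (fun j => q (e.symm j)) ≠ 0)) :
    syJ e ζ ψ X p q = 0 := by
  unfold syJ
  exact dif_neg h

private lemma mul_ne_zero_iff' {x t : J → k} (ht : ∀ j, t j ≠ 0) :
    (fun j => t j * x j) ≠ 0 ↔ x ≠ 0 := by
  constructor
  · rintro h rfl
    apply h
    funext j
    simp
  · intro h h'
    apply h
    funext j
    have := congrFun h' j
    simp only [Pi.zero_apply] at this
    exact (mul_eq_zero.1 this).resolve_left (ht j)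

theorem syJ_rep (e : Ix n r ≃ J) (ζ : kˣ) (ψ : AddChar (J → ZMod m) R) (X : Set (ℙ k (J → k)))
    (p q : ℙ k (J → k)) : syJ e ζ ψ X (fun i => p.rep (e i)) (fun i => q.rep (e i)) =
      (ratEquiv2 R X).mkQ (op2 ζ ψ ψ (Finsupp.single (p, q) 1)) := by
  have h1 : ∀ p : ℙ k (J → k), (fun j => p.rep (e (e.symm j))) = p.rep := by
    intro p
    funext j
    rw [Equiv.apply_symm_apply]
  have hp : (fun j => p.rep (e (e.symm j))) ≠ 0 := by
    rw [h1]
    exact p.rep_nonzero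
  have hq : (fun j => q.rep (e (e.symm j))) ≠ 0 := by
    rw [h1]
    exact q.rep_nonzero
  rw [syJ_pos e ζ ψ X (p := fun i => p.rep (e i)) (q := fun i => q.rep (e i)) hp hq]
  have h2 : ∀ (p : ℙ k (J → k)) (hp : (fun j => p.rep (e (e.symm j))) ≠ 0),
      Projectivization.mk k _ hp = p := by
    intro p hp
    obtain ⟨a, _, ha⟩ := mk_rep_exists hp
    apply eq_of_rep (a := a)
    intro j
    rw [ha, Equiv.apply_symm_apply]
  rw [h2 p hp, h2 q hq]

private lemma mk_smul_eq {x : J → k} {c : k} (hc : c ≠ 0) (hx : x ≠ 0)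
    (hcx : (fun j => c * x j) ≠ 0) :
    Projectivization.mk k _ hcx = Projectivization.mk k x hx := by
  rw [Projectivization.mk_eq_mk_iff']
  exact ⟨c, rfl⟩

theorem syJ_smul (e : Ix n r ≃ J) (ζ : kˣ) (ψ : AddChar (J → ZMod m) R) (X : Set (ℙ k (J → k)))
    {c d : k} (hc : c ≠ 0) (hd : d ≠ 0) (p q : Ix n r → k) :
    syJ e ζ ψ X (fun j => c * p j) (fun j => d * q j) = syJ e ζ ψ X p q := by
  by_cases h : (fun j => p (e.symm j)) ≠ 0 ∧ (fun j => q (e.symm j)) ≠ 0
  · obtain ⟨hp, hq⟩ := h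
    have hcp : (fun j => c * p (e.symm j)) ≠ 0 :=
      (mul_ne_zero_iff' (x := fun j => p (e.symm j)) (t := fun _ => c) fun _ => hc).2 hp
    have hdq : (fun j => d * q (e.symm j)) ≠ 0 :=
      (mul_ne_zero_iff' (x := fun j => q (e.symm j)) (t := fun _ => d) fun _ => hd).2 hq
    rw [syJ_pos e ζ ψ X hp hq,
      syJ_pos e ζ ψ X (p := fun j => c * p j) (q := fun j => d * q j) hcp hdq,
      mk_smul_eq hc hp hcp, mk_smul_eq hd hq hdq]
  · rw [syJ_neg e ζ ψ X h, syJ_neg]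
    rintro ⟨h1, h2⟩
    exact h ⟨(mul_ne_zero_iff' (x := fun j => p (e.symm j)) (t := fun _ => c) fun _ => hc).1 h1,
      (mul_ne_zero_iff' (x := fun j => q (e.symm j)) (t := fun _ => d) fun _ => hd).1 h2⟩

theorem syJ_zero (e : Ix n r ≃ J) {ζ : kˣ} (hζ : ζ ^ m = 1)
    {ψ : AddChar (J → ZMod m) R} (hψ : ∀ j, ψ (Pi.single j 1) ≠ 1) (X : Set (ℙ k (J → k)))
    {p q : Ix n r → k} {j : Ix n r} (h : p j = 0 ∨ q j = 0) : syJ e ζ ψ X p q = 0 := by
  by_cases h' : (fun j => p (e.symm j)) ≠ 0 ∧ (fun j => q (e.symm j)) ≠ 0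
  · obtain ⟨hp, hq⟩ := h'
    rw [syJ_pos e ζ ψ X hp hq, op2_eq_zero hζ ψ ψ, map_zero]
    rcases h with h | h
    · left
      obtain ⟨a, _, ha⟩ := mk_rep_exists hp
      exact ⟨e j, by rw [ha, Equiv.symm_apply_apply, h, mul_zero], hψ _⟩
    · right
      obtain ⟨a, _, ha⟩ := mk_rep_exists hq
      exact ⟨e j, by rw [ha, Equiv.symm_apply_apply, h, mul_zero], hψ _⟩
  · exact syJ_neg e ζ ψ X h'

private lemma mk_act_eq {ζ : kˣ} {g : J → ZMod m} {x t : J → k}
    (ht : ∀ j, t j = ((ζ ^ (g j).val : kˣ) : k)) (hx : x ≠ 0) (htx : (fun j => t j * x j) ≠ 0) :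
    Projectivization.mk k _ htx = act ζ g (Projectivization.mk k x hx) := by
  obtain ⟨a, ha, h1⟩ := mk_rep_exists htx
  obtain ⟨b, hb, h2⟩ := act_rep ζ g (Projectivization.mk k x hx)
  obtain ⟨c, hc, h3⟩ := mk_rep_exists hx
  apply eq_of_rep (a := a * (b * c)⁻¹)
  intro j
  rw [h1, h2, h3, ht]
  field_simp

theorem syJ_rot (e : Ix n r ≃ J) {ζ : kˣ} (hζ : IsPrimitiveRoot (ζ : k) m) {ω : R}
    (hω : IsPrimitiveRoot ω m) {ψ : AddChar (J → ZMod m) R} {a : Ix n r → ℕ}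
    (hψ : ∀ t, ψ t = ω ^ (∑ j, (a (e.symm j) : ZMod m) * t j).val) (X : Set (ℙ k (J → k)))
    {t t' p q : Ix n r → k} (ht : ∀ j, t j ^ m = 1) (ht' : ∀ j, t' j ^ m = 1)
    (h : ∏ j, (t j * t' j) ^ a j = 1) :
    syJ e ζ ψ X (fun j => t j * p j) (fun j => t' j * q j) = syJ e ζ ψ X p q := by
  have hm : m ≠ 0 := NeZero.ne m
  have hζ1 : ζ ^ m = 1 := by
    apply Units.ext
    rw [Units.val_pow_eq_pow_val, Units.val_one]
    exact hζ.pow_eq_one
  have hne : ∀ {s : Ix n r → k}, (∀ j, s j ^ m = 1) → ∀ j, s j ≠ 0 := by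
    intro s hs j h0
    have := hs j
    rw [h0, zero_pow hm] at this
    exact zero_ne_one this
  have hex : ∀ {s : Ix n r → k}, (∀ j, s j ^ m = 1) → ∃ g : J → ZMod m,
      ∀ j, s (e.symm j) = ((ζ ^ (g j).val : kˣ) : k) := by
    intro s hs
    have h1 : ∀ j, ∃ i : ℕ, i < m ∧ (ζ : k) ^ i = s j := fun j =>
      hζ.eq_pow_of_pow_eq_one (hs j)
    choose i hi hi' using h1
    refine ⟨fun j => (i (e.symm j) : ZMod m), fun j => ?_⟩
    rw [ZMod.val_cast_of_lt (hi _), Units.val_pow_eq_pow_val, hi']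
  obtain ⟨g, hg⟩ := hex ht
  obtain ⟨g', hg'⟩ := hex ht'
  have hψ1 : ψ g * ψ g' = 1 := by
    rw [← AddChar.map_add_eq_mul, hψ]
    have h1 : ∑ j, (a (e.symm j) : ZMod m) * (g + g') j = 0 := by
      have h2 : (ζ : k) ^ (∑ j, a (e.symm j) * ((g j).val + (g' j).val)) = 1 := by
        rw [← h, ← Finset.prod_pow_eq_pow_sum, ← e.symm.prod_comp]
        refine Finset.prod_congr rfl fun j _ => ?_
        rw [hg, hg', mul_comm (a (e.symm j)), pow_mul, pow_add]
        push_cast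
        rfl
      have h3 : m ∣ ∑ j, a (e.symm j) * ((g j).val + (g' j).val) :=
        (hζ.pow_eq_one_iff_dvd _).1 h2
      have h4 : ((∑ j, a (e.symm j) * ((g j).val + (g' j).val) : ℕ) : ZMod m) = 0 :=
        (ZMod.natCast_eq_zero_iff _ _).2 h3
      push_cast at h4
      rw [← h4]
      refine Finset.sum_congr rfl fun j _ => ?_
      rw [ZMod.natCast_zmod_val, ZMod.natCast_zmod_val, Pi.add_apply]
    rw [h1, ZMod.val_zero, pow_zero]
  by_cases h' : (fun j => p (e.symm j)) ≠ 0 ∧ (fun j => q (e.symm j)) ≠ 0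
  · obtain ⟨hp, hq⟩ := h'
    have htp : (fun j => t (e.symm j) * p (e.symm j)) ≠ 0 :=
      (mul_ne_zero_iff' (x := fun j => p (e.symm j)) fun j => hne ht _).2 hp
    have htq : (fun j => t' (e.symm j) * q (e.symm j)) ≠ 0 :=
      (mul_ne_zero_iff' (x := fun j => q (e.symm j)) fun j => hne ht' _).2 hq
    rw [syJ_pos e ζ ψ X hp hq,
      syJ_pos e ζ ψ X (p := fun j => t j * p j) (q := fun j => t' j * q j) htp htq,
      mk_act_eq (t := fun j => t (e.symm j)) hg hp htp,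
      mk_act_eq (t := fun j => t' (e.symm j)) hg' hq htq,
      ← op2_act hζ1 ψ ψ g g' (Projectivization.mk k _ hp) (Projectivization.mk k _ hq),
      hψ1, one_smul]
  · rw [syJ_neg e ζ ψ X h', syJ_neg]
    rintro ⟨h1, h2⟩
    exact h' ⟨(mul_ne_zero_iff' (x := fun j => p (e.symm j)) (t := fun j => t (e.symm j))
      fun j => hne ht _).1 h1, (mul_ne_zero_iff' (x := fun j => q (e.symm j))
      (t := fun j => t' (e.symm j)) fun j => hne ht' _).1 h2⟩

end Interface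

end Pool.Agent.VGen
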