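import Pool.Agent.VGen.Defs
import Pool.Agent.VCI.Defs
import Pool.Agent.VCI.FormalB
import Pool.Agent.DCI57.Relation
import Pool.Agent.ZCyc.Places
import Pool.Agent.VGen.Interface

/-!
# Specialisation of Galois orbits in the self-product of a diagonal complete intersection
-/

set_option autoImplicit false

noncomputable section

namespace Pool.Agent.VGen

open Pool.Agent.ZCyc Pool.Agent.DCI57 Pool.Agent.VCI Polynomial
open scoped LinearAlgebra.Projectivization

universe u w

/-! ## V4 Bridge.lean -/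

section Bridge

variable {k : Type u} [Field k]

private theorem br_transc (k : Type u) [Field k] : Transcendental k (tt k) := by
  unfold tt
  rw [transcendental_algebraMap_iff (algebraMap (RatFunc k) (Om k)).injective]
  exact RatFunc.transcendental_X

private theorem br_sub (c : k) : algebraMap (RatFunc k) (Om k) (RatFunc.X - RatFunc.C c) =
    tt k - algebraMap k (Om k) c := by
  unfold tt
  rw [IsScalarTower.algebraMap_apply k (RatFunc k) (Om k), ← map_sub]
  rfl

private theorem br_ne (c : k) : tt k - algebraMap k (Om k) c ≠ 0 := by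
  intro h
  apply br_transc k
  rw [sub_eq_zero.1 h]
  exact isAlgebraic_algebraMap c

/-- the restriction of a place above a point of the line to an intermediate field -/
private def br_res (L : IntermediateField (RatFunc k) (Om k)) (v : Place k (Om k)) {c : k}
    (h : v.At (tt k) c) : Place k L where
  ring := v.ring.comap (algebraMap L (Om k))
  const_mem := by
    intro a
    rw [ValuationSubring.mem_comap]
    exact v.const_mem a
  ne_top := by
    intro h1
    have h2 : (algebraMap (RatFunc k) L (RatFunc.X - RatFunc.C c))⁻¹ ∈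
        v.ring.comap (algebraMap L (Om k)) := by
      rw [h1]; exact ValuationSubring.mem_top _
    rw [ValuationSubring.mem_comap, map_inv₀] at h2
    have h3 : algebraMap L (Om k) (algebraMap (RatFunc k) L (RatFunc.X - RatFunc.C c)) =
        tt k - algebraMap k (Om k) c := by
      rw [← br_sub]; rfl
    rw [h3] at h2
    rcases (Place.vanishes_iff_or v _).1 h with h4 | h4
    · exact br_ne c h4
    · exact h4 h2

private theorem br_vanishes (L : IntermediateField (RatFunc k) (Om k)) (v : Place k (Om k)) {c : k}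
    (h : v.At (tt k) c) (x : L) : (br_res L v h).Vanishes x ↔ v.Vanishes (x : Om k) := by
  rw [Place.vanishes_iff_or, Place.vanishes_iff_or, ZeroMemClass.coe_eq_zero]
  have : x⁻¹ ∈ (br_res L v h).ring ↔ ((x : Om k))⁻¹ ∈ v.ring := by
    change x⁻¹ ∈ v.ring.comap (algebraMap L (Om k)) ↔ _
    rw [ValuationSubring.mem_comap, map_inv₀]
    rfl
  rw [this]

private theorem br_at (L : IntermediateField (RatFunc k) (Om k)) (v : Place k (Om k)) {c : k}
    (h : v.At (tt k) c) (x : L) (a : k) : (br_res L v h).At x a ↔ v.At (x : Om k) a := by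
  unfold Place.At
  rw [br_vanishes]
  rfl

private theorem br_res_vanish (L : IntermediateField (RatFunc k) (Om k)) (v : Place k (Om k))
    {c : k} (h : v.At (tt k) c) :
    (br_res L v h).Vanishes (algebraMap (RatFunc k) L (RatFunc.X - RatFunc.C c)) := by
  rw [br_vanishes]
  have h3 : ((algebraMap (RatFunc k) L (RatFunc.X - RatFunc.C c) : L) : Om k) =
      tt k - algebraMap k (Om k) c := by
    rw [← br_sub]; rfl
  rw [h3]
  exact h

/-- the place of `Om k` attached to an element of the Galois group -/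
private def br_conj {L : IntermediateField (RatFunc k) (Om k)} [Normal (RatFunc k) L]
    (v : Place k (Om k)) (τ : L ≃ₐ[RatFunc k] L) : Place k (Om k) :=
  v.map ((τ.liftNormal (Om k)).restrictScalars k)

private theorem br_conj_at {L : IntermediateField (RatFunc k) (Om k)} [Normal (RatFunc k) L]
    (v : Place k (Om k)) {c : k} (h : v.At (tt k) c) (τ : L ≃ₐ[RatFunc k] L) :
    (br_conj v τ).At (tt k) c := by
  unfold br_conj
  rw [Place.at_map]
  have : ((τ.liftNormal (Om k)).restrictScalars k).symm (tt k) = tt k := by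
    rw [AlgEquiv.symm_apply_eq]
    exact ((τ.liftNormal (Om k)).commutes RatFunc.X).symm
  rw [this]
  exact h

private theorem br_conj_coe {L : IntermediateField (RatFunc k) (Om k)} [Normal (RatFunc k) L]
    (v : Place k (Om k)) {c : k} (h : v.At (tt k) c) (τ : L ≃ₐ[RatFunc k] L) (x : L) (a : k) :
    ((br_res L v h).map (τ.restrictScalars k)).At x a ↔ (br_conj v τ).At (x : Om k) a := by
  unfold br_conj
  rw [Place.at_map, Place.at_map, br_at]
  have : ((τ.liftNormal (Om k)).restrictScalars k).symm (x : Om k) =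
      (((τ.restrictScalars k).symm x : L) : Om k) := by
    rw [AlgEquiv.symm_apply_eq]
    have h1 := AlgEquiv.liftNormal_commutes τ (Om k) ((τ.restrictScalars k).symm x)
    have h2 : τ ((τ.restrictScalars k).symm x) = x := (τ.restrictScalars k).apply_symm_apply x
    rw [h2] at h1
    exact h1.symm
  rw [this]

variable {J : Type} {n r : ℕ}

private theorem br_red {L : IntermediateField (RatFunc k) (Om k)} [Normal (RatFunc k) L]
    (v : Place k (Om k)) {c : k} (h : v.At (tt k) c) (τ : L ≃ₐ[RatFunc k] L) (e : Ix n r ≃ J)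
    (P : Ix n r → L) {p : ℙ k (J → k)}
    (hp : IsValue ((br_res L v h).map (τ.restrictScalars k)) (fun j => P (e.symm j)) p) :
    Red (br_conj v τ) (fun j => (P j : Om k)) (fun j => p.rep (e j)) := by
  obtain ⟨g, hg⟩ := isValue_iff.1 hp
  refine ⟨?_, (g : Om k), fun j => ?_⟩
  · intro h0
    apply p.rep_nonzero
    funext j
    have := congrFun h0 (e.symm j)
    simpa using this
  · have h1 := hg (e j)
    rw [br_conj_coe, Equiv.symm_apply_apply] at h1
    exact h1

variable [IsAlgClosed k] [CharZero k] [Fintype J]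
  [DecidableEq J] {m : ℕ} [NeZero m] {R : Type w} [Field R] [CharZero R]

theorem syJ_bridge (e : Ix n r ≃ J) {ζ : kˣ} (hζ : ζ ^ m = 1) (ψ : AddChar (J → ZMod m) R)
    {r' : ℕ} {c : Fin r' → J → k} (N : ℕ) (ε : Fin N → ℤ) (P Q : Fin N → Ix n r → Om k)
    (hP : ∀ i, P i ≠ 0) (hQ : ∀ i, Q i ≠ 0)
    (hPX : ∀ i l, ∑ j, algebraMap k (Om k) (c l j) * P i (e.symm j) ^ m = 0)
    (hQX : ∀ i l, ∑ j, algebraMap k (Om k) (c l j) * Q i (e.symm j) ^ m = 0) (c₀ c₁ : k)
    (s₀ : (ℙ k (J → k) × ℙ k (J → k) →₀ R) ⧸ ratEquiv2 R (Diag m c))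
    (h₀ : ∀ v : Place k (Om k), v.At (tt k) c₀ → ∀ p q : Fin N → Ix n r → k,
      (∀ i, Red v (P i) (p i)) → (∀ i, Red v (Q i) (q i)) →
      ∃ M : ℕ, 0 < M ∧ ∑ i, ε i • syJ e ζ ψ (Diag m c) (p i) (q i) = M • s₀)
    (h₁ : ∀ v : Place k (Om k), v.At (tt k) c₁ → ∀ p q : Fin N → Ix n r → k,
      (∀ i, Red v (P i) (p i)) → (∀ i, Red v (Q i) (q i)) →
      ∑ i, ε i • syJ e ζ ψ (Diag m c) (p i) (q i) = 0) : s₀ = 0 := by
  classical
  let S : Set (Om k) := (Set.range fun w : Fin N × Ix n r => P w.1 w.2) ∪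
    Set.range fun w : Fin N × Ix n r => Q w.1 w.2
  let L1 : IntermediateField (RatFunc k) (Om k) := IntermediateField.adjoin (RatFunc k) S
  have hfd : FiniteDimensional (RatFunc k) L1 := by
    have : Finite S := ((Set.finite_range _).union (Set.finite_range _)).to_subtype
    exact IntermediateField.finiteDimensional_adjoin fun z _ =>
      Algebra.IsIntegral.isIntegral z
  let L : IntermediateField (RatFunc k) (Om k) :=
    IntermediateField.normalClosure (RatFunc k) L1 (Om k)
  have hLF : L1 ≤ L := IntermediateField.le_normalClosure L1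
  have hPL : ∀ i j, P i j ∈ L := fun i j =>
    hLF (IntermediateField.subset_adjoin (RatFunc k) S (Or.inl ⟨(i, j), rfl⟩))
  have hQL : ∀ i j, Q i j ∈ L := fun i j =>
    hLF (IntermediateField.subset_adjoin (RatFunc k) S (Or.inr ⟨(i, j), rfl⟩))
  have : Normal (RatFunc k) L := normalClosure.normal (RatFunc k) L1 (Om k)
  have : FiniteDimensional (RatFunc k) L :=
    normalClosure.is_finiteDimensional (RatFunc k) L1 (Om k)
  have : IsGalois (RatFunc k) L := {}
  obtain ⟨v₀, hv₀⟩ := exists_place (br_transc k) c₀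
  obtain ⟨v₁, hv₁⟩ := exists_place (br_transc k) c₁
  let P' : Fin N → Ix n r → L := fun i j => ⟨P i j, hPL i j⟩
  let Q' : Fin N → Ix n r → L := fun i j => ⟨Q i j, hQL i j⟩
  have hval : ∀ (U : Fin N → Ix n r → L), (∀ i, (fun j => (U i j : Om k)) ≠ 0) →
      ∀ (i : Fin N) (v : Place k L), ∃ p, IsValue v (fun j => U i (e.symm j)) p := by
    intro U hU i v
    apply exists_value
    obtain ⟨j, hj⟩ := Function.ne_iff.1 (hU i)
    refine ⟨e j, ?_⟩
    rw [Equiv.symm_apply_apply]
    intro h0
    apply hj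
    simp [h0]
  choose φ hφ using hval P' hP
  choose χ hχ using hval Q' hQ
  have hdiag : ∀ (U : Fin N → Ix n r → L), (∀ i l, ∑ j, algebraMap k (Om k) (c l j) *
      (U i (e.symm j) : Om k) ^ m = 0) → ∀ (i : Fin N) (v : Place k L) (p : ℙ k (J → k)),
      IsValue v (fun j => U i (e.symm j)) p → p ∈ Diag m c := by
    intro U hU i v p hp
    apply hp.mem_Diag
    intro l
    apply Subtype.ext
    have := hU i l
    push_cast
    exact this
  have hmem : ∀ i, ∑ τ : L ≃ₐ[RatFunc k] L, (Finsupp.single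
        (φ i ((br_res L v₀ hv₀).map (τ.restrictScalars k)),
          χ i ((br_res L v₀ hv₀).map (τ.restrictScalars k))) (1 : R) -
      Finsupp.single (φ i ((br_res L v₁ hv₁).map (τ.restrictScalars k)),
          χ i ((br_res L v₁ hv₁).map (τ.restrictScalars k))) 1) ∈ ratEquiv2 R (Diag m c) :=
    fun i => gen2_mem (hφ i) (hχ i) (fun v => hdiag P' hPX i v _ (hφ i v))
      (fun v => hdiag Q' hQX i v _ (hχ i v)) (br_res_vanish L v₀ hv₀) (br_res_vanish L v₁ hv₁)
  set A : Fin N → (L ≃ₐ[RatFunc k] L) → (ℙ k (J → k) × ℙ k (J → k) →₀ R) ⧸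
      ratEquiv2 R (Diag m c) := fun i τ => syJ e ζ ψ (Diag m c)
    (fun j => (φ i ((br_res L v₀ hv₀).map (τ.restrictScalars k))).rep (e j))
    (fun j => (χ i ((br_res L v₀ hv₀).map (τ.restrictScalars k))).rep (e j)) with hA
  set B : Fin N → (L ≃ₐ[RatFunc k] L) → (ℙ k (J → k) × ℙ k (J → k) →₀ R) ⧸
      ratEquiv2 R (Diag m c) := fun i τ => syJ e ζ ψ (Diag m c)
    (fun j => (φ i ((br_res L v₁ hv₁).map (τ.restrictScalars k))).rep (e j))
    (fun j => (χ i ((br_res L v₁ hv₁).map (τ.restrictScalars k))).rep (e j)) with hB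
  have hAB : ∀ i, ∑ τ, (A i τ - B i τ) = 0 := by
    intro i
    have h1 := op2_mem (R := R) ψ ψ (fun g p hp => act_mem hζ hp g) (hmem i)
    have h2 := (Submodule.Quotient.mk_eq_zero _).2 h1
    have h3 : (ratEquiv2 R (Diag m c)).mkQ (op2 ζ ψ ψ (∑ τ : L ≃ₐ[RatFunc k] L,
        (Finsupp.single (φ i ((br_res L v₀ hv₀).map (τ.restrictScalars k)),
          χ i ((br_res L v₀ hv₀).map (τ.restrictScalars k))) (1 : R) -
        Finsupp.single (φ i ((br_res L v₁ hv₁).map (τ.restrictScalars k)),
          χ i ((br_res L v₁ hv₁).map (τ.restrictScalars k))) 1))) = 0 := h2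
    rw [map_sum, map_sum] at h3
    rw [← h3]
    refine Finset.sum_congr rfl fun τ _ => ?_
    rw [map_sub, map_sub, ← syJ_rep e, ← syJ_rep e]
  have hA' : ∀ τ, ∃ M : ℕ, 0 < M ∧ ∑ i, ε i • A i τ = M • s₀ := fun τ =>
    h₀ (br_conj v₀ τ) (br_conj_at v₀ hv₀ τ) _ _
      (fun i => br_red v₀ hv₀ τ e (P' i) (hφ i _)) (fun i => br_red v₀ hv₀ τ e (Q' i) (hχ i _))
  have hB' : ∀ τ, ∑ i, ε i • B i τ = 0 := fun τ =>
    h₁ (br_conj v₁ τ) (br_conj_at v₁ hv₁ τ) _ _
      (fun i => br_red v₁ hv₁ τ e (P' i) (hφ i _)) (fun i => br_red v₁ hv₁ τ e (Q' i) (hχ i _))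
  choose M hM0 hM using hA'
  have hsum : (∑ τ, M τ) • s₀ = 0 := by
    rw [Finset.sum_smul]
    calc ∑ τ, M τ • s₀ = ∑ τ, (∑ i, ε i • A i τ - ∑ i, ε i • B i τ) := by
          refine Finset.sum_congr rfl fun τ _ => ?_
          rw [hM τ, hB' τ, sub_zero]
      _ = ∑ i, ε i • ∑ τ, (A i τ - B i τ) := by
          simp only [Finset.smul_sum, smul_sub]
          rw [← Finset.sum_comm]
          exact Finset.sum_congr rfl fun i _ => by rw [Finset.sum_sub_distrib]
      _ = 0 := by
          simp only [hAB, smul_zero, Finset.sum_const_zero]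
  have hpos : (∑ τ, M τ) ≠ 0 := by
    have h1 : 0 < ∑ τ, M τ := Finset.sum_pos (fun τ _ => hM0 τ) Finset.univ_nonempty
    exact h1.ne'
  have h3 : (((∑ τ, M τ : ℕ) : R)) • s₀ = 0 := by
    rw [Nat.cast_smul_eq_nsmul]; exact hsum
  rcases smul_eq_zero.1 h3 with h4 | h4
  · exact absurd (Nat.cast_eq_zero.1 h4) hpos
  · exact h4

end Bridge

end Pool.Agent.VGen
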