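import Pool.Agent.VGen.Defs

/-!
# Classes of pairs of points with given powers of the coordinates
-/

set_option autoImplicit false

noncomputable section

namespace Pool.Agent.VGen

open Pool.Agent.ZCyc Polynomial

universe u w

section SyLemmas

variable {k : Type u} [Field k] [IsAlgClosed k] {m n r : ℕ} {a : Ix n r → ℕ}
  {V : Fin r → Fin (n + 1) → k} {W : Type*} [AddCommGroup W]
  {sy : (Ix n r → k) → (Ix n r → k) → W} {b : Fin (n + 1) → Fin r}

omit [IsAlgClosed k] in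
private lemma prod_eq_one {u : Ix n r → k} (hu : ∀ j, u j ^ m = 1)
    (ha : ∀ s, m ∣ a (Sum.inr s) + ∑ i with b i = s, a (Sum.inl i))
    (hb : ∀ i, u (Sum.inl i) = u (Sum.inr (b i))) : ∏ j, u j ^ a j = 1 := by
  rw [Fintype.prod_sum_type]
  have h1 : ∏ i, u (Sum.inl i) ^ a (Sum.inl i) =
      ∏ s, u (Sum.inr s) ^ ∑ i with b i = s, a (Sum.inl i) := by
    rw [← Finset.prod_fiberwise Finset.univ b]
    refine Finset.prod_congr rfl fun s _ => ?_
    rw [← Finset.prod_pow_eq_pow_sum]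
    refine Finset.prod_congr rfl fun i hi => ?_
    rw [hb i, (Finset.mem_filter.1 hi).2]
  rw [h1, ← Finset.prod_mul_distrib]
  refine Finset.prod_eq_one fun s _ => ?_
  rw [mul_comm (u _ ^ _), ← pow_add]
  obtain ⟨c, hc⟩ := ha s
  rw [hc, pow_mul, hu, one_pow]

theorem IsSy.congr (hsy : IsSy m a V sy) (hm : 0 < m)
    (ha : ∀ s, m ∣ a (Sum.inr s) + ∑ i with b i = s, a (Sum.inl i))
    {p q p' q' : Ix n r → k} (hp : ∀ j, p j ≠ 0) (hq : ∀ j, q j ≠ 0) {α β : k} (hα : α ≠ 0)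
    (hβ : β ≠ 0) (h1 : ∀ j, p' j ^ m = α * p j ^ m) (h2 : ∀ j, q' j ^ m = β * q j ^ m)
    {γ : Fin (n + 1) → k} (h3 : ∀ i, p (Sum.inl i) * q (Sum.inl i) =
      γ i * (p (Sum.inr (b i)) * q (Sum.inr (b i))))
    (h4 : ∀ i, p' (Sum.inl i) * q' (Sum.inl i) =
      γ i * (p' (Sum.inr (b i)) * q' (Sum.inr (b i)))) : sy p' q' = sy p q := by
  obtain ⟨α₁, hα₁⟩ := IsAlgClosed.exists_pow_nat_eq α hm
  obtain ⟨β₁, hβ₁⟩ := IsAlgClosed.exists_pow_nat_eq β hm
  have hα₀ : α₁ ≠ 0 := by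
    rintro rfl
    rw [zero_pow hm.ne'] at hα₁
    exact hα hα₁.symm
  have hβ₀ : β₁ ≠ 0 := by
    rintro rfl
    rw [zero_pow hm.ne'] at hβ₁
    exact hβ hβ₁.symm
  have e1 : p' = fun j => p' j / (α₁ * p j) * (α₁ * p j) := by
    funext j
    rw [div_mul_cancel₀ _ (mul_ne_zero hα₀ (hp j))]
  have e2 : q' = fun j => q' j / (β₁ * q j) * (β₁ * q j) := by
    funext j
    rw [div_mul_cancel₀ _ (mul_ne_zero hβ₀ (hq j))]
  have t1 : ∀ j, (p' j / (α₁ * p j)) ^ m = 1 := by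
    intro j
    rw [div_pow, mul_pow, hα₁, h1, div_self (mul_ne_zero hα (pow_ne_zero m (hp j)))]
  have t2 : ∀ j, (q' j / (β₁ * q j)) ^ m = 1 := by
    intro j
    rw [div_pow, mul_pow, hβ₁, h2, div_self (mul_ne_zero hβ (pow_ne_zero m (hq j)))]
  have hprod : ∏ j, (p' j / (α₁ * p j) * (q' j / (β₁ * q j))) ^ a j = 1 := by
    refine prod_eq_one (u := fun j => p' j / (α₁ * p j) * (q' j / (β₁ * q j))) (m := m) (b := b)
      (fun j => ?_) ha fun i => ?_
    · rw [mul_pow, t1, t2, one_mul]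
    · have hγ : γ i ≠ 0 := by
        intro h
        have h5 := h3 i
        rw [h, zero_mul] at h5
        exact mul_ne_zero (hp _) (hq _) h5
      have e3 : ∀ j, p' j / (α₁ * p j) * (q' j / (β₁ * q j)) =
          (p' j * q' j) / ((α₁ * β₁) * (p j * q j)) := by
        intro j
        rw [div_mul_div_comm]
        congr 1
        ring
      simp only [e3]
      rw [h3, h4, div_eq_div_iff]
      · ring
      · exact mul_ne_zero (mul_ne_zero hα₀ hβ₀) (mul_ne_zero hγ (mul_ne_zero (hp _) (hq _)))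
      · exact mul_ne_zero (mul_ne_zero hα₀ hβ₀) (mul_ne_zero (hp _) (hq _))
  have h5 := hsy.rot (fun j => p' j / (α₁ * p j)) (fun j => q' j / (β₁ * q j))
    (fun j => α₁ * p j) (fun j => β₁ * q j) t1 t2 hprod
  have h6 := hsy.smul α₁ β₁ p q hα₀ hβ₀
  rw [← h6, ← h5, ← e1, ← e2]

theorem IsSy.congr_prod (hsy : IsSy m a V sy) (hm : 0 < m) {p q p' q' : Ix n r → k}
    (hp : ∀ j, p j ≠ 0) (hq : ∀ j, q j ≠ 0) (h1 : ∀ j, p' j ^ m = p j ^ m)
    (h2 : ∀ j, q' j ^ m = q j ^ m)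
    (h3 : ∏ j, (p' j * q' j) ^ a j = ∏ j, (p j * q j) ^ a j) : sy p' q' = sy p q := by
  have e1 : p' = fun j => p' j / p j * p j := by
    funext j
    rw [div_mul_cancel₀ _ (hp j)]
  have e2 : q' = fun j => q' j / q j * q j := by
    funext j
    rw [div_mul_cancel₀ _ (hq j)]
  have t1 : ∀ j, (p' j / p j) ^ m = 1 := by
    intro j
    rw [div_pow, h1, div_self (pow_ne_zero m (hp j))]
  have t2 : ∀ j, (q' j / q j) ^ m = 1 := by
    intro j
    rw [div_pow, h2, div_self (pow_ne_zero m (hq j))]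
  have hprod : ∏ j, (p' j / p j * (q' j / q j)) ^ a j = 1 := by
    have e3 : ∀ j, (p' j / p j * (q' j / q j)) ^ a j =
        (p' j * q' j) ^ a j / (p j * q j) ^ a j := by
      intro j
      rw [div_mul_div_comm, div_pow]
    rw [Finset.prod_congr rfl fun j _ => e3 j, Finset.prod_div_distrib, h3, div_self]
    exact Finset.prod_ne_zero_iff.2 fun j _ => pow_ne_zero _ (mul_ne_zero (hp j) (hq j))
  have h5 := hsy.rot (fun j => p' j / p j) (fun j => q' j / q j) p q t1 t2 hprod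
  rw [← h5, ← e1, ← e2]

theorem exists_lift (hm : 0 < m) {y y' : Ix n r → k} (hy : ∀ j, y j ≠ 0)
    {γ : Fin (n + 1) → k} (h : ∀ i, y (Sum.inl i) * y' (Sum.inl i) =
      γ i ^ m * (y (Sum.inr (b i)) * y' (Sum.inr (b i)))) :
    ∃ p q : Ix n r → k, (∀ j, p j ^ m = y j) ∧ (∀ j, q j ^ m = y' j) ∧
      ∀ i, p (Sum.inl i) * q (Sum.inl i) = γ i * (p (Sum.inr (b i)) * q (Sum.inr (b i))) := by
  choose p hp using fun j => IsAlgClosed.exists_pow_nat_eq (y j) hm
  choose q hq using fun s => IsAlgClosed.exists_pow_nat_eq (y' (Sum.inr s)) hm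
  have hp0 : ∀ j, p j ≠ 0 := by
    intro j h0
    have h1 := hp j
    rw [h0, zero_pow hm.ne'] at h1
    exact hy j h1.symm
  refine ⟨p, Sum.elim (fun i => γ i * (p (Sum.inr (b i)) * q (b i)) / p (Sum.inl i)) q, hp, ?_,
    fun i => ?_⟩
  · rintro (i | s)
    · rw [Sum.elim_inl, div_pow, mul_pow, mul_pow, hp, hp, hq, div_eq_iff (hy _), ← h i, mul_comm]
    · rw [Sum.elim_inr, hq]
  · rw [Sum.elim_inl, Sum.elim_inr, mul_div_cancel₀ _ (hp0 _)]

end SyLemmas

end Pool.Agent.VGen
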