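import Pool.Agent.VGen.StepB
import Pool.Agent.VGen.SyLemmas

/-!
# The chain of steps
-/

set_option autoImplicit false

noncomputable section

namespace Pool.Agent.VGen

open Pool.Agent.ZCyc Polynomial

universe u

/-- the free coordinates with numbers `1, …, s` -/
def St (n s : ℕ) : Finset (Fin (n + 1)) := Finset.univ.filter fun i => i ≠ 0 ∧ i.val ≤ s

theorem mem_St {n s : ℕ} {i : Fin (n + 1)} : i ∈ St n s ↔ i ≠ 0 ∧ i.val ≤ s := by
  simp [St]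

theorem zero_notMem_St (n s : ℕ) : (0 : Fin (n + 1)) ∉ St n s := by
  simp [St]

theorem St_zero (n : ℕ) : St n 0 = ∅ := by
  ext i
  rw [mem_St]
  simp only [nonpos_iff_eq_zero, Finset.notMem_empty, iff_false, not_and]
  intro h h'
  exact h (Fin.ext h')

theorem St_last {n : ℕ} {i : Fin (n + 1)} : i ∈ St n n ↔ i ≠ 0 := by
  rw [mem_St]
  constructor
  · exact fun h => h.1
  · exact fun h => ⟨h, Nat.lt_succ_iff.1 i.2⟩

theorem St_succ {n : ℕ} (j : Fin n) : St n (j + 1) = insert j.succ (St n j) := by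
  ext i
  rw [Finset.mem_insert, mem_St, mem_St, Fin.ext_iff, Fin.val_succ]
  constructor
  · rintro ⟨h1, h2⟩
    rcases Nat.lt_or_ge i.val (j.val + 1) with h | h
    · exact Or.inr ⟨h1, by omega⟩
    · exact Or.inl (by omega)
  · rintro (h | ⟨h1, h2⟩)
    · refine ⟨fun h0 => ?_, by omega⟩
      rw [h0] at h
      simp at h
    · exact ⟨h1, by omega⟩

theorem succ_notMem_St {n : ℕ} (j : Fin n) : j.succ ∉ St n j := by
  rw [mem_St, Fin.val_succ]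
  omega

section

variable {k : Type u} [Field k] {m n r : ℕ} {b : Fin (n + 1) → Fin r}

/-- the products of the coordinates -/
private theorem rel_of {x x' y y' : Ix n r → k} (hx0 : ∀ i, x i ≠ 0) (hx0' : ∀ i, x' i ≠ 0)
    {γ : Fin (n + 1) → k} (hγ : ∀ i, x (Sum.inl i) * x' (Sum.inl i) =
      γ i ^ m * (x (Sum.inr (b i)) * x' (Sum.inr (b i)))) {i : Fin (n + 1)}
    (h : (Th b x i y = 0 ∧ Th b x' i y' = 0) ∨ BB b x x' i y y' = 0) :
    y (Sum.inl i) * y' (Sum.inl i) =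
      γ i ^ m * (y (Sum.inr (b i)) * y' (Sum.inr (b i))) := by
  have h1 := hx0 (Sum.inr (b i))
  have h2 := hx0' (Sum.inr (b i))
  have h3 : x (Sum.inr (b i)) * x' (Sum.inr (b i)) ≠ 0 := mul_ne_zero h1 h2
  apply mul_left_cancel₀ h3
  have h4 := hγ i
  rcases h with ⟨h5, h6⟩ | h5
  · unfold Th at h5 h6
    linear_combination (y' (Sum.inl i) * x' (Sum.inr (b i))) * h5 +
      (x (Sum.inl i) * y (Sum.inr (b i))) * h6 + y (Sum.inr (b i)) * y' (Sum.inr (b i)) * h4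
  · unfold BB at h5
    linear_combination h5 + y (Sum.inr (b i)) * y' (Sum.inr (b i)) * h4

end

section Chain

variable {k : Type u} [Field k] [IsAlgClosed k] [CharZero k] {m n r : ℕ} {a : Ix n r → ℕ}
  {V : Fin r → Fin (n + 1) → k} {W : Type*} [AddCommGroup W]
  {sy : (Ix n r → k) → (Ix n r → k) → W} {b : Fin (n + 1) → Fin r}

private theorem chain_aux (hsy : IsSy m a V sy) (hm : 0 < m)
    (ha : ∀ s, m ∣ a (Sum.inr s) + ∑ i with b i = s, a (Sum.inl i)) {x x' : Ix n r → k}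
    (hx0 : ∀ i, x i ≠ 0) (hx0' : ∀ i, x' i ≠ 0) {y y' : ℕ → Ix n r → k}
    (hy : ∀ s ≤ n, InL V (y s)) (hy' : ∀ s ≤ n, InL V (y' s)) (hy0 : ∀ s ≤ n, ∀ i, y s i ≠ 0)
    (hy0' : ∀ s ≤ n, ∀ i, y' s i ≠ 0) (hT : ∀ s ≤ n, ∀ i ∈ St n s, Th b x i (y s) = 0)
    (hT' : ∀ s ≤ n, ∀ i ∈ St n s, Th b x' i (y' s) = 0)
    (hB : ∀ s ≤ n, ∀ i ∉ St n s, BB b x x' i (y s) (y' s) = 0) {lam : Fin (n + 1) → k}
    {σ : ℕ → Fin (n + 1) → k}
    (h5 : ∀ s ≤ n, ∀ w, InL V w → ∑ i with i ∉ St n s, lam i * BB b x x' i (y s) w =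
      ∑ i ∈ St n s, σ s i * Th b x' i w)
    (h3 : ∀ j : Fin n, Th b x j.succ (y j) ≠ 0) (hlam : ∀ j : Fin n, lam j.succ ≠ 0)
    (hσ : ∀ j : Fin n, σ (j + 1) j.succ ≠ 0)
    (hne : ∀ j : Fin n, σ (j + 1) j.succ +
      lam j.succ * x (Sum.inl j.succ) * y (j + 1) (Sum.inr (b j.succ)) ≠ 0)
    (U1 : ∀ j : Fin n, ∀ w, InL V w → (∀ i ∈ St n j, Th b x' i w = 0) →
      (∀ i ∉ insert j.succ (St n j), BB b x x' i (y (j + 1)) w = 0) → w (Sum.inl 0) = 0 → w = 0)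
    (U2 : ∀ j : Fin n, ∀ w, InL V w → (∀ i ∈ St n j, Th b x' i w = 0) →
      (∀ i ∉ insert j.succ (St n j), BB b x x' i (y j) w = 0) → w (Sum.inl 0) = 0 → w = 0)
    {γ : Fin (n + 1) → k} (hγ : ∀ i, x (Sum.inl i) * x' (Sum.inl i) =
      γ i ^ m * (x (Sum.inr (b i)) * x' (Sum.inr (b i)))) {p' q' : Ix n r → k}
    (hp' : ∀ i, p' i ^ m = y 0 i) (hq' : ∀ i, q' i ^ m = y' 0 i)
    (hpq' : ∀ i, p' (Sum.inl i) * q' (Sum.inl i) =
      γ i * (p' (Sum.inr (b i)) * q' (Sum.inr (b i)))) :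
    ∀ s ≤ n, ∀ p q : Ix n r → k, (∀ i, p i ^ m = y s i) → (∀ i, q i ^ m = y' s i) →
      (∀ i, p (Sum.inl i) * q (Sum.inl i) =
        γ i * (p (Sum.inr (b i)) * q (Sum.inr (b i)))) →
      sy p q = (-1 : ℤ) ^ s • sy p' q' := by
  intro s
  induction s with
  | zero =>
    intro hs p q hp hq hpq
    rw [pow_zero, one_smul]
    have hne0 : ∀ j, p' j ≠ 0 := by
      intro j h
      have := hp' j
      rw [h, zero_pow hm.ne'] at this
      exact hy0 0 hs j this.symm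
    have hne0' : ∀ j, q' j ≠ 0 := by
      intro j h
      have := hq' j
      rw [h, zero_pow hm.ne'] at this
      exact hy0' 0 hs j this.symm
    refine hsy.congr hm ha hne0 hne0' one_ne_zero one_ne_zero (fun j => ?_) (fun j => ?_) hpq' hpq
    · rw [hp, hp', one_mul]
    · rw [hq, hq', one_mul]
  | succ s ih =>
    intro hs p q hp hq hpq
    have hs' : s ≤ n := by omega
    let j : Fin n := ⟨s, hs⟩
    have hrel : ∀ i, y s (Sum.inl i) * y' s (Sum.inl i) =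
        γ i ^ m * (y s (Sum.inr (b i)) * y' s (Sum.inr (b i))) := by
      intro i
      apply rel_of hx0 hx0' hγ
      by_cases hi : i ∈ St n s
      · exact Or.inl ⟨hT s hs' i hi, hT' s hs' i hi⟩
      · exact Or.inr (hB s hs' i hi)
    obtain ⟨p₁, q₁, hp₁, hq₁, hpq₁⟩ := exists_lift (b := b) hm (hy0 s hs') hrel
    have h1 := ih hs' p₁ q₁ hp₁ hq₁ hpq₁
    have hSt : St n (s + 1) = insert j.succ (St n s) := St_succ j
    have h2 : sy p q + sy p₁ q₁ = 0 := by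
      refine step_B hsy hm ha (P := St n s) (j := j.succ) (succ_notMem_St j) (x := x) (x' := x')
        (y := y (s + 1)) (z := y s) (y' := y' (s + 1)) (z' := y' s) (hy _ hs) (hy _ hs')
        (hy' _ hs) (hy' _ hs') hx0 hx0' (hy0 _ hs) (hy0 _ hs') (hy0' _ hs) (hy0' _ hs') hγ ?_
        (hT s hs') (h3 j) (lam := lam) (σ := σ (s + 1)) (τ := σ s) ?_ (h5 s hs') (hlam j) (hσ j)
        (hne j) ?_ ?_ (hT' s hs') ?_ (U1 j) (U2 j) hp hq hp₁ hq₁ hpq hpq₁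
      · rw [← hSt]
        exact hT _ hs
      · rw [← hSt]
        exact h5 _ hs
      · intro i hi
        apply hT' _ hs i
        rw [hSt]
        exact Finset.mem_insert_of_mem hi
      · rw [← hSt]
        exact hB _ hs
      · intro i hi
        apply hB s hs' i
        intro h
        exact hi (Finset.mem_insert_of_mem h)
    rw [eq_neg_of_add_eq_zero_left h2, h1, pow_succ, mul_neg_one, neg_smul]

/-- the chain from `(x, x')` to `(x', x)` -/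
theorem chain (hsy : IsSy m a V sy) (hm : 0 < m)
    (ha : ∀ s, m ∣ a (Sum.inr s) + ∑ i with b i = s, a (Sum.inl i)) {x x' : Ix n r → k}
    (hx0 : ∀ i, x i ≠ 0) (hx0' : ∀ i, x' i ≠ 0) {y y' : ℕ → Ix n r → k}
    (hy : ∀ s ≤ n, InL V (y s)) (hy' : ∀ s ≤ n, InL V (y' s)) (hy0 : ∀ s ≤ n, ∀ i, y s i ≠ 0)
    (hy0' : ∀ s ≤ n, ∀ i, y' s i ≠ 0) (hT : ∀ s ≤ n, ∀ i ∈ St n s, Th b x i (y s) = 0)
    (hT' : ∀ s ≤ n, ∀ i ∈ St n s, Th b x' i (y' s) = 0)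
    (hB : ∀ s ≤ n, ∀ i ∉ St n s, BB b x x' i (y s) (y' s) = 0) {lam : Fin (n + 1) → k}
    {σ : ℕ → Fin (n + 1) → k}
    (h5 : ∀ s ≤ n, ∀ w, InL V w → ∑ i with i ∉ St n s, lam i * BB b x x' i (y s) w =
      ∑ i ∈ St n s, σ s i * Th b x' i w)
    (h3 : ∀ j : Fin n, Th b x j.succ (y j) ≠ 0) (hlam : ∀ j : Fin n, lam j.succ ≠ 0)
    (hσ : ∀ j : Fin n, σ (j + 1) j.succ ≠ 0)
    (hne : ∀ j : Fin n, σ (j + 1) j.succ +
      lam j.succ * x (Sum.inl j.succ) * y (j + 1) (Sum.inr (b j.succ)) ≠ 0)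
    (U1 : ∀ j : Fin n, ∀ w, InL V w → (∀ i ∈ St n j, Th b x' i w = 0) →
      (∀ i ∉ insert j.succ (St n j), BB b x x' i (y (j + 1)) w = 0) → w (Sum.inl 0) = 0 → w = 0)
    (U2 : ∀ j : Fin n, ∀ w, InL V w → (∀ i ∈ St n j, Th b x' i w = 0) →
      (∀ i ∉ insert j.succ (St n j), BB b x x' i (y j) w = 0) → w (Sum.inl 0) = 0 → w = 0)
    {u₁ u₂ u₃ u₄ : k} (hu₁ : ∀ i, y n i = u₁ * x i) (hu₂ : ∀ i, y' n i = u₂ * x' i)
    (hu₃ : ∀ i, y 0 i = u₃ * x' i) (hu₄ : ∀ i, y' 0 i = u₄ * x i) {p q : Ix n r → k}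
    (hp : ∀ i, p i ^ m = x i) (hq : ∀ i, q i ^ m = x' i) :
    sy p q = (-1 : ℤ) ^ n • sy q p := by
  have hp0 : ∀ i, p i ≠ 0 := by
    intro i h
    have := hp i
    rw [h, zero_pow hm.ne'] at this
    exact hx0 i this.symm
  have hq0 : ∀ i, q i ≠ 0 := by
    intro i h
    have := hq i
    rw [h, zero_pow hm.ne'] at this
    exact hx0' i this.symm
  obtain ⟨γ, hγ0⟩ : ∃ γ : Fin (n + 1) → k, ∀ i, p (Sum.inl i) * q (Sum.inl i) =
      γ i * (p (Sum.inr (b i)) * q (Sum.inr (b i))) := by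
    refine ⟨fun i => p (Sum.inl i) * q (Sum.inl i) / (p (Sum.inr (b i)) * q (Sum.inr (b i))),
      fun i => ?_⟩
    rw [div_mul_cancel₀ _ (mul_ne_zero (hp0 _) (hq0 _))]
  have hγ : ∀ i, x (Sum.inl i) * x' (Sum.inl i) =
      γ i ^ m * (x (Sum.inr (b i)) * x' (Sum.inr (b i))) := by
    intro i
    rw [← hp, ← hq, ← hp, ← hq, ← mul_pow, hγ0, mul_pow, mul_pow]
  have hj : Nonempty (Ix n r) := ⟨Sum.inl 0⟩
  obtain ⟨j₀⟩ := hj
  have hu₁0 : u₁ ≠ 0 := by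
    rintro rfl
    exact hy0 n le_rfl j₀ (by rw [hu₁, zero_mul])
  have hu₂0 : u₂ ≠ 0 := by
    rintro rfl
    exact hy0' n le_rfl j₀ (by rw [hu₂, zero_mul])
  have hu₃0 : u₃ ≠ 0 := by
    rintro rfl
    exact hy0 0 (Nat.zero_le _) j₀ (by rw [hu₃, zero_mul])
  have hu₄0 : u₄ ≠ 0 := by
    rintro rfl
    exact hy0' 0 (Nat.zero_le _) j₀ (by rw [hu₄, zero_mul])
  have hroot : ∀ u : k, ∃ z, z ^ m = u := fun u => IsAlgClosed.exists_pow_nat_eq u hm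
  obtain ⟨v₁, hv₁⟩ := hroot u₁
  obtain ⟨v₂, hv₂⟩ := hroot u₂
  obtain ⟨v₃, hv₃⟩ := hroot u₃
  obtain ⟨v₄, hv₄⟩ := hroot u₄
  have hz : ∀ {u v : k}, u ≠ 0 → v ^ m = u → v ≠ 0 := by
    intro u v hu hv h
    rw [h, zero_pow hm.ne'] at hv
    exact hu hv.symm
  have key := chain_aux hsy hm ha hx0 hx0' hy hy' hy0 hy0' hT hT' hB h5 h3 hlam hσ hne U1 U2 hγ
    (p' := fun i => v₃ * q i) (q' := fun i => v₄ * p i)
    (fun i => by rw [mul_pow, hv₃, hq, hu₃]) (fun i => by rw [mul_pow, hv₄, hp, hu₄])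
    (fun i => by
      have := hγ0 i
      linear_combination v₃ * v₄ * this) n le_rfl (fun i => v₁ * p i) (fun i => v₂ * q i)
    (fun i => by rw [mul_pow, hv₁, hp, hu₁]) (fun i => by rw [mul_pow, hv₂, hq, hu₂])
    (fun i => by
      have := hγ0 i
      linear_combination v₁ * v₂ * this)
  rw [hsy.smul _ _ _ _ (hz hu₁0 hv₁) (hz hu₂0 hv₂), hsy.smul _ _ _ _ (hz hu₃0 hv₃)
    (hz hu₄0 hv₄)] at key
  exact key

end Chain

end Pool.Agent.VGen
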