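import Pool.Agent.ZCyc.Basic

/-!
# Points of diagonal complete intersections in general position: definitions

The coordinates are indexed by `Ix n r`: `n + 1` free coordinates, and `r` coordinates which are
linear combinations of the free ones after taking `m`-th powers.
-/

set_option autoImplicit false

noncomputable section

namespace Pool.Agent.VGen

open Pool.Agent.ZCyc Polynomial

universe u

/-- the index set of the coordinates: `n + 1` free ones and `r` dependent ones -/
abbrev Ix (n r : ℕ) : Type := Fin (n + 1) ⊕ Fin r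

/-- `z` is in the linear space `z (inr s) = ∑ l, V s l * z (inl l)` -/
def InL {K : Type*} [CommRing K] {n r : ℕ} (V : Fin r → Fin (n + 1) → K) (z : Ix n r → K) : Prop :=
  ∀ s, z (Sum.inr s) = ∑ l, V s l * z (Sum.inl l)

/-- the algebraic closure of `k(t)` -/
abbrev Om (k : Type u) [Field k] : Type u := AlgebraicClosure (RatFunc k)

/-- the variable `t` -/
def tt (k : Type u) [Field k] : Om k := algebraMap (RatFunc k) (Om k) RatFunc.X

/-- `p` are homogeneous coordinates of the value at the place `v` of the point with the homogeneous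
coordinates `P` -/
def Red {k : Type u} [Field k] {I : Type} (v : Place k (Om k)) (P : I → Om k) (p : I → k) : Prop :=
  p ≠ 0 ∧ ∃ s : Om k, ∀ j, v.At (s * P j) (p j)

/-- A function of pairs of points of the variety with the equations `InL V (p ^ m)` which behaves
like the class of the part of the zero-cycle `(p, q)` for the character of the diagonal group with
the exponents `a` on both factors, modulo rational equivalence. -/
structure IsSy {k : Type u} [Field k] (m : ℕ) {n r : ℕ} (a : Ix n r → ℕ)
    (V : Fin r → Fin (n + 1) → k) {W : Type*} [AddCommGroup W]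
    (sy : (Ix n r → k) → (Ix n r → k) → W) : Prop where
  smul : ∀ (c d : k) (p q : Ix n r → k), c ≠ 0 → d ≠ 0 →
    sy (fun j => c * p j) (fun j => d * q j) = sy p q
  zero : ∀ (p q : Ix n r → k) (j : Ix n r), p j = 0 ∨ q j = 0 → sy p q = 0
  rot : ∀ t t' p q : Ix n r → k, (∀ j, t j ^ m = 1) → (∀ j, t' j ^ m = 1) →
    ∏ j, (t j * t' j) ^ a j = 1 → sy (fun j => t j * p j) (fun j => t' j * q j) = sy p q
  bridge : ∀ (N : ℕ) (ε : Fin N → ℤ) (P Q : Fin N → Ix n r → Om k),
    (∀ i, P i ≠ 0) → (∀ i, Q i ≠ 0) →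
    (∀ i, InL (fun s l => algebraMap k (Om k) (V s l)) (fun j => P i j ^ m)) →
    (∀ i, InL (fun s l => algebraMap k (Om k) (V s l)) (fun j => Q i j ^ m)) →
    ∀ (c₀ c₁ : k) (s₀ : W),
    (∀ v : Place k (Om k), v.At (tt k) c₀ → ∀ p q : Fin N → Ix n r → k,
      (∀ i, Red v (P i) (p i)) → (∀ i, Red v (Q i) (q i)) →
      ∃ M : ℕ, 0 < M ∧ ∑ i, ε i • sy (p i) (q i) = M • s₀) →
    (∀ v : Place k (Om k), v.At (tt k) c₁ → ∀ p q : Fin N → Ix n r → k,
      (∀ i, Red v (P i) (p i)) → (∀ i, Red v (Q i) (q i)) →
      ∑ i, ε i • sy (p i) (q i) = 0) → s₀ = 0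

/-! ### The forms for the step -/

section Forms

variable {K : Type*} [CommRing K] {n r : ℕ} (b : Fin (n + 1) → Fin r)

/-- the linear form `θ_i` attached to the point `x`: it vanishes at `x` -/
def Th (x : Ix n r → K) (i : Fin (n + 1)) (z : Ix n r → K) : K :=
  z (Sum.inl i) * x (Sum.inr (b i)) - x (Sum.inl i) * z (Sum.inr (b i))

/-- the bilinear form `B_i` attached to the points `x`, `x'`: it vanishes at `(x, x')` -/
def BB (x x' : Ix n r → K) (i : Fin (n + 1)) (z w : Ix n r → K) : K :=
  x (Sum.inr (b i)) * x' (Sum.inr (b i)) * (z (Sum.inl i) * w (Sum.inl i)) -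
    x (Sum.inl i) * x' (Sum.inl i) * (z (Sum.inr (b i)) * w (Sum.inr (b i)))

end Forms

/-! ### The scaled forms -/

section Scaled

variable {K : Type*} [CommRing K] {n r : ℕ} (V : Fin r → Fin (n + 1) → K)
  (b : Fin (n + 1) → Fin r) (e : K)

/-- the part of the linear form `V s` without the coordinate `0` -/
def ph (s : Fin r) (U : Fin (n + 1) → K) : K := ∑ i : Fin n, V s i.succ * U i.succ

/-- the dependent coordinate with number `s` of the scaled point -/
def EE (s : Fin r) (U : Fin (n + 1) → K) : K := V s 0 * U 0 + e * ph V s U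

/-- the scaled point: the coordinates different from `0` are multiplied by `e` -/
def pt (U : Fin (n + 1) → K) : Ix n r → K :=
  Sum.elim (fun i => if i = 0 then U 0 else e * U i) fun s => EE V e s U

/-- the scaled form `θ_i` (for `ξ 0 = 1`) -/
def th (ξ : Fin (n + 1) → K) (i : Fin (n + 1)) (U : Fin (n + 1) → K) : K :=
  if i = 0 then ph V (b 0) ξ * U 0 - ph V (b 0) U
  else EE V e (b i) ξ * U i - ξ i * EE V e (b i) U

/-- the scaled form `B_i` (for `ξ 0 = ξ' 0 = 1`) -/
def Bh (ξ ξ' : Fin (n + 1) → K) (i : Fin (n + 1)) (U W : Fin (n + 1) → K) : K :=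
  th V b e ξ i U * (EE V e (b i) ξ' * W i) + ξ i * EE V e (b i) U * th V b e ξ' i W

end Scaled

end Pool.Agent.VGen
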