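import Pool.Agent.VGen.Red
import Pool.Agent.VGen.SyLemmas

/-!
# V13: the moving lemma along a line
-/

set_option autoImplicit false

noncomputable section

namespace Pool.Agent.VGen

open Pool.Agent.ZCyc Pool.Agent.DCI57 Polynomial

universe u w

/-! ### Roots of unity -/

private lemma mv_gcd {ι : Type*} [Fintype ι] (m : ℕ) (hm : 0 < m) (a : ι → ℕ) :
    ∃ (g m' : ℕ) (a' : ι → ℕ), 0 < g ∧ 0 < m' ∧ m = g * m' ∧ (∀ i, a i = g * a' i) ∧
      ∃ (c : ι → ℤ) (e : ℤ), ∑ i, c i * (a i : ℤ) + e * m = g := by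
  classical
  let f : Option ι → ℤ := fun o => o.elim (m : ℤ) fun i => (a i : ℤ)
  obtain ⟨z, hz⟩ := (IsPrincipalIdealRing.principal (Ideal.span (Set.range f))).principal
  have hdvd : ∀ o, z ∣ f o := by
    intro o
    have h1 : f o ∈ Ideal.span (Set.range f) := Ideal.subset_span ⟨o, rfl⟩
    rw [hz] at h1
    exact Ideal.mem_span_singleton.1 h1
  have hz1 : z ∈ Ideal.span (Set.range f) := by
    rw [hz]
    exact Ideal.mem_span_singleton_self z
  obtain ⟨c, hc⟩ := Ideal.mem_span_range_iff_exists_fun.1 hz1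
  have hz0 : z ≠ 0 := by
    rintro rfl
    have h1 := hdvd none
    rw [zero_dvd_iff] at h1
    have h2 : (m : ℤ) = 0 := h1
    omega
  have hg : 0 < z.natAbs := Int.natAbs_pos.2 hz0
  have hd1 : z.natAbs ∣ m := by
    have h1 : z ∣ (m : ℤ) := hdvd none
    rw [← Int.natAbs_dvd, Int.natCast_dvd_natCast] at h1
    exact h1
  have hd2 : ∀ i, z.natAbs ∣ a i := by
    intro i
    have h1 : z ∣ (a i : ℤ) := hdvd (some i)
    rw [← Int.natAbs_dvd, Int.natCast_dvd_natCast] at h1
    exact h1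
  obtain ⟨m', hm'⟩ := hd1
  choose a' ha' using hd2
  refine ⟨z.natAbs, m', a', hg, ?_, hm', ha', fun i => z.sign * c (some i), z.sign * c none, ?_⟩
  · rcases Nat.eq_zero_or_pos m' with h | h
    · rw [h, mul_zero] at hm'
      omega
    · exact h
  · rw [Fintype.sum_option] at hc
    have h2 : f none = (m : ℤ) := rfl
    have h3 : ∀ i, f (some i) = (a i : ℤ) := fun _ => rfl
    simp only [h2, h3] at hc
    have h4 : ∑ i, z.sign * c (some i) * (a i : ℤ) + z.sign * c none * m =
        z.sign * (c none * m + ∑ i, c (some i) * (a i : ℤ)) := by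
      rw [mul_add, Finset.mul_sum, add_comm]
      congr 1
      · ring
      · refine Finset.sum_congr rfl fun i _ => ?_
        ring
    rw [h4, hc, Int.sign_mul_self_eq_natAbs]

private lemma mv_roots {ι : Type*} [Fintype ι] {F : Type*} [Field F] [IsAlgClosed F] {m g m' : ℕ}
    {a : ι → ℕ} (hg : 0 < g) (hm' : 0 < m') (hm : m = g * m') {c : ι → ℤ} {e : ℤ}
    (h : ∑ i, c i * (a i : ℤ) + e * m = g) {u : F} (hu : u ^ m' = 1) :
    ∃ t : ι → F, (∀ i, t i ^ m = 1) ∧ ∏ i, t i ^ a i = u := by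
  obtain ⟨ξ, hξ⟩ := IsAlgClosed.exists_pow_nat_eq u hg
  have hξm : ξ ^ m = 1 := by rw [hm, pow_mul, hξ, hu]
  have hu0 : u ≠ 0 := by
    rintro rfl
    rw [zero_pow hm'.ne'] at hu
    exact zero_ne_one hu
  have hξ0 : ξ ≠ 0 := by
    rintro rfl
    rw [zero_pow hg.ne'] at hξ
    exact hu0 hξ.symm
  refine ⟨fun i => ξ ^ c i, fun i => ?_, ?_⟩
  · rw [← zpow_natCast, ← zpow_mul, mul_comm, zpow_mul, zpow_natCast, hξm, one_zpow]
  · have h1 : ∏ i, (ξ ^ c i) ^ a i = ξ ^ ∑ i, c i * (a i : ℤ) := by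
      have h2 : ∀ s : Finset ι, ∏ i ∈ s, (ξ ^ c i) ^ a i = ξ ^ ∑ i ∈ s, c i * (a i : ℤ) := by
        intro s
        classical
        induction s using Finset.induction_on with
        | empty => simp
        | insert b s hb ih =>
          rw [Finset.prod_insert hb, Finset.sum_insert hb, zpow_add₀ hξ0, ih]
          congr 1
          rw [← zpow_natCast, ← zpow_mul]
      exact h2 Finset.univ
    rw [h1]
    have h2 : ∑ i, c i * (a i : ℤ) = g - m * e := by
      rw [← h]
      ring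
    rw [h2, zpow_sub₀ hξ0, zpow_mul, zpow_natCast, zpow_natCast, hξm, one_zpow, hξ, div_one]

/-! ### Places -/

section Pl

variable {k : Type u} [Field k] {F : Type*} [Field F] [Algebra k F]

private lemma mv_mem_of_pow (v : Place k F) {x : F} {m : ℕ} (hm : 0 < m) (h : x ^ m ∈ v.ring) :
    x ∈ v.ring := by
  by_contra hx
  have h1 : v.Vanishes x⁻¹ := by
    rw [v.vanishes_iff_or]
    right
    rwa [inv_inv]
  have h2 : v.Vanishes ((x⁻¹) ^ m * x ^ m) := (h1.pow v hm.ne').mul v h
  have hx0 : x ≠ 0 := by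
    rintro rfl
    exact hx (zero_mem _)
  rw [← mul_pow, inv_mul_cancel₀ hx0, one_pow] at h2
  have h3 := v.const_unit (one_ne_zero (α := k))
  rw [map_one] at h3
  exact h3 h2

private lemma mv_mem_of_root (v : Place k F) {G : F[X]} (hG : G.Monic)
    (hc : ∀ i, G.coeff i ∈ v.ring) {t : F} (ht : G.eval t = 0) : t ∈ v.ring := by
  have h1 : (G : F[X]) ∈ Polynomial.lifts (v.ring.subtype) := by
    rw [Polynomial.lifts_iff_coeff_lifts]
    intro i
    exact ⟨⟨G.coeff i, hc i⟩, rfl⟩
  obtain ⟨g, hg, _, hgm⟩ := Polynomial.lifts_and_natDegree_eq_and_monic h1 hG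
  have h2 : IsIntegral v.ring t := by
    refine ⟨g, hgm, ?_⟩
    have h3 : (algebraMap v.ring F) = v.ring.subtype := rfl
    rw [h3, ← eval_map, hg]
    exact ht
  obtain ⟨y, hy⟩ := IsIntegrallyClosed.isIntegral_iff.1 h2
  rw [← hy]
  exact y.2

end Pl

private lemma mv_roots_fin {F : Type*} [Field F] [IsAlgClosed F] {G : F[X]} (hG : G.Monic) :
    ∃ (N : ℕ) (t : Fin N → F), G = ∏ i, (X - C (t i)) := by
  have h := (IsAlgClosed.splits G).eq_prod_roots
  rw [hG.leadingCoeff, map_one, one_mul] at h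
  obtain ⟨l, hl⟩ := Quot.exists_rep G.roots
  refine ⟨l.length, l.get, ?_⟩
  have h1 : ∏ i, (X - C (l.get i)) = (l.map fun α => X - C α).prod := by
    rw [← List.prod_ofFn]
    congr 1
    conv_rhs => rw [← List.ofFn_get l]
    rw [List.map_ofFn]
    rfl
  have h2 : (Multiset.map (fun α => X - C α) (l : Multiset F)).prod =
      (l.map fun α => X - C α).prod := by
    rw [Multiset.map_coe, Multiset.prod_coe]
  have h3 : (l : Multiset F) = G.roots := hl
  rw [h3] at h2
  rw [h1, ← h2]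
  exact h

private lemma mv_lift {ι : Type*} [Fintype ι] {F : Type*} [Field F] [IsAlgClosed F] {m g m' : ℕ}
    {a a' : ι → ℕ} (hg : 0 < g) (hm' : 0 < m') (hm : m = g * m') (ha : ∀ i, a i = g * a' i)
    {c : ι → ℤ} {e : ℤ} (h : ∑ i, c i * (a i : ℤ) + e * m = g) {X Y : ι → F}
    (hX : ∀ i, X i ≠ 0) (hY : ∀ i, Y i ≠ 0) {w : F} (hw : w ^ m' = ∏ i, (X i * Y i) ^ a' i) :
    ∃ P Q : ι → F, (∀ i, P i ^ m = X i) ∧ (∀ i, Q i ^ m = Y i) ∧ ∏ i, (P i * Q i) ^ a i = w := by
  have hm0 : 0 < m := by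
    rw [hm]
    positivity
  choose P hP using fun i => IsAlgClosed.exists_pow_nat_eq (X i) hm0
  choose Q hQ using fun i => IsAlgClosed.exists_pow_nat_eq (Y i) hm0
  have hP0 : ∀ i, P i ≠ 0 := by
    intro i h0
    have := hP i
    rw [h0, zero_pow hm0.ne'] at this
    exact hX i this.symm
  have hQ0 : ∀ i, Q i ≠ 0 := by
    intro i h0
    have := hQ i
    rw [h0, zero_pow hm0.ne'] at this
    exact hY i this.symm
  set D := ∏ i, (P i * Q i) ^ a i with hD
  have hD0 : D ≠ 0 := Finset.prod_ne_zero_iff.2 fun i _ =>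
    pow_ne_zero _ (mul_ne_zero (hP0 i) (hQ0 i))
  have hDm : D ^ m' = w ^ m' := by
    rw [hw, hD, ← Finset.prod_pow]
    refine Finset.prod_congr rfl fun i _ => ?_
    rw [← hP i, ← hQ i, ← mul_pow, ← pow_mul, ← pow_mul, ha i, hm]
    congr 1
    ring
  obtain ⟨t, ht, htu⟩ := mv_roots hg hm' hm h (u := w / D) (by
    rw [div_pow, hDm, div_self]
    rw [← hDm]
    exact pow_ne_zero _ hD0)
  refine ⟨fun i => t i * P i, Q, fun i => ?_, hQ, ?_⟩
  · rw [mul_pow, ht, one_mul, hP]
  · have h1 : ∏ i, (t i * P i * Q i) ^ a i = (∏ i, t i ^ a i) * D := by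
      rw [hD, ← Finset.prod_mul_distrib]
      refine Finset.prod_congr rfl fun i _ => ?_
      rw [← mul_pow, mul_assoc]
    rw [h1, htu, div_mul_cancel₀ _ hD0]

section Moving

variable {k : Type u} [Field k] [IsAlgClosed k] [CharZero k] {m n r : ℕ} {a : Ix n r → ℕ}
  {V : Fin r → Fin (n + 1) → k} {W : Type*} [AddCommGroup W]
  {sy : (Ix n r → k) → (Ix n r → k) → W}

omit [IsAlgClosed k] [CharZero k] in
private lemma mv_inL {x h : Ix n r → k} (hx : InL V x) (hh : InL V h) (t : Om k) :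
    InL (fun s l => algebraMap k (Om k) (V s l))
      (fun j => algebraMap k (Om k) (x j) + t * algebraMap k (Om k) (h j)) := by
  intro s
  simp only
  rw [hx s, hh s, map_sum, map_sum, Finset.mul_sum, ← Finset.sum_add_distrib]
  refine Finset.sum_congr rfl fun l _ => ?_
  rw [map_mul, map_mul]
  ring

omit [CharZero k] in
/-- the values of a lift at a place -/
private lemma mv_value (v : Place k (Om k)) (hm : 0 < m) {x h : Ix n r → k} {t : Om k} {s : k}
    (ht : v.At t s) {P : Ix n r → Om k}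
    (hP : ∀ j, P j ^ m = algebraMap k (Om k) (x j) + t * algebraMap k (Om k) (h j)) :
    ∃ π : Ix n r → k, (∀ j, v.At (P j) (π j)) ∧ ∀ j, π j ^ m = x j + s * h j := by
  have h1 : ∀ j, v.At (P j ^ m) (x j + s * h j) := by
    intro j
    rw [hP]
    exact (Place.at_const _).add (ht.mul (Place.at_const _))
  have h2 : ∀ j, ∃ c, v.At (P j) c := fun j => exists_at v (mv_mem_of_pow v hm (h1 j).mem)
  choose π hπ using h2
  exact ⟨π, hπ, fun j => ((hπ j).pow m).unique (h1 j)⟩

omit [IsAlgClosed k] in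
private lemma mv_exists_param {S : Set k} (hS : S.Finite) {m' : ℕ} (hm' : 0 < m') (f : k[X])
    (w₀ : k) (d : ℕ) : ∃ α : k, α ≠ 0 ∧ ∀ s ∈ S, s ≠ 0 → (w₀ + α * s ^ d) ^ m' ≠ f.eval s := by
  classical
  have h1 : ∀ s ∈ S, {α : k | s ≠ 0 ∧ (w₀ + α * s ^ d) ^ m' = f.eval s}.Finite := by
    intro s _
    by_cases hs : s = 0
    · refine Set.finite_empty.subset ?_
      rintro α ⟨h, _⟩
      exact h hs
    have h2 : {y : k | y ^ m' = f.eval s}.Finite := by
      refine (Polynomial.nthRoots m' (f.eval s)).toFinset.finite_toSet.subset ?_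
      intro y hy
      simp only [Finset.mem_coe, Multiset.mem_toFinset, Polynomial.mem_nthRoots hm']
      exact hy
    have h3 : Set.InjOn (fun α : k => w₀ + α * s ^ d)
        ((fun α : k => w₀ + α * s ^ d) ⁻¹' {y : k | y ^ m' = f.eval s}) := by
      intro α _ β _ hαβ
      exact mul_right_cancel₀ (pow_ne_zero d hs) (add_left_cancel hαβ)
    refine (h2.preimage h3).subset ?_
    rintro α ⟨_, h⟩
    exact h
  have h4 : ({0} ∪ ⋃ s ∈ S, {α : k | s ≠ 0 ∧ (w₀ + α * s ^ d) ^ m' = f.eval s}).Finite :=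
    (Set.finite_singleton 0).union (hS.biUnion h1)
  obtain ⟨α, hα⟩ := h4.exists_notMem
  refine ⟨α, fun h => hα (Or.inl h), fun s hs hs0 h => hα (Or.inr ?_)⟩
  exact Set.mem_biUnion hs ⟨hs0, h⟩

omit [IsAlgClosed k] in
private lemma mv_exists_shift {S : Set k} (hS : S.Finite) {m' : ℕ} (hm' : 0 < m') (f : k[X])
    (w₀ α : k) (d : ℕ) : ∃ c : k, ∀ s ∈ S, (w₀ + α * s ^ d + c) ^ m' ≠ f.eval s := by
  classical
  have h1 : ∀ s ∈ S, {c : k | (w₀ + α * s ^ d + c) ^ m' = f.eval s}.Finite := by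
    intro s _
    have h2 : {y : k | y ^ m' = f.eval s}.Finite := by
      refine (Polynomial.nthRoots m' (f.eval s)).toFinset.finite_toSet.subset ?_
      intro y hy
      simp only [Finset.mem_coe, Multiset.mem_toFinset, Polynomial.mem_nthRoots hm']
      exact hy
    have h3 : Set.InjOn (fun c : k => w₀ + α * s ^ d + c)
        ((fun c : k => w₀ + α * s ^ d + c) ⁻¹' {y : k | y ^ m' = f.eval s}) := by
      intro c _ c' _ hcc
      exact add_left_cancel hcc
    exact h2.preimage h3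
  obtain ⟨c, hc⟩ := (hS.biUnion h1).exists_notMem
  refine ⟨c, fun s hs h => hc ?_⟩
  exact Set.mem_biUnion hs h

private lemma mv_monic {F : Type*} [Field F] {d m' : ℕ} {f : F[X]} (hd : f.natDegree < d)
    (hm' : 0 < m') (A B : F) : ((X ^ d + C A) ^ m' - C B * f).Monic := by
  have h1 : ((X ^ d + C A : F[X]) ^ m').Monic := (monic_X_pow_add_C A (by omega)).pow m'
  refine h1.sub_of_left ?_
  have h2 : ((X ^ d + C A : F[X]) ^ m').natDegree = m' * d := by
    rw [natDegree_pow, natDegree_X_pow_add_C]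
  rw [degree_eq_natDegree h1.ne_zero, h2]
  refine (degree_le_natDegree).trans_lt ?_
  have h3 : (C B * f).natDegree ≤ f.natDegree := natDegree_C_mul_le B f
  have h4 : (C B * f).natDegree < m' * d := by nlinarith
  exact_mod_cast h4

omit [IsAlgClosed k] [CharZero k] in
/-- the roots of the family -/
private lemma mv_family {m' d : ℕ} (hm' : 0 < m') {f : k[X]} (hd : f.natDegree < d) {w₀ α : k}
    (hα : α ≠ 0) (hf0 : w₀ ^ m' = f.eval 0) :
    ∃ (N : ℕ) (t : Fin N → Om k),
      (∀ i, (algebraMap k (Om k) w₀ + algebraMap k (Om k) α * t i ^ d + tt k) ^ m' =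
        aeval (t i) f) ∧
      (∀ (v : Place k (Om k)) (c : k), v.At (tt k) c → ∀ i, t i ∈ v.ring) ∧
      ∀ v : Place k (Om k), v.At (tt k) 0 → ∃ i, v.At (t i) 0 := by
  set ι := algebraMap k (Om k) with hι
  have hια : ι α ≠ 0 := by
    rw [hι]
    simpa using hα
  set A : Om k := (ι α)⁻¹ * (ι w₀ + tt k) with hA
  set B : Om k := ((ι α)⁻¹) ^ m' with hB
  set G : (Om k)[X] := (X ^ d + C A) ^ m' - C B * f.map ι with hG
  have hGm : G.Monic := mv_monic (by rwa [natDegree_map]) hm' A B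
  obtain ⟨N, t, ht⟩ := mv_roots_fin hGm
  have hev : ∀ y : Om k, G.eval y = (ι α)⁻¹ ^ m' *
      ((ι w₀ + ι α * y ^ d + tt k) ^ m' - aeval y f) := by
    intro y
    rw [hG, hA, hB]
    simp only [eval_sub, eval_pow, eval_add, eval_X, eval_C, eval_mul, eval_map]
    rw [mul_sub, ← mul_pow]
    congr 2
    · field_simp
      ring
  refine ⟨N, t, fun i => ?_, fun v c hv i => ?_, fun v hv => ?_⟩
  · have h1 : G.eval (t i) = 0 := by
      rw [ht, eval_prod]
      refine Finset.prod_eq_zero (Finset.mem_univ i) ?_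
      simp
    rw [hev] at h1
    rcases mul_eq_zero.1 h1 with h2 | h2
    · exact absurd h2 (pow_ne_zero _ (inv_ne_zero hια))
    · exact sub_eq_zero.1 h2
  · refine mv_mem_of_root v hGm ?_ (t := t i) ?_
    · have hT : tt k ∈ v.ring := hv.mem
      have hAm : A ∈ v.ring := by
        rw [hA, hι, ← map_inv₀]
        exact mul_mem (v.const_mem _) (add_mem (v.const_mem _) hT)
      have hBm : B ∈ v.ring := by
        rw [hB, hι, ← map_inv₀]
        exact pow_mem (v.const_mem _) _
      have hcl : ∀ g : (Om k)[X], g ∈ Polynomial.lifts (v.ring.subtype) →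
          ∀ i, g.coeff i ∈ v.ring := by
        intro g hg i
        rw [Polynomial.lifts_iff_coeff_lifts] at hg
        obtain ⟨y, hy⟩ := hg i
        rw [← hy]
        exact y.2
      refine hcl G ?_
      have hC : ∀ z ∈ v.ring, (C z : (Om k)[X]) ∈ Polynomial.lifts (v.ring.subtype) := by
        intro z hz
        exact ⟨C ⟨z, hz⟩, by simp⟩
      have hX : (X : (Om k)[X]) ∈ Polynomial.lifts (v.ring.subtype) := ⟨X, by simp⟩
      have hf : f.map ι ∈ Polynomial.lifts (v.ring.subtype) := by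
        rw [Polynomial.lifts_iff_coeff_lifts]
        intro i
        rw [coeff_map]
        exact ⟨⟨ι (f.coeff i), v.const_mem _⟩, rfl⟩
      have h1 : (X ^ d + C A) ^ m' ∈ Polynomial.lifts (v.ring.subtype) :=
        pow_mem (add_mem (pow_mem hX d) (hC A hAm)) m'
      have h2 : C B * f.map ι ∈ Polynomial.lifts (v.ring.subtype) := mul_mem (hC B hBm) hf
      obtain ⟨y1, hy1⟩ := h1
      obtain ⟨y2, hy2⟩ := h2
      refine ⟨y1 - y2, ?_⟩
      rw [map_sub, hG, ← hy1, ← hy2]
    · rw [ht, eval_prod]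
      refine Finset.prod_eq_zero (Finset.mem_univ i) ?_
      simp
  · have h1 : v.At (G.eval 0) 0 := by
      rw [hev]
      have h2 : v.At ((ι w₀ + ι α * (0 : Om k) ^ d + tt k) ^ m' - aeval (0 : Om k) f)
          ((w₀ + α * 0 ^ d + 0) ^ m' - f.eval 0) := by
        have h0 : v.At (0 : Om k) 0 := by
          have := Place.at_const (v := v) (0 : k)
          rwa [map_zero] at this
        refine Place.At.sub ?_ (h0.aeval f)
        exact (((Place.at_const w₀).add ((Place.at_const α).mul (h0.pow d))).add hv).pow m'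
      have hd0 : d ≠ 0 := by omega
      have hz : (w₀ + α * 0 ^ d + 0) ^ m' - f.eval 0 = 0 := by
        rw [zero_pow hd0, mul_zero, add_zero, add_zero, hf0, sub_self]
      rw [hz] at h2
      have h3 := (Place.at_const (v := v) (α⁻¹ ^ m')).mul h2
      rwa [mul_zero, map_pow, map_inv₀] at h3
    rw [ht, eval_prod, Place.at_zero_iff] at h1
    obtain ⟨i, _, hi⟩ := v.vanishes_prod h1
    refine ⟨i, ?_⟩
    rw [Place.at_zero_iff]
    simp only [eval_sub, eval_X, eval_C, zero_sub] at hi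
    have := hi.neg v
    rwa [neg_neg] at this

theorem moving (hsy : IsSy m a V sy) (hm : 0 < m) {x x' h h' : Ix n r → k} (hx : InL V x)
    (hx' : InL V x') (hh : InL V h) (hh' : InL V h') (hx0 : ∀ j, x j ≠ 0) (hx0' : ∀ j, x' j ≠ 0)
    {ε : ℤ} (hrel : ∀ᶠ t in Filter.cofinite, ∀ p q : Ix n r → k,
      (∀ j, p j ^ m = x j + t * h j) → (∀ j, q j ^ m = x' j + t * h' j) → (∀ j, p j ≠ 0) →
      (∀ j, q j ≠ 0) → sy p q = ε • sy q p)
    {p q : Ix n r → k} (hp : ∀ j, p j ^ m = x j) (hq : ∀ j, q j ^ m = x' j) :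
    sy p q = ε • sy q p := by
  classical
  obtain ⟨g, m', a', hg, hm', hmg, ha', c, e, hce⟩ := mv_gcd m hm a
  set ι := algebraMap k (Om k) with hι
  set f : k[X] := ∏ l, ((C (x l) + C (h l) * X) * (C (x' l) + C (h' l) * X)) ^ a' l with hf
  set w₀ : k := ∏ l, (p l * q l) ^ a l with hw₀
  have hprod : ∀ (P Q : Ix n r → k), (∏ l, (P l * Q l) ^ a l) ^ m' =
      ∏ l, (P l ^ m * Q l ^ m) ^ a' l := by
    intro P Q
    rw [← Finset.prod_pow]
    refine Finset.prod_congr rfl fun l _ => ?_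
    rw [← mul_pow, ← pow_mul, ← pow_mul, ha' l, hmg]
    congr 1
    ring
  have hf0 : w₀ ^ m' = f.eval 0 := by
    rw [hw₀, hprod, hf, eval_prod]
    refine Finset.prod_congr rfl fun l _ => ?_
    rw [hp, hq]
    simp
  have hp0 : ∀ j, p j ≠ 0 := by
    intro j h0
    have := hp j
    rw [h0, zero_pow hm.ne'] at this
    exact hx0 j this.symm
  have hq0 : ∀ j, q j ≠ 0 := by
    intro j h0
    have := hq j
    rw [h0, zero_pow hm.ne'] at this
    exact hx0' j this.symm
  -- the good values of the parameter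
  have hlin : ∀ (y z : k), y ≠ 0 → {t : k | y + t * z = 0}.Finite := by
    intro y z hy
    by_cases hz : z = 0
    · refine Set.finite_empty.subset ?_
      intro t ht
      rw [Set.mem_ofPred_eq, hz, mul_zero, add_zero] at ht
      exact hy ht
    · refine (Set.finite_singleton (-y / z)).subset ?_
      intro t ht
      rw [Set.mem_ofPred_eq] at ht
      rw [Set.mem_singleton_iff, eq_div_iff hz]
      exact eq_neg_of_add_eq_zero_right ht
  set Good : k → Prop := fun t => (∀ p q : Ix n r → k, (∀ j, p j ^ m = x j + t * h j) →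
    (∀ j, q j ^ m = x' j + t * h' j) → (∀ j, p j ≠ 0) → (∀ j, q j ≠ 0) → sy p q = ε • sy q p) ∧
    (∀ j, x j + t * h j ≠ 0) ∧ ∀ j, x' j + t * h' j ≠ 0 with hGood
  have hS : {t | ¬ Good t}.Finite := by
    have h1 : (⋃ j, {t : k | x j + t * h j = 0}).Finite :=
      Set.finite_iUnion fun j => hlin _ _ (hx0 j)
    have h2 : (⋃ j, {t : k | x' j + t * h' j = 0}).Finite :=
      Set.finite_iUnion fun j => hlin _ _ (hx0' j)
    refine (((Filter.eventually_cofinite.1 hrel).union h1).union h2).subset ?_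
    intro t ht
    by_contra hcon
    apply ht
    simp only [Set.mem_union, Set.mem_iUnion, Set.mem_ofPred_eq, not_or,
      not_exists, not_not] at hcon
    exact ⟨hcon.1.1, hcon.1.2, hcon.2⟩
  obtain ⟨α, hα, hα'⟩ := mv_exists_param hS hm' f w₀ (f.natDegree + 1)
  obtain ⟨c₁, hc₁⟩ := mv_exists_shift hS hm' f w₀ α (f.natDegree + 1)
  obtain ⟨N, t, ht1, ht2, ht3⟩ := mv_family hm' (lt_add_one f.natDegree) hα hf0
  -- the roots are not constant
  have hnc : ∀ i s, t i ≠ ι s := by
    intro i s hs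
    have h1 := ht1 i
    rw [hs] at h1
    have h2 : aeval (ι s) f = ι (f.eval s) := by
      rw [hι, aeval_algebraMap_apply_eq_algebraMap_eval]
    have hmon : ((X + C (w₀ + α * s ^ (f.natDegree + 1)) : k[X]) ^ m').Monic :=
      (monic_X_add_C _).pow m'
    have h3 : ((X + C (w₀ + α * s ^ (f.natDegree + 1))) ^ m' - C (f.eval s) : k[X]) ≠ 0 := by
      refine (hmon.sub_of_left ?_).ne_zero
      refine (degree_C_le).trans_lt ?_
      rw [degree_pow, degree_X_add_C, nsmul_one]
      exact_mod_cast hm'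
    refine h3 ((transcendental_iff.1 (tt_transcendental k)) _ ?_)
    rw [map_sub, map_pow, map_add, aeval_X, aeval_C, aeval_C, ← h2, ← h1]
    simp only [hι, map_add, map_mul, map_pow]
    ring
  have hXne : ∀ i (y z : k), y ≠ 0 → ι y + t i * ι z ≠ 0 := by
    intro i y z hy h0
    by_cases hz : z = 0
    · rw [hz, map_zero, mul_zero, add_zero] at h0
      exact hy ((map_eq_zero ι).1 h0)
    · refine hnc i (-y / z) ?_
      have hz' : ι z ≠ 0 := fun h => hz ((map_eq_zero ι).1 h)
      rw [map_div₀, map_neg, eq_div_iff hz']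
      exact eq_neg_of_add_eq_zero_right h0
  have hlift : ∀ i, ∃ P Q : Ix n r → Om k, (∀ l, P l ^ m = ι (x l) + t i * ι (h l)) ∧
      (∀ l, Q l ^ m = ι (x' l) + t i * ι (h' l)) ∧ ∏ l, (P l * Q l) ^ a l =
        ι w₀ + ι α * t i ^ (f.natDegree + 1) + tt k := by
    intro i
    refine mv_lift hg hm' hmg ha' hce (fun l => hXne i _ _ (hx0 l))
      (fun l => hXne i _ _ (hx0' l)) ?_
    rw [ht1 i, hf, map_prod]
    refine Finset.prod_congr rfl fun l _ => ?_
    simp only [map_pow, map_mul, map_add, aeval_C, aeval_X]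
    ring
  choose P Q hP hQ hPQ using hlift
  have hP0 : ∀ i, P i ≠ 0 := by
    intro i h0
    have h1 := hP i (Sum.inl 0)
    rw [h0, Pi.zero_apply, zero_pow hm.ne'] at h1
    exact hXne i _ _ (hx0 _) h1.symm
  have hQ0 : ∀ i, Q i ≠ 0 := by
    intro i h0
    have h1 := hQ i (Sum.inl 0)
    rw [h0, Pi.zero_apply, zero_pow hm.ne'] at h1
    exact hXne i _ _ (hx0' _) h1.symm
  -- values
  have hval : ∀ (v : Place k (Om k)) (c' : k), v.At (tt k) c' → ∀ i, ∃ (s : k)
      (π κ : Ix n r → k), v.At (t i) s ∧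
      (w₀ + α * s ^ (f.natDegree + 1) + c') ^ m' = f.eval s ∧
      (∀ j, π j ^ m = x j + s * h j) ∧ (∀ j, κ j ^ m = x' j + s * h' j) ∧
      ∏ l, (π l * κ l) ^ a l = w₀ + α * s ^ (f.natDegree + 1) + c' ∧
      (∀ j, v.At (P i j) (π j)) ∧ ∀ j, v.At (Q i j) (κ j) := by
    intro v c' hv i
    obtain ⟨s, hs⟩ := exists_at v (ht2 v c' hv i)
    obtain ⟨π, hπ1, hπ2⟩ := mv_value v hm hs (hP i)
    obtain ⟨κ, hκ1, hκ2⟩ := mv_value v hm hs (hQ i)
    have h1 : v.At (ι w₀ + ι α * t i ^ (f.natDegree + 1) + tt k)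
        (w₀ + α * s ^ (f.natDegree + 1) + c') :=
      ((Place.at_const w₀).add ((Place.at_const α).mul (hs.pow _))).add hv
    refine ⟨s, π, κ, hs, ?_, hπ2, hκ2, ?_, hπ1, hκ1⟩
    · have h2 := h1.pow m'
      rw [ht1 i] at h2
      exact h2.unique (hs.aeval f)
    · have h2 : v.At (∏ l, (P i l * Q i l) ^ a l) (∏ l, (π l * κ l) ^ a l) :=
        Place.At.prod fun l _ => ((hπ1 l).mul (hκ1 l)).pow _
      rw [hPQ i] at h2
      exact h2.unique h1
  have hred : ∀ (v : Place k (Om k)) (R S : Ix n r → Om k) (π κ p₁ q₁ : Ix n r → k),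
      (∀ j, v.At (R j) (π j)) → (∀ j, v.At (S j) (κ j)) → (∀ j, π j ≠ 0) → (∀ j, κ j ≠ 0) →
      Red v R p₁ → Red v S q₁ → sy p₁ q₁ = sy π κ := by
    intro v R S π κ p₁ q₁ h1 h2 h3 h4 h5 h6
    have h7 : Red v R π := ⟨fun h0 => h3 (Sum.inl 0) (by rw [h0]; rfl), 1, fun j => by
      rw [one_mul]
      exact h1 j⟩
    have h8 : Red v S κ := ⟨fun h0 => h4 (Sum.inl 0) (by rw [h0]; rfl), 1, fun j => by
      rw [one_mul]
      exact h2 j⟩
    obtain ⟨b, hb, hb'⟩ := h7.unique h5
    obtain ⟨b', hb2, hb2'⟩ := h8.unique h6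
    have h9 : p₁ = fun j => b * π j := funext hb'
    have h10 : q₁ = fun j => b' * κ j := funext hb2'
    rw [h9, h10]
    exact hsy.smul b b' π κ hb hb2
  have hpow0 : ∀ {π y : Ix n r → k}, (∀ j, π j ^ m = y j) → (∀ j, y j ≠ 0) → ∀ j, π j ≠ 0 := by
    intro π y h1 h2 j h0
    have := h1 j
    rw [h0, zero_pow hm.ne'] at this
    exact h2 j this.symm
  -- the terms
  have hgood : ∀ (v : Place k (Om k)) (i : Fin N) (s : k) (π κ p₁ q₁ p₂ q₂ : Ix n r → k), Good s →
      (∀ j, π j ^ m = x j + s * h j) → (∀ j, κ j ^ m = x' j + s * h' j) →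
      (∀ j, v.At (P i j) (π j)) → (∀ j, v.At (Q i j) (κ j)) → Red v (P i) p₁ → Red v (Q i) q₁ →
      Red v (Q i) q₂ → Red v (P i) p₂ → sy p₁ q₁ - ε • sy q₂ p₂ = 0 := by
    intro v i s π κ p₁ q₁ p₂ q₂ hg h1 h2 h3 h4 h5 h6 h7 h8
    have hπ := hpow0 h1 hg.2.1
    have hκ := hpow0 h2 hg.2.2
    rw [hred v _ _ π κ p₁ q₁ h3 h4 hπ hκ h5 h6, hred v _ _ κ π q₂ p₂ h4 h3 hκ hπ h7 h8,
      hg.1 π κ h1 h2 hπ hκ, sub_self]
  have key : sy p q - ε • sy q p = 0 := by
    refine hsy.bridge (N + N) (Fin.append (fun _ => 1) fun _ => -ε) (Fin.append P Q)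
      (Fin.append Q P) ?_ ?_ ?_ ?_ 0 c₁ _ ?_ ?_
    · intro i
      refine Fin.addCases (fun i => ?_) (fun i => ?_) i
      · rw [Fin.append_left]
        exact hP0 i
      · rw [Fin.append_right]
        exact hQ0 i
    · intro i
      refine Fin.addCases (fun i => ?_) (fun i => ?_) i
      · rw [Fin.append_left]
        exact hQ0 i
      · rw [Fin.append_right]
        exact hP0 i
    · intro i
      refine Fin.addCases (fun i => ?_) (fun i => ?_) i
      · rw [Fin.append_left]
        simp only [hP]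
        exact mv_inL hx hh _
      · rw [Fin.append_right]
        simp only [hQ]
        exact mv_inL hx' hh' _
    · intro i
      refine Fin.addCases (fun i => ?_) (fun i => ?_) i
      · rw [Fin.append_left]
        simp only [hQ]
        exact mv_inL hx' hh' _
      · rw [Fin.append_right]
        simp only [hP]
        exact mv_inL hx hh _
    · intro v hv p₁ q₁ h1 h2
      have hterm : ∀ i : Fin N, ∃ s, v.At (t i) s ∧ sy (p₁ (Fin.castAdd N i)) (q₁ (Fin.castAdd N i))
          - ε • sy (p₁ (Fin.natAdd N i)) (q₁ (Fin.natAdd N i)) =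
          if s = 0 then sy p q - ε • sy q p else 0 := by
        intro i
        obtain ⟨s, π, κ, hs, h3, h4, h5, h6, h7, h8⟩ := hval v 0 hv i
        have r1 := h1 (Fin.castAdd N i)
        have r2 := h2 (Fin.castAdd N i)
        have r3 := h1 (Fin.natAdd N i)
        have r4 := h2 (Fin.natAdd N i)
        rw [Fin.append_left] at r1 r2
        rw [Fin.append_right] at r3 r4
        refine ⟨s, hs, ?_⟩
        split_ifs with hs0
        · subst hs0
          simp only [zero_mul, add_zero] at h4 h5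
          have hd0 : f.natDegree + 1 ≠ 0 := by omega
          rw [zero_pow hd0, mul_zero, add_zero, add_zero] at h6
          have hπ := hpow0 h4 hx0
          have hκ := hpow0 h5 hx0'
          rw [hred v _ _ π κ _ _ h7 h8 hπ hκ r1 r2, hred v _ _ κ π _ _ h8 h7 hκ hπ r3 r4]
          rw [hsy.congr_prod hm hp0 hq0 (p' := π) (q' := κ) (fun j => by rw [h4, hp])
            (fun j => by rw [h5, hq]) h6]
          rw [hsy.congr_prod hm hq0 hp0 (p' := κ) (q' := π) (fun j => by rw [h5, hq])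
            (fun j => by rw [h4, hp]) (by
              rw [Finset.prod_congr rfl fun l _ => by rw [mul_comm (κ l) (π l)],
                h6, hw₀]
              exact Finset.prod_congr rfl fun l _ => by rw [mul_comm (q l) (p l)])]
        · refine hgood v i s π κ _ _ _ _ ?_ h4 h5 h7 h8 r1 r2 r3 r4
          by_contra hng
          rw [add_zero] at h3
          exact hα' s hng hs0 h3
      choose s hs1 hs2 using hterm
      refine ⟨(Finset.univ.filter fun i => s i = 0).card, ?_, ?_⟩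
      · obtain ⟨i, hi⟩ := ht3 v hv
        rw [Finset.card_pos]
        exact ⟨i, Finset.mem_filter.2 ⟨Finset.mem_univ i, (hs1 i).unique hi⟩⟩
      · rw [Fin.sum_univ_add]
        simp only [Fin.append_left, Fin.append_right, one_smul, neg_smul]
        rw [← Finset.sum_add_distrib]
        have h3 : ∀ i : Fin N, sy (p₁ (Fin.castAdd N i)) (q₁ (Fin.castAdd N i)) +
            -(ε • sy (p₁ (Fin.natAdd N i)) (q₁ (Fin.natAdd N i))) =
            if s i = 0 then sy p q - ε • sy q p else 0 := fun i => by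
          rw [← sub_eq_add_neg]
          exact hs2 i
        rw [Finset.sum_congr rfl fun i _ => h3 i, ← Finset.sum_filter, Finset.sum_const]
    · intro v hv p₁ q₁ h1 h2
      rw [Fin.sum_univ_add]
      simp only [Fin.append_left, Fin.append_right, one_smul, neg_smul]
      rw [← Finset.sum_add_distrib]
      refine Finset.sum_eq_zero fun i _ => ?_
      obtain ⟨s, π, κ, hs, h3, h4, h5, h6, h7, h8⟩ := hval v c₁ hv i
      have r1 := h1 (Fin.castAdd N i)
      have r2 := h2 (Fin.castAdd N i)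
      have r3 := h1 (Fin.natAdd N i)
      have r4 := h2 (Fin.natAdd N i)
      rw [Fin.append_left] at r1 r2
      rw [Fin.append_right] at r3 r4
      rw [← sub_eq_add_neg]
      refine hgood v i s π κ _ _ _ _ ?_ h4 h5 h7 h8 r1 r2 r3 r4
      by_contra hng
      exact hc₁ s hng h3
  exact sub_eq_zero.1 key

end Moving

end Pool.Agent.VGen
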