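import Pool.Agent.VGen.Gen
import Pool.Agent.VGen.Moving

/-!
# The relation for all points
-/

set_option autoImplicit false

noncomputable section

namespace Pool.Agent.VGen

open Pool.Agent.ZCyc Polynomial Filter

universe u

section

variable {K : Type*} [CommRing K] {n r : ℕ} {V : Fin r → Fin (n + 1) → K}

private theorem inL_add {z w : Ix n r → K} (hz : InL V z) (hw : InL V w) :
    InL V (fun j => z j + w j) := by
  intro s
  change z (Sum.inr s) + w (Sum.inr s) = ∑ l, V s l * (z (Sum.inl l) + w (Sum.inl l))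
  rw [hz s, hw s, ← Finset.sum_add_distrib]
  exact Finset.sum_congr rfl fun i _ => by ring

private theorem inL_smul (c : K) {z : Ix n r → K} (hz : InL V z) : InL V (fun j => c * z j) := by
  intro s
  change c * z (Sum.inr s) = ∑ l, V s l * (c * z (Sum.inl l))
  rw [hz s, Finset.mul_sum]
  exact Finset.sum_congr rfl fun i _ => by ring

/-- the point of the linear space with given free coordinates -/
private def mkL (V : Fin r → Fin (n + 1) → K) (U : Fin (n + 1) → K) : Ix n r → K :=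
  Sum.elim U fun s => ∑ l, V s l * U l

private theorem mkL_inL (U : Fin (n + 1) → K) : InL V (mkL V U) := fun _ => rfl

private theorem inL_ext {z w : Ix n r → K} (hz : InL V z) (hw : InL V w)
    (h : ∀ i, z (Sum.inl i) = w (Sum.inl i)) : z = w := by
  funext j
  rcases j with i | s
  · exact h i
  · rw [hz s, hw s]
    exact Finset.sum_congr rfl fun i _ => by rw [h i]

end

section Main

variable {k : Type u} [Field k] [IsAlgClosed k] [CharZero k] {m n r : ℕ} {a : Ix n r → ℕ}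
  {V : Fin r → Fin (n + 1) → k} {W : Type*} [AddCommGroup W]
  {sy : (Ix n r → k) → (Ix n r → k) → W} {b : Fin (n + 1) → Fin r}

/-- the case of distinct coordinates -/
private theorem ext_one (hsy : IsSy m a V sy) (hm : 0 < m)
    (ha : ∀ s, m ∣ a (Sum.inr s) + ∑ i with b i = s, a (Sum.inl i)) (hV : ∀ s l, V s l ≠ 0)
    {x x' : Ix n r → k} (hx : InL V x) (hx' : InL V x') (hx0 : ∀ j, x j ≠ 0)
    (hx0' : ∀ j, x' j ≠ 0) (h1 : x (Sum.inl 0) = 1) (h1' : x' (Sum.inl 0) = 1)
    (hd : ∀ i, i ≠ 0 → x (Sum.inl i) ≠ x' (Sum.inl i)) {p q : Ix n r → k}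
    (hp : ∀ j, p j ^ m = x j) (hq : ∀ j, q j ^ m = x' j) :
    sy p q = (-1 : ℤ) ^ n • sy q p := by
  set h : Ix n r → k := mkL V (Pi.single 0 1) with hh
  have hhL : InL V h := mkL_inL _
  refine moving hsy hm hx hx' hhL hhL hx0 hx0' (ε := (-1 : ℤ) ^ n) ?_ hp hq
  have hg := gen_swap (b := b) hsy hm ha hV (ξ := fun i => x (Sum.inl i))
    (ξ' := fun i => x' (Sum.inl i)) h1 h1' (fun i => hx0 _) (fun i => hx0' _) hd
  -- the line in the coordinate `1 / (1 + t)`
  have hinj : Function.Injective fun t : k => (1 + t)⁻¹ := by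
    intro s t hst
    exact add_left_cancel (inv_injective hst)
  have h2 := hinj.tendsto_cofinite.eventually hg
  have h3 : ∀ᶠ t : k in cofinite, t ≠ -1 := eventually_cofinite_ne (-1 : k)
  filter_upwards [h2, h3] with t h2 h3 p q hp hq _ _
  have ht : 1 + t ≠ 0 := by
    intro h4
    apply h3
    linear_combination h4
  obtain ⟨κ, hκ⟩ := IsAlgClosed.exists_pow_nat_eq (1 + t) hm
  have hκ0 : κ ≠ 0 := by
    rintro rfl
    rw [zero_pow hm.ne'] at hκ
    exact ht hκ.symm
  have key : ∀ {x p : Ix n r → k}, InL V x → x (Sum.inl 0) = 1 →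
      (∀ j, p j ^ m = x j + t * h j) → ∀ j, (κ⁻¹ * p j) ^ m =
        pt V (1 + t)⁻¹ (fun i => x (Sum.inl i)) j := by
    intro x p hx hx1 hp j
    have h5 : (fun j => (1 + t)⁻¹ * (x j + t * h j)) =
        pt V (1 + t)⁻¹ (fun i => x (Sum.inl i)) := by
      apply inL_ext (inL_smul _ (inL_add hx (inL_smul _ hhL))) (pt_inL _ _ _)
      intro i
      simp only [pt, Sum.elim_inl, hh, mkL]
      split_ifs with hi
      · rw [hi, Pi.single_eq_same, hx1, mul_one, inv_mul_cancel₀ ht]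
      · rw [Pi.single_eq_of_ne hi, mul_zero, add_zero]
    rw [← h5, mul_pow, inv_pow, hκ, hp]
  have h6 := h2 (fun j => κ⁻¹ * p j) (fun j => κ⁻¹ * q j) (key hx h1 hp) (key hx' h1' hq)
  rw [hsy.smul _ _ _ _ (inv_ne_zero hκ0) (inv_ne_zero hκ0),
    hsy.smul _ _ _ _ (inv_ne_zero hκ0) (inv_ne_zero hκ0)] at h6
  exact h6

/-- the case of a common coordinate -/
private theorem ext_two (hsy : IsSy m a V sy) (hm : 0 < m)
    (ha : ∀ s, m ∣ a (Sum.inr s) + ∑ i with b i = s, a (Sum.inl i)) (hV : ∀ s l, V s l ≠ 0)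
    {x x' : Ix n r → k} (hx : InL V x) (hx' : InL V x') (hx0 : ∀ j, x j ≠ 0)
    (hx0' : ∀ j, x' j ≠ 0) (h1 : x (Sum.inl 0) = 1) (h1' : x' (Sum.inl 0) = 1)
    {p q : Ix n r → k} (hp : ∀ j, p j ^ m = x j) (hq : ∀ j, q j ^ m = x' j) :
    sy p q = (-1 : ℤ) ^ n • sy q p := by
  set h : Ix n r → k := mkL V (fun i => if i = 0 then 0 else 1) with hh
  have hhL : InL V h := mkL_inL _
  have h0L : InL V (0 : Ix n r → k) := by
    intro s
    simp
  refine moving hsy hm hx hx' hhL h0L hx0 hx0' (ε := (-1 : ℤ) ^ n) ?_ hp hq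
  have e1 : ∀ᶠ t : k in cofinite, ∀ j, x j + t * h j ≠ 0 := by
    refine eventually_all.2 fun j => ?_
    have h2 : ((C (x j) + X * C (h j) : k[X])).eval 0 ≠ 0 := by
      simpa using hx0 j
    filter_upwards [eventually_eval_ne h2] with t ht
    rw [eval_add, eval_C, eval_mul, eval_X, eval_C] at ht
    exact ht
  have e2 : ∀ᶠ t : k in cofinite, ∀ i : Fin (n + 1), i ≠ 0 →
      x (Sum.inl i) + t ≠ x' (Sum.inl i) := by
    refine eventually_all.2 fun i => ?_
    filter_upwards [eventually_cofinite_ne (x' (Sum.inl i) - x (Sum.inl i))] with t ht _ h3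
    apply ht
    rw [← h3]
    ring
  filter_upwards [e1, e2] with t h2 h3 p q hp hq _ _
  refine ext_one hsy hm ha hV (inL_add hx (inL_smul t hhL)) hx' h2 hx0' ?_ h1' ?_ hp ?_
  · simp [hh, mkL, h1]
  · intro i hi
    have := h3 i hi
    simpa [hh, mkL, hi] using this
  · intro j
    rw [hq]
    simp

/-- **The exchange of the two points.** -/
theorem swap_abs (hsy : IsSy m a V sy) (hm : 0 < m)
    (ha : ∀ s, m ∣ a (Sum.inr s) + ∑ i with b i = s, a (Sum.inl i)) (hV : ∀ s l, V s l ≠ 0)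
    {p q : Ix n r → k} (hp : InL V (fun j => p j ^ m)) (hq : InL V (fun j => q j ^ m)) :
    sy p q = (-1 : ℤ) ^ n • sy q p := by
  by_cases h0 : ∃ j, p j = 0 ∨ q j = 0
  · obtain ⟨j, hj⟩ := h0
    rw [hsy.zero p q j hj, hsy.zero q p j hj.symm, smul_zero]
  push Not at h0
  set u := (p (Sum.inl 0))⁻¹ with hu
  set v := (q (Sum.inl 0))⁻¹ with hv
  have hu0 : u ≠ 0 := inv_ne_zero (h0 _).1
  have hv0 : v ≠ 0 := inv_ne_zero (h0 _).2
  have key := ext_two (b := b) hsy hm ha hV (x := fun j => u ^ m * p j ^ m)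
    (x' := fun j => v ^ m * q j ^ m) (inL_smul _ hp) (inL_smul _ hq)
    (fun j => mul_ne_zero (pow_ne_zero _ hu0) (pow_ne_zero _ (h0 j).1))
    (fun j => mul_ne_zero (pow_ne_zero _ hv0) (pow_ne_zero _ (h0 j).2))
    (by rw [← mul_pow, hu, inv_mul_cancel₀ (h0 _).1, one_pow])
    (by rw [← mul_pow, hv, inv_mul_cancel₀ (h0 _).2, one_pow])
    (p := fun j => u * p j) (q := fun j => v * q j) (fun j => mul_pow _ _ _)
    (fun j => mul_pow _ _ _)
  rw [hsy.smul _ _ _ _ hu0 hv0, hsy.smul _ _ _ _ hv0 hu0] at key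
  exact key

end Main

end Pool.Agent.VGen
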