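import Pool.Agent.VGen.Defs

/-!
# The scaled forms
-/

set_option autoImplicit false

noncomputable section

namespace Pool.Agent.VGen

open Pool.Agent.ZCyc Polynomial

universe u

section Forms

variable {K : Type*} [CommRing K] {n r : ℕ} (V : Fin r → Fin (n + 1) → K)
  (b : Fin (n + 1) → Fin r) (e : K)

private lemma ph_add (s : Fin r) (U U' : Fin (n + 1) → K) :
    ph V s (U + U') = ph V s U + ph V s U' := by
  simp only [ph, Pi.add_apply, mul_add, Finset.sum_add_distrib]

private lemma ph_smul (s : Fin r) (c : K) (U : Fin (n + 1) → K) :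
    ph V s (c • U) = c * ph V s U := by
  simp only [ph, Pi.smul_apply, smul_eq_mul, Finset.mul_sum]
  exact Finset.sum_congr rfl fun i _ => by ring

theorem pt_inL (U : Fin (n + 1) → K) : InL V (pt V e U) := by
  intro s
  simp only [pt, Sum.elim_inr, Sum.elim_inl]
  rw [Fin.sum_univ_succ]
  simp only [if_true, Fin.succ_ne_zero, if_false, EE, ph, Finset.mul_sum]
  congr 1
  exact Finset.sum_congr rfl fun i _ => by ring

theorem Th_pt {ξ : Fin (n + 1) → K} (hξ : ξ 0 = 1) (i : Fin (n + 1)) (U : Fin (n + 1) → K) :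
    Th b (pt V e ξ) i (pt V e U) = e * th V b e ξ i U := by
  by_cases hi : i = 0
  · subst hi
    simp only [Th, pt, th, Sum.elim_inr, Sum.elim_inl, if_true, EE, hξ]
    ring
  · simp only [Th, pt, th, Sum.elim_inr, Sum.elim_inl, if_neg hi]
    ring

theorem th_self (ξ : Fin (n + 1) → K) (hξ : ξ 0 = 1) (i : Fin (n + 1)) : th V b e ξ i ξ = 0 := by
  by_cases hi : i = 0
  · subst hi
    simp only [th, if_true, hξ]
    ring
  · simp only [th, if_neg hi]
    ring

theorem BB_pt {ξ ξ' : Fin (n + 1) → K} (hξ : ξ 0 = 1) (hξ' : ξ' 0 = 1) (i : Fin (n + 1))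
    (U W : Fin (n + 1) → K) : BB b (pt V e ξ) (pt V e ξ') i (pt V e U) (pt V e W) =
      (if i = 0 then e else e ^ 2) * Bh V b e ξ ξ' i U W := by
  by_cases hi : i = 0
  · subst hi
    simp only [BB, pt, Bh, th, Sum.elim_inr, Sum.elim_inl, if_true, EE, hξ, hξ']
    ring
  · simp only [BB, pt, Bh, th, Sum.elim_inr, Sum.elim_inl, if_neg hi]
    ring

theorem Bh_symm {ξ ξ' : Fin (n + 1) → K} (hξ : ξ 0 = 1) (hξ' : ξ' 0 = 1) (i : Fin (n + 1))
    (U W : Fin (n + 1) → K) : Bh V b e ξ ξ' i U W = Bh V b e ξ ξ' i W U := by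
  by_cases hi : i = 0
  · subst hi
    simp only [Bh, th, if_true, EE, hξ, hξ']
    ring
  · simp only [Bh, th, if_neg hi]
    ring

theorem EE_add (s : Fin r) (U U' : Fin (n + 1) → K) :
    EE V e s (U + U') = EE V e s U + EE V e s U' := by
  simp only [EE, ph_add, Pi.add_apply]
  ring

theorem EE_smul (s : Fin r) (c : K) (U : Fin (n + 1) → K) :
    EE V e s (c • U) = c * EE V e s U := by
  simp only [EE, ph_smul, Pi.smul_apply, smul_eq_mul]
  ring

theorem th_add (ξ : Fin (n + 1) → K) (i : Fin (n + 1)) (U U' : Fin (n + 1) → K) :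
    th V b e ξ i (U + U') = th V b e ξ i U + th V b e ξ i U' := by
  unfold th
  split_ifs
  · rw [ph_add, Pi.add_apply]
    ring
  · rw [EE_add, Pi.add_apply]
    ring

theorem th_smul (ξ : Fin (n + 1) → K) (i : Fin (n + 1)) (c : K) (U : Fin (n + 1) → K) :
    th V b e ξ i (c • U) = c * th V b e ξ i U := by
  unfold th
  split_ifs
  · rw [ph_smul, Pi.smul_apply, smul_eq_mul]
    ring
  · rw [EE_smul, Pi.smul_apply, smul_eq_mul]
    ring

theorem Bh_add_left (ξ ξ' : Fin (n + 1) → K) (i : Fin (n + 1)) (U U' W : Fin (n + 1) → K) :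
    Bh V b e ξ ξ' i (U + U') W = Bh V b e ξ ξ' i U W + Bh V b e ξ ξ' i U' W := by
  unfold Bh
  rw [th_add, EE_add]
  ring

theorem Bh_smul_left (ξ ξ' : Fin (n + 1) → K) (i : Fin (n + 1)) (c : K) (U W : Fin (n + 1) → K) :
    Bh V b e ξ ξ' i (c • U) W = c * Bh V b e ξ ξ' i U W := by
  unfold Bh
  rw [th_smul, EE_smul]
  ring

theorem Bh_add_right (ξ ξ' : Fin (n + 1) → K) (i : Fin (n + 1)) (U W W' : Fin (n + 1) → K) :
    Bh V b e ξ ξ' i U (W + W') = Bh V b e ξ ξ' i U W + Bh V b e ξ ξ' i U W' := by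
  unfold Bh
  rw [th_add, Pi.add_apply]
  ring

theorem Bh_smul_right (ξ ξ' : Fin (n + 1) → K) (i : Fin (n + 1)) (c : K)
    (U W : Fin (n + 1) → K) : Bh V b e ξ ξ' i U (c • W) = c * Bh V b e ξ ξ' i U W := by
  unfold Bh
  rw [th_smul, Pi.smul_apply, smul_eq_mul]
  ring

private lemma expand {f : (Fin (n + 1) → K) → K} (hadd : ∀ U U', f (U + U') = f U + f U')
    (hsmul : ∀ (c : K) U, f (c • U) = c * f U) (U : Fin (n + 1) → K) :
    f U = ∑ l, U l * f (Pi.single l 1) := by
  set F : (Fin (n + 1) → K) →ₗ[K] K :=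
    { toFun := f
      map_add' := hadd
      map_smul' := fun c U => by rw [hsmul, RingHom.id_apply, smul_eq_mul] } with hF
  have h := LinearMap.pi_apply_eq_sum_univ F U
  have h1 : ∀ x, F x = f x := fun _ => rfl
  rw [h1] at h
  rw [h]
  refine Finset.sum_congr rfl fun l _ => ?_
  rw [smul_eq_mul, h1]
  congr 2
  ext i
  by_cases hil : i = l
  · subst hil
    simp
  · rw [Pi.single_eq_of_ne hil, if_neg fun h => hil h.symm]

/-- a linear form is the sum of its values on the unit vectors -/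
theorem th_expand (ξ : Fin (n + 1) → K) (i : Fin (n + 1)) (U : Fin (n + 1) → K) :
    th V b e ξ i U = ∑ l, U l * th V b e ξ i (Pi.single l 1) :=
  expand (th_add V b e ξ i) (th_smul V b e ξ i) U

theorem Bh_expand_left (ξ ξ' : Fin (n + 1) → K) (i : Fin (n + 1)) (U W : Fin (n + 1) → K) :
    Bh V b e ξ ξ' i U W = ∑ l, U l * Bh V b e ξ ξ' i (Pi.single l 1) W :=
  expand (f := fun U => Bh V b e ξ ξ' i U W) (fun U U' => Bh_add_left V b e ξ ξ' i U U' W)
    (fun c U => Bh_smul_left V b e ξ ξ' i c U W) U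

theorem Bh_expand_right (ξ ξ' : Fin (n + 1) → K) (i : Fin (n + 1)) (U W : Fin (n + 1) → K) :
    Bh V b e ξ ξ' i U W = ∑ l, W l * Bh V b e ξ ξ' i U (Pi.single l 1) :=
  expand (f := fun W => Bh V b e ξ ξ' i U W) (fun W W' => Bh_add_right V b e ξ ξ' i U W W')
    (fun c W => Bh_smul_right V b e ξ ξ' i c U W) W

/-- the factor `θ_i(ξ)` vanishes -/
theorem Bh_self_right (ξ ξ' : Fin (n + 1) → K) (hξ' : ξ' 0 = 1) (i : Fin (n + 1))
    (U : Fin (n + 1) → K) :
    Bh V b e ξ ξ' i U ξ' = th V b e ξ i U * (EE V e (b i) ξ' * ξ' i) := by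
  unfold Bh
  rw [th_self V b e ξ' hξ', mul_zero, add_zero]

theorem Bh_self_left (ξ ξ' : Fin (n + 1) → K) (hξ : ξ 0 = 1) (i : Fin (n + 1))
    (W : Fin (n + 1) → K) :
    Bh V b e ξ ξ' i ξ W = ξ i * EE V e (b i) ξ * th V b e ξ' i W := by
  unfold Bh
  rw [th_self V b e ξ hξ, zero_mul, zero_add]

variable {K' : Type*} [CommRing K'] (f : K →+* K')

private lemma map_ph (s : Fin r) (U : Fin (n + 1) → K) :
    f (ph V s U) = ph (fun s l => f (V s l)) s (fun l => f (U l)) := by
  simp only [ph, map_sum, map_mul]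

theorem map_EE (s : Fin r) (U : Fin (n + 1) → K) :
    f (EE V e s U) = EE (fun s l => f (V s l)) (f e) s (fun l => f (U l)) := by
  simp only [EE, map_add, map_mul, map_ph]

theorem map_th (ξ : Fin (n + 1) → K) (i : Fin (n + 1)) (U : Fin (n + 1) → K) :
    f (th V b e ξ i U) =
      th (fun s l => f (V s l)) b (f e) (fun l => f (ξ l)) i (fun l => f (U l)) := by
  unfold th
  split_ifs <;> simp only [map_sub, map_mul, map_ph, map_EE]

theorem map_Bh (ξ ξ' : Fin (n + 1) → K) (i : Fin (n + 1)) (U W : Fin (n + 1) → K) :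
    f (Bh V b e ξ ξ' i U W) = Bh (fun s l => f (V s l)) b (f e) (fun l => f (ξ l))
      (fun l => f (ξ' l)) i (fun l => f (U l)) (fun l => f (W l)) := by
  unfold Bh
  simp only [map_add, map_mul, map_EE, map_th]

theorem exists_pt {k : Type*} [Field k] {V : Fin r → Fin (n + 1) → k} {e : k} (he : e ≠ 0)
    {z : Ix n r → k} (hz : InL V z) : ∃ U, z = pt V e U ∧ U 0 = z (Sum.inl 0) := by
  refine ⟨fun i => if i = 0 then z (Sum.inl 0) else z (Sum.inl i) / e, ?_, by simp⟩
  have h1 : ∀ i, z (Sum.inl i) = pt V e (fun i => if i = 0 then z (Sum.inl 0) else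
      z (Sum.inl i) / e) (Sum.inl i) := by
    intro i
    by_cases hi : i = 0
    · subst hi
      simp [pt]
    · simp only [pt, Sum.elim_inl, if_neg hi]
      field_simp
  funext j
  rcases j with i | s
  · exact h1 i
  · rw [hz s, pt_inL V e _ s]
    exact Finset.sum_congr rfl fun l _ => by rw [← h1 l]

end Forms

end Pool.Agent.VGen
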