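import Pool.Agent.VGen.Defs

/-!
# Choice of coordinates
-/

set_option autoImplicit false

noncomputable section

namespace Pool.Agent.VGen

open Pool.Agent.ZCyc Polynomial

universe u

variable {k : Type u} [Field k] {J : Type} [Fintype J] [DecidableEq J] {n r : ℕ}

open Classical in
private lemma exists_equiv {σ : Fin r → J} (hσ : Function.Injective σ)
    (hJ : Fintype.card J = n + r + 1) :
    ∃ e : Ix n r ≃ J, ∀ s, e (Sum.inr s) = σ s := by
  have hc : Fintype.card {j // ¬ j ∈ Set.range σ} = n + 1 := by
    have h1 : Fintype.card {j // j ∈ Set.range σ} = r := by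
      rw [← Fintype.card_congr (Equiv.ofInjective σ hσ), Fintype.card_fin]
    have h2 := Fintype.card_subtype_compl (fun j => j ∈ Set.range σ)
    rw [h1, hJ] at h2
    rw [h2]
    omega
  let e2 : Fin (n + 1) ≃ {j // ¬ j ∈ Set.range σ} := (Fintype.equivFinOfCardEq hc).symm
  refine ⟨(Equiv.sumComm _ _).trans ((Equiv.sumCongr (Equiv.ofInjective σ hσ) e2).trans
    (Equiv.sumCompl _)), fun s => ?_⟩
  simp

/-- the block of the free coordinate `i` is `B (e (inl i))` -/
theorem exists_frame {c : Fin r → J → k} (hc : ∀ f : Fin r → J, Function.Injective f →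
      (Matrix.of fun i s => c i (f s)).det ≠ 0) (hJ : Fintype.card J = n + r + 1)
    {B : J → Fin r} (hB : Function.Surjective B) :
    ∃ (e : Ix n r ≃ J) (V : Fin r → Fin (n + 1) → k), (∀ s, B (e (Sum.inr s)) = s) ∧
      (∀ s l, V s l ≠ 0) ∧
      (∀ i l, c i (e (Sum.inl l)) + ∑ s, c i (e (Sum.inr s)) * V s l = 0) ∧
      ∀ z : Ix n r → k, (∀ i, ∑ j, c i j * z (e.symm j) = 0) → InL V z := by
  choose σ hσ using hB
  have hσi : Function.Injective σ := fun s t h => by rw [← hσ s, ← hσ t, h]
  obtain ⟨e, he⟩ := exists_equiv (n := n) hσi hJ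
  set M : Matrix (Fin r) (Fin r) k := Matrix.of fun i s => c i (σ s) with hM
  have hdet : M.det ≠ 0 := hc σ hσi
  have hu : IsUnit M.det := isUnit_iff_ne_zero.mpr hdet
  let w : Fin (n + 1) → Fin r → k := fun l i => c i (e (Sum.inl l))
  let V : Fin r → Fin (n + 1) → k := fun s l => -(M⁻¹.mulVec (w l)) s
  have hMV : ∀ l, M.mulVec (fun s => V s l) = -w l := by
    intro l
    have : (fun s => V s l) = -(M⁻¹.mulVec (w l)) := rfl
    rw [this, Matrix.mulVec_neg, Matrix.mulVec_mulVec, Matrix.mul_nonsing_inv _ hu,
      Matrix.one_mulVec]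
  refine ⟨e, V, fun s => by rw [he, hσ], ?_, ?_, ?_⟩
  · intro s l h
    have h1 : (M⁻¹.mulVec (w l)) s = 0 := by
      have : -(M⁻¹.mulVec (w l)) s = 0 := h
      exact neg_eq_zero.mp this
    have h2 : M.cramer (w l) s = 0 := by
      have h3 : M.cramer (w l) = M.det • M⁻¹.mulVec (w l) := by
        have h4 := Matrix.mulVec_cramer M (w l)
        calc M.cramer (w l) = M⁻¹.mulVec (M.mulVec (M.cramer (w l))) := by
              rw [Matrix.mulVec_mulVec, Matrix.nonsing_inv_mul _ hu, Matrix.one_mulVec]
          _ = M.det • M⁻¹.mulVec (w l) := by rw [h4, Matrix.mulVec_smul]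
      rw [h3, Pi.smul_apply, h1, smul_zero]
    rw [Matrix.cramer_apply] at h2
    have hne : ∀ t, e (Sum.inl l) ≠ σ t := by
      intro t ht
      rw [← he t] at ht
      have := e.injective ht
      simp at this
    have hf : Function.Injective (Function.update σ s (e (Sum.inl l))) := by
      intro a b hab
      by_cases ha : a = s
      · by_cases hb : b = s
        · rw [ha, hb]
        · rw [ha, Function.update_self, Function.update_of_ne hb] at hab
          exact absurd hab (hne b)
      · by_cases hb : b = s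
        · rw [hb, Function.update_self, Function.update_of_ne ha] at hab
          exact absurd hab.symm (hne a)
        · rw [Function.update_of_ne ha, Function.update_of_ne hb] at hab
          exact hσi hab
    refine hc _ hf ?_
    rw [← h2]
    congr 1
    ext i t
    by_cases ht : t = s
    · subst ht
      simp [w, Matrix.updateCol_self]
    · simp [Function.update_of_ne ht, Matrix.updateCol_ne ht, hM]
  · intro i l
    have h1 := congrFun (hMV l) i
    simp only [Matrix.mulVec, dotProduct, Pi.neg_apply] at h1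
    have h2 : ∑ s, c i (e (Sum.inr s)) * V s l = ∑ s, M i s * V s l :=
      Finset.sum_congr rfl fun s _ => by rw [he]; rfl
    rw [h2, h1]
    simp [w]
  · intro z hz s
    have h1 : M.mulVec (fun s => z (Sum.inr s)) = ∑ l, z (Sum.inl l) • -w l := by
      ext i
      have h2 : ∑ x : Ix n r, c i (e x) * z x = 0 := by
        rw [← hz i, ← Equiv.sum_comp e]
        simp
      rw [Fintype.sum_sum_type] at h2
      simp only [Matrix.mulVec, dotProduct, Finset.sum_apply, Pi.smul_apply, Pi.neg_apply,
        smul_eq_mul]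
      have h3 : ∑ s, M i s * z (Sum.inr s) = ∑ s, c i (e (Sum.inr s)) * z (Sum.inr s) :=
        Finset.sum_congr rfl fun s _ => by rw [he]; rfl
      rw [h3]
      have h4 : ∑ l, z (Sum.inl l) * -w l i = -∑ l, c i (e (Sum.inl l)) * z (Sum.inl l) := by
        rw [← Finset.sum_neg_distrib]
        exact Finset.sum_congr rfl fun l _ => by simp only [w]; ring
      rw [h4]
      linear_combination h2
    have h5 : (fun s => z (Sum.inr s)) = ∑ l, z (Sum.inl l) • fun s => V s l := by
      have h6 := congrArg (M⁻¹.mulVec) h1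
      rw [Matrix.mulVec_mulVec, Matrix.nonsing_inv_mul _ hu, Matrix.one_mulVec] at h6
      rw [h6, Matrix.mulVec_sum]
      refine Finset.sum_congr rfl fun l _ => ?_
      rw [Matrix.mulVec_smul, Matrix.mulVec_neg]
      rfl
    have h7 := congrFun h5 s
    simp only [Finset.sum_apply, Pi.smul_apply, smul_eq_mul] at h7
    rw [h7]
    exact Finset.sum_congr rfl fun l _ => mul_comm _ _

end Pool.Agent.VGen
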