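import Pool.Agent.VGen.Defs

/-!
# Linear algebra over `k[X]`
-/

set_option autoImplicit false

noncomputable section

namespace Pool.Agent.VGen

open Pool.Agent.ZCyc Polynomial

universe u

section Lin

variable {k : Type u} [Field k] {ι : Type} [Fintype ι] [DecidableEq ι]

omit [DecidableEq ι] in
private lemma exists_ker_aux (M : Matrix ι ι k[X]) (n : ℕ) : ∀ v : ι → k[X], v ≠ 0 →
    M.mulVec v = 0 → ∑ i, (v i).natDegree ≤ n →
    ∃ v : ι → k[X], M.mulVec v = 0 ∧ (fun i => (v i).eval 0) ≠ 0 := by
  induction n with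
  | zero =>
    intro v hv hM hn
    refine ⟨v, hM, fun h => hv ?_⟩
    funext i
    have h0 : (v i).natDegree = 0 := by
      have hle : (v i).natDegree ≤ ∑ i, (v i).natDegree :=
        Finset.single_le_sum (f := fun i => (v i).natDegree) (fun _ _ => Nat.zero_le _)
          (Finset.mem_univ i)
      omega
    have h1 := congrFun h i
    rw [eq_C_of_natDegree_eq_zero h0] at h1 ⊢
    simpa using h1
  | succ n ih =>
    intro v hv hM hn
    by_cases h : (fun i => (v i).eval 0) = 0
    · have hX : ∀ i, (v i).divX * X = v i := by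
        intro i
        have h1 := congrFun h i
        have h2 := divX_mul_X_add (v i)
        have h3 : (v i).coeff 0 = 0 := by rw [coeff_zero_eq_eval_zero]; exact h1
        rw [h3] at h2
        simpa using h2
      have hw : v = (X : k[X]) • fun i => (v i).divX := by
        funext i
        simp only [Pi.smul_apply, smul_eq_mul]
        rw [mul_comm]
        exact (hX i).symm
      refine ih (fun i => (v i).divX) ?_ ?_ ?_
      · intro h0
        apply hv
        rw [hw, h0, smul_zero]
      · rw [hw, Matrix.mulVec_smul] at hM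
        exact (smul_eq_zero.mp hM).resolve_left X_ne_zero
      · obtain ⟨i, hi⟩ : ∃ i, v i ≠ 0 := by
          by_contra hc
          exact hv (funext fun i => by
            by_contra h1
            exact hc ⟨i, h1⟩)
        have hlt : ∑ i, ((v i).divX).natDegree < ∑ i, (v i).natDegree := by
          refine Finset.sum_lt_sum (fun j _ => ?_) ⟨i, Finset.mem_univ i, ?_⟩
          · rw [natDegree_divX_eq_natDegree_tsub_one]; omega
          · have hi' : (v i).divX ≠ 0 := by
              intro h0
              apply hi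
              rw [← hX i, h0, zero_mul]
            have h4 : (v i).natDegree = ((v i).divX).natDegree + 1 := by
              conv_lhs => rw [← hX i]
              exact natDegree_mul_X hi'
            omega
        omega
    · exact ⟨v, hM, h⟩

theorem exists_ker_eval (M : Matrix ι ι k[X]) (hM : M.det = 0) :
    ∃ v : ι → k[X], M.mulVec v = 0 ∧ (fun i => (v i).eval 0) ≠ 0 := by
  obtain ⟨v, hv, hMv⟩ := Matrix.exists_mulVec_eq_zero_iff.mpr hM
  exact exists_ker_aux M _ v hv hMv le_rfl

omit [Fintype ι] [DecidableEq ι] in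
private lemma eval_const (f : (ι → k[X]) →ₗ[k[X]] (ι → k[X])) (v : ι → k[X]) (i : ι) :
    (f (fun j => C ((v j).eval 0)) i).eval 0 = (f v i).eval 0 := by
  have h : v = (fun j => C ((v j).eval 0)) + (X : k[X]) • fun j => (v j).divX := by
    funext j
    simp only [Pi.add_apply, Pi.smul_apply, smul_eq_mul]
    rw [← coeff_zero_eq_eval_zero, mul_comm, add_comm]
    exact (divX_mul_X_add (v j)).symm
  conv_rhs => rw [h]
  rw [map_add, map_smul]
  simp

theorem lin_ker (f : (ι → k[X]) →ₗ[k[X]] (ι → k[X])) {ν : ι → k[X]} (hν : ν ≠ 0)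
    (hf : ∀ v, ∑ i, ν i * f v i = 0) {v₀ : ι → k} (hker : ∀ v : ι → k,
      (∀ i, (f (fun j => C (v j)) i).eval 0 = 0) → ∃ c, ∀ j, v j = c * v₀ j) :
    ∃ u : ι → k[X], f u = 0 ∧ ∀ j, (u j).eval 0 = v₀ j := by
  have hdet : (LinearMap.toMatrix' f).det = 0 := by
    refine Matrix.exists_vecMul_eq_zero_iff.mp ⟨ν, hν, ?_⟩
    funext j
    have h := hf (Pi.single j 1)
    simp only [Matrix.vecMul, dotProduct, LinearMap.toMatrix'_apply, Pi.zero_apply]
    convert h using 3
  obtain ⟨v, hv, hne⟩ := exists_ker_eval _ hdet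
  rw [LinearMap.toMatrix'_mulVec] at hv
  obtain ⟨c, hc⟩ := hker (fun j => (v j).eval 0) (fun i => by
    rw [eval_const f v i, hv]; simp)
  have hc0 : c ≠ 0 := by
    intro h0
    apply hne
    funext j
    rw [hc j, h0, zero_mul]
    rfl
  refine ⟨(C c⁻¹ : k[X]) • v, ?_, fun j => ?_⟩
  · rw [map_smul, hv, smul_zero]
  · simp only [Pi.smul_apply, smul_eq_mul, eval_mul, eval_C]
    rw [hc j, ← mul_assoc, inv_mul_cancel₀ hc0, one_mul]

theorem eventually_eval_ne {f : k[X]} (h : f.eval 0 ≠ 0) :
    ∀ᶠ e in Filter.cofinite, f.eval e ≠ 0 := by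
  have hf : f ≠ 0 := by
    rintro rfl
    simp at h
  exact (finite_setOfPred_isRoot hf).eventually_cofinite_notMem

private lemma eval_f (f : (ι → k[X]) →ₗ[k[X]] (ι → k[X])) (e : k) (v : ι → k) (i : ι) :
    (f (fun j => C (v j)) i).eval e =
      (((LinearMap.toMatrix' f).map (evalRingHom e)).mulVec v) i := by
  rw [← LinearMap.toMatrix'_mulVec f]
  simp only [Matrix.mulVec, dotProduct, Matrix.map_apply, coe_evalRingHom]
  rw [eval_finsetSum]
  refine Finset.sum_congr rfl fun j _ => ?_
  rw [eval_mul, eval_C]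

theorem lin_inj (f : (ι → k[X]) →ₗ[k[X]] (ι → k[X])) (h : ∀ v : ι → k,
      (∀ i, (f (fun j => C (v j)) i).eval 0 = 0) → v = 0) :
    ∀ᶠ e in Filter.cofinite, ∀ v : ι → k, (∀ i, (f (fun j => C (v j)) i).eval e = 0) → v = 0 := by
  have hd : ((LinearMap.toMatrix' f).det).eval 0 ≠ 0 := by
    intro h0
    have h1 : ((LinearMap.toMatrix' f).map (evalRingHom (0 : k))).det = 0 := by
      rw [← RingHom.mapMatrix_apply, ← RingHom.map_det]
      exact h0
    obtain ⟨v, hv, hMv⟩ := Matrix.exists_mulVec_eq_zero_iff.mpr h1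
    apply hv
    apply h
    intro i
    rw [eval_f, hMv]
    rfl
  filter_upwards [eventually_eval_ne hd] with e he v hv
  by_contra hne
  apply he
  have h1 : ((LinearMap.toMatrix' f).map (evalRingHom e)).det = 0 := by
    refine Matrix.exists_mulVec_eq_zero_iff.mp ⟨v, hne, ?_⟩
    funext i
    rw [← eval_f]
    exact hv i
  rw [← RingHom.mapMatrix_apply, ← RingHom.map_det] at h1
  exact h1

end Lin

end Pool.Agent.VGen
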