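import Pool.Agent.VGen.SysDefs
import Pool.Agent.VGen.Lin
import Pool.Agent.VGen.Forms

/-!
# The kernel vector `lam`
-/

set_option autoImplicit false

noncomputable section

namespace Pool.Agent.VGen

open Polynomial

universe u

variable {k : Type u} [Field k] {n r : ℕ} {V : Fin r → Fin (n + 1) → k}
  {b : Fin (n + 1) → Fin r} {ξ ξ' : Fin (n + 1) → k}

private theorem evalBX (e : k) (i : Fin (n + 1)) (U W : Fin (n + 1) → k[X]) :
    (BX V b ξ ξ' i U W).eval e =
      Bh V b e ξ ξ' i (fun l => (U l).eval e) (fun l => (W l).eval e) := by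
  have h := map_Bh (CV V) b X (Polynomial.evalRingHom e) (Cx ξ) (Cx ξ') i U W
  simpa [BX, CV, Cx] using h

private theorem EE_zero (s : Fin r) (U : Fin (n + 1) → k) : EE V 0 s U = V s 0 * U 0 := by
  simp [EE]

private theorem ph_single (s : Fin r) (l : Fin (n + 1)) (hl : l ≠ 0) :
    ph V s (Pi.single l 1) = V s l := by
  obtain ⟨m, rfl⟩ := Fin.exists_succ_eq.mpr hl
  unfold ph
  rw [Finset.sum_eq_single m]
  · simp
  · intro i _ hi
    simp [hi]
  · simp

/-- V8 SysL.lean -/
theorem sysL (hξ : ξ 0 = 1) (hξ' : ξ' 0 = 1) (hne : ∀ i, ξ i ≠ 0) (hne' : ∀ i, ξ' i ≠ 0)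
    (hV : ∀ s l, V s l ≠ 0) :
    ∃ lam : Fin (n + 1) → k[X], (∀ U, ∑ i, lam i * BX V b ξ ξ' i U (Cx ξ') = 0) ∧
      ∀ i, (lam i).eval 0 = lam0 V b ξ' i := by
  have hcξ : (Cx ξ : Fin (n + 1) → k[X]) 0 = 1 := by simp [Cx, hξ]
  have hcξ' : (Cx ξ' : Fin (n + 1) → k[X]) 0 = 1 := by simp [Cx, hξ']
  let f : (Fin (n + 1) → k[X]) →ₗ[k[X]] (Fin (n + 1) → k[X]) :=
    { toFun := fun v l => ∑ i, v i * BX V b ξ ξ' i (Pi.single l 1) (Cx ξ')
      map_add' := by
        intro v w
        funext l
        simp [add_mul, Finset.sum_add_distrib]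
      map_smul' := by
        intro c v
        funext l
        simp [Finset.mul_sum, mul_assoc] }
  have hf : ∀ v l, f v l = ∑ i, v i * BX V b ξ ξ' i (Pi.single l 1) (Cx ξ') := fun _ _ => rfl
  have hsum : ∀ (v U : Fin (n + 1) → k[X]), ∑ l, U l * f v l =
      ∑ i, v i * BX V b ξ ξ' i U (Cx ξ') := by
    intro v U
    simp only [hf, Finset.mul_sum]
    rw [Finset.sum_comm]
    refine Finset.sum_congr rfl fun i _ => ?_
    have h := Bh_expand_left (CV V) b X (Cx ξ) (Cx ξ') i U (Cx ξ')
    rw [show BX V b ξ ξ' i U (Cx ξ') = Bh (CV V) b X (Cx ξ) (Cx ξ') i U (Cx ξ') from rfl, h,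
      Finset.mul_sum]
    refine Finset.sum_congr rfl fun l _ => ?_
    change U l * (v i * Bh (CV V) b X (Cx ξ) (Cx ξ') i (Pi.single l 1) (Cx ξ')) = _
    ring
  have hν : (Cx ξ : Fin (n + 1) → k[X]) ≠ 0 := by
    intro h
    have := congrFun h 0
    rw [hcξ] at this
    simp at this
  obtain ⟨u, hu, hu0⟩ := lin_ker (ν := Cx ξ) (v₀ := lam0 V b ξ') f hν
    (by
      intro v
      rw [hsum v (Cx ξ)]
      refine Finset.sum_eq_zero fun i _ => ?_
      have h := Bh_self_left (CV V) b X (Cx ξ) (Cx ξ') hcξ i (Cx ξ')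
      rw [show BX V b ξ ξ' i (Cx ξ) (Cx ξ') = Bh (CV V) b X (Cx ξ) (Cx ξ') i (Cx ξ) (Cx ξ')
        from rfl, h, th_self _ _ _ _ hcξ']
      ring)
    (by
      intro v hv
      refine ⟨v 0, fun j => ?_⟩
      by_cases hj : j = 0
      · subst hj
        simp [lam0]
      · have h := hv j
        rw [hf, Polynomial.eval_finsetSum] at h
        have h2 : ∀ i, (C (v i) * BX V b ξ ξ' i (Pi.single j 1) (Cx ξ')).eval 0 =
            v i * (th V b 0 ξ i (Pi.single j 1) * (V (b i) 0 * ξ' i)) := by
          intro i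
          rw [Polynomial.eval_mul, Polynomial.eval_C, evalBX]
          have e1 : (fun l => ((Pi.single j 1 : Fin (n + 1) → k[X]) l).eval 0) =
              (Pi.single j 1 : Fin (n + 1) → k) := by
            funext l
            by_cases hl : l = j
            · subst hl; simp
            · simp [hl]
          have e2 : (fun l => ((Cx ξ' : Fin (n + 1) → k[X]) l).eval 0) = ξ' := by
            funext l
            simp [Cx]
          rw [e1, e2, Bh_self_right _ _ _ _ _ hξ', EE_zero, hξ', mul_one]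
        simp only [h2] at h
        have hj0 : (Pi.single j 1 : Fin (n + 1) → k) 0 = 0 := by
          simp [Ne.symm hj]
        rw [Fintype.sum_eq_add 0 j (Ne.symm hj)] at h
        · have t0 : th V b 0 ξ 0 (Pi.single j 1) = - V (b 0) j := by
            simp [th, hj0, ph_single _ _ hj]
          have tj : th V b 0 ξ j (Pi.single j 1) = V (b j) 0 := by
            simp [th, hj, EE_zero, hξ]
          rw [t0, tj, hξ'] at h
          have hb := hV (b j) 0
          have hx := hne' j
          rw [lam0, if_neg hj]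
          field_simp
          linear_combination h
        · rintro i ⟨hi0, hij⟩
          have : th V b 0 ξ i (Pi.single j 1) = 0 := by
            simp [th, hi0, EE_zero, hj0, hij]
          rw [this]
          ring)
  refine ⟨u, fun U => ?_, hu0⟩
  rw [← hsum u U, hu]
  simp

end Pool.Agent.VGen
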