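import Pool.Agent.VGen.SysDefs
import Pool.Agent.VGen.Lin
import Pool.Agent.VGen.Forms

/-!
# The kernel vector `W`
-/

set_option autoImplicit false

noncomputable section

namespace Pool.Agent.VGen

open Polynomial

universe u

variable {k : Type u} [Field k] {n r : ℕ} {V : Fin r → Fin (n + 1) → k}
  {b : Fin (n + 1) → Fin r} {ξ ξ' : Fin (n + 1) → k}

private theorem evalBX' (e : k) (i : Fin (n + 1)) (U W : Fin (n + 1) → k[X]) :
    (BX V b ξ ξ' i U W).eval e =
      Bh V b e ξ ξ' i (fun l => (U l).eval e) (fun l => (W l).eval e) := by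
  have h := map_Bh (CV V) b X (Polynomial.evalRingHom e) (Cx ξ) (Cx ξ') i U W
  simpa [BX, CV, Cx] using h

private theorem evalthX' (e : k) (i : Fin (n + 1)) (U : Fin (n + 1) → k[X]) :
    (thX V b ξ' i U).eval e = th V b e ξ' i (fun l => (U l).eval e) := by
  have h := map_th (CV V) b X (Polynomial.evalRingHom e) (Cx ξ') i U
  simpa [thX, CV, Cx] using h

private theorem EE_zero' (s : Fin r) (U : Fin (n + 1) → k) : EE V 0 s U = V s 0 * U 0 := by
  simp [EE]

private theorem th_zero' (hξ' : ξ' 0 = 1) {i : Fin (n + 1)} (hi : i ≠ 0)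
    (U : Fin (n + 1) → k) : th V b 0 ξ' i U = V (b i) 0 * (U i - ξ' i * U 0) := by
  simp only [th, if_neg hi, EE_zero', hξ']
  ring

/-- V10 SysW.lean -/
theorem sysW (hξ : ξ 0 = 1) (hξ' : ξ' 0 = 1) (hne : ∀ i, ξ i ≠ 0) (hne' : ∀ i, ξ' i ≠ 0)
    (hV : ∀ s l, V s l ≠ 0) {lam : Fin (n + 1) → k[X]}
    (hlam0 : ∀ i, (lam i).eval 0 = lam0 V b ξ' i) {P : Finset (Fin (n + 1))}
    (hP : (0 : Fin (n + 1)) ∉ P) {U σ : Fin (n + 1) → k[X]}
    (hU : ∀ W, ∑ i with i ∉ P, lam i * BX V b ξ ξ' i U W = ∑ i ∈ P, σ i * thX V b ξ' i W)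
    (hU0 : ∀ i, (U i).eval 0 = if i ∈ P then ξ i else ξ' i) :
    ∃ W : Fin (n + 1) → k[X], (∀ i ∈ P, thX V b ξ' i W = 0) ∧
      (∀ i ∉ P, BX V b ξ ξ' i U W = 0) ∧
      ∀ i, (W i).eval 0 = if i ∈ P then ξ' i else ξ i := by
  classical
  let f : (Fin (n + 1) → k[X]) →ₗ[k[X]] (Fin (n + 1) → k[X]) :=
    { toFun := fun W i => if i ∈ P then thX V b ξ' i W else BX V b ξ ξ' i U W
      map_add' := by
        intro v w
        funext i
        by_cases hi : i ∈ P
        · simp only [if_pos hi, Pi.add_apply]
          exact th_add _ _ _ _ _ _ _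
        · simp only [if_neg hi, Pi.add_apply]
          exact Bh_add_right _ _ _ _ _ _ _ _ _
      map_smul' := by
        intro c v
        funext i
        by_cases hi : i ∈ P
        · simp only [if_pos hi, Pi.smul_apply, smul_eq_mul, RingHom.id_apply]
          exact th_smul _ _ _ _ _ _ _
        · simp only [if_neg hi, Pi.smul_apply, smul_eq_mul, RingHom.id_apply]
          exact Bh_smul_right _ _ _ _ _ _ _ _ _ }
  have hf : ∀ W i, f W i = if i ∈ P then thX V b ξ' i W else BX V b ξ ξ' i U W :=
    fun _ _ => rfl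
  obtain ⟨W, hW, hW0⟩ := lin_ker (ν := fun i => if i ∈ P then - σ i else lam i)
    (v₀ := fun i => if i ∈ P then ξ' i else ξ i) f
    (by
      intro h
      have h0 := congrFun h 0
      simp only [if_neg hP, Pi.zero_apply] at h0
      have h1 := hlam0 0
      rw [h0] at h1
      simp [lam0] at h1)
    (by
      intro W
      have h := hU W
      rw [← Finset.sum_filter_add_sum_filter_not Finset.univ (fun i => i ∈ P)]
      have e1 : ∑ i with i ∈ P, (if i ∈ P then - σ i else lam i) * f W i =
          - ∑ i ∈ P, σ i * thX V b ξ' i W := by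
        rw [← Finset.sum_neg_distrib]
        have : (Finset.univ.filter fun i => i ∈ P) = P := by
          ext i; simp
        rw [this]
        refine Finset.sum_congr rfl fun i hi => ?_
        rw [hf, if_pos hi, if_pos hi]
        ring
      have e2 : ∑ i with i ∉ P, (if i ∈ P then - σ i else lam i) * f W i =
          ∑ i with i ∉ P, lam i * BX V b ξ ξ' i U W := by
        refine Finset.sum_congr rfl fun i hi => ?_
        rw [Finset.mem_filter] at hi
        rw [hf, if_neg hi.2, if_neg hi.2]
      rw [e1, e2, h]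
      ring)
    (by
      intro v hv
      refine ⟨v 0, fun j => ?_⟩
      have hcv : (fun l => (C (v l) : k[X]).eval 0) = v := by
        funext l
        simp
      by_cases hj0 : j = 0
      · subst hj0
        simp [hP, hξ]
      · have h := hv j
        rw [hf] at h
        by_cases hj : j ∈ P
        · rw [if_pos hj, evalthX', hcv, th_zero' hξ' hj0] at h
          rw [if_pos hj]
          have := (mul_eq_zero.mp h).resolve_left (hV _ _)
          linear_combination this
        · rw [if_neg hj, evalBX', hcv] at h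
          have hU' : (fun l => (U l).eval 0) = fun i => if i ∈ P then ξ i else ξ' i := by
            funext l
            exact hU0 l
          rw [hU', Bh, th_zero' hξ hj0, th_zero' hξ' hj0, EE_zero', EE_zero'] at h
          simp only [if_neg hj, if_neg hP, hξ', mul_one] at h
          rw [if_neg hj]
          have h2 : V (b j) 0 ^ 2 * ξ' j * (v j - v 0 * ξ j) = 0 := by
            linear_combination h
          rcases mul_eq_zero.mp h2 with h3 | h3
          · exact absurd h3 (mul_ne_zero (pow_ne_zero _ (hV _ _)) (hne' j))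
          · linear_combination h3)
  refine ⟨W, fun i hi => ?_, fun i hi => ?_, hW0⟩
  · have := congrFun hW i
    rw [hf, if_pos hi] at this
    exact this
  · have := congrFun hW i
    rw [hf, if_neg hi] at this
    exact this

end Pool.Agent.VGen
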