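import Pool.Agent.VGen.SysDefs
import Pool.Agent.VGen.Lin
import Pool.Agent.VGen.Forms

/-!
# The kernel vector `(U, σ)`
-/

set_option autoImplicit false

noncomputable section

namespace Pool.Agent.VGen
open Pool.Agent.ZCyc Polynomial
section SysY
universe u

variable {k : Type u} [Field k] {n r : ℕ} {V : Fin r → Fin (n + 1) → k}
  {b : Fin (n + 1) → Fin r} {ξ ξ' : Fin (n + 1) → k}

/-- value at `0` of `thX` -/
private theorem eval_thX (i : Fin (n + 1)) (u : Fin (n + 1) → k) :
    (thX V b ξ i (fun l => C (u l))).eval 0 = th V b 0 ξ i u := by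
  have h := map_th (CV V) b X (Polynomial.evalRingHom (0 : k)) (Cx ξ) i (fun l => C (u l))
  simpa [thX, CV, Cx] using h

private theorem eval_thX_single (i l : Fin (n + 1)) :
    (thX V b ξ i (Pi.single l 1)).eval 0 = th V b 0 ξ i (Pi.single l 1) := by
  have : (Pi.single l (1 : k[X]) : Fin (n + 1) → k[X])
      = fun j => C ((Pi.single l (1 : k) : Fin (n + 1) → k) j) := by
    funext j
    by_cases hj : j = l
    · subst hj; simp
    · simp [hj]
  rw [this, eval_thX]

private theorem eval_BX_single (i l : Fin (n + 1)) (u : Fin (n + 1) → k) :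
    (BX V b ξ ξ' i (fun l => C (u l)) (Pi.single l 1)).eval 0
      = Bh V b 0 ξ ξ' i u (Pi.single l 1) := by
  have : (Pi.single l (1 : k[X]) : Fin (n + 1) → k[X])
      = fun j => C ((Pi.single l (1 : k) : Fin (n + 1) → k) j) := by
    funext j
    by_cases hj : j = l
    · subst hj; simp
    · simp [hj]
  rw [this]
  have h := map_Bh (CV V) b X (Polynomial.evalRingHom (0 : k)) (Cx ξ) (Cx ξ') i
    (fun l => C (u l)) (fun j => C ((Pi.single l (1 : k) : Fin (n + 1) → k) j))
  simpa [BX, CV, Cx] using h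

private theorem th0_succ {i : Fin (n + 1)} (hi : i ≠ 0) (hξ : ξ 0 = 1) (u : Fin (n + 1) → k) :
    th V b 0 ξ i u = V (b i) 0 * (u i - ξ i * u 0) := by
  simp only [th, hi, if_false, EE, zero_mul, add_zero, hξ]; ring

private theorem ph_single {s : Fin r} {l : Fin (n + 1)} (hl : l ≠ 0) :
    ph V s (Pi.single l 1) = V s l := by
  obtain ⟨j, rfl⟩ := Fin.exists_succ_eq.2 hl
  simp [ph, Pi.single_apply, Fin.succ_inj]

private theorem B0_zero {l : Fin (n + 1)} (hl : l ≠ 0) (hξ : ξ 0 = 1) (u : Fin (n + 1) → k) :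
    Bh V b 0 ξ ξ' 0 u (Pi.single l 1) = -(V (b 0) 0 * V (b 0) l * u 0) := by
  have h1 : (Pi.single l (1 : k) : Fin (n + 1) → k) 0 = 0 := by
    simp [Ne.symm hl]
  simp only [Bh, th, if_true, EE, zero_mul, add_zero, h1, mul_zero, zero_add, hξ, ph_single hl]
  ring

private theorem B0_succ {i l : Fin (n + 1)} (hi : i ≠ 0) (hl : l ≠ 0) (hξ : ξ 0 = 1)
    (hξ' : ξ' 0 = 1) (u : Fin (n + 1) → k) :
    Bh V b 0 ξ ξ' i u (Pi.single l 1) = if i = l then V (b i) 0 ^ 2 * u i else 0 := by
  have h1 : (Pi.single l (1 : k) : Fin (n + 1) → k) 0 = 0 := by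
    simp [Ne.symm hl]
  have h2 : (Pi.single l (1 : k) : Fin (n + 1) → k) i = if i = l then 1 else 0 := by
    simp [Pi.single_apply]
  simp only [Bh, th, hi, if_false, EE, zero_mul, add_zero, h1, mul_zero, hξ, hξ', h2]
  split_ifs <;> ring

/-- the system -/
private def fY (V : Fin r → Fin (n + 1) → k) (b : Fin (n + 1) → Fin r) (ξ ξ' : Fin (n + 1) → k)
    (lam : Fin (n + 1) → k[X]) (P : Finset (Fin (n + 1))) :
    (Fin (n + 1) ⊕ Fin (n + 1) → k[X]) →ₗ[k[X]] (Fin (n + 1) ⊕ Fin (n + 1) → k[X]) where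
  toFun v := Sum.elim
    (fun i => if i ∈ P then thX V b ξ i (fun j => v (Sum.inl j)) else v (Sum.inr i))
    (fun l => (∑ i with i ∉ P, lam i * BX V b ξ ξ' i (fun j => v (Sum.inl j)) (Pi.single l 1))
      - ∑ i ∈ P, v (Sum.inr i) * thX V b ξ' i (Pi.single l 1))
  map_add' v w := by
    funext i
    rcases i with i | l
    · simp only [Sum.elim_inl, Pi.add_apply]
      split_ifs
      · exact th_add (CV V) b X (Cx ξ) i _ _
      · rfl
    · simp only [Sum.elim_inr, Pi.add_apply]
      have h1 : ∀ i, BX V b ξ ξ' i (fun j => v (Sum.inl j) + w (Sum.inl j)) (Pi.single l 1)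
          = BX V b ξ ξ' i (fun j => v (Sum.inl j)) (Pi.single l 1)
            + BX V b ξ ξ' i (fun j => w (Sum.inl j)) (Pi.single l 1) := fun i =>
        Bh_add_left (CV V) b X (Cx ξ) (Cx ξ') i _ _ _
      simp only [h1, mul_add, add_mul, Finset.sum_add_distrib]
      ring
  map_smul' c v := by
    funext i
    rcases i with i | l
    · simp only [Sum.elim_inl, Pi.smul_apply, RingHom.id_apply, smul_eq_mul]
      split_ifs
      · exact th_smul (CV V) b X (Cx ξ) i c _
      · rfl
    · simp only [Sum.elim_inr, Pi.smul_apply, RingHom.id_apply, smul_eq_mul]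
      have h1 : ∀ i, BX V b ξ ξ' i (fun j => c * v (Sum.inl j)) (Pi.single l 1)
          = c * BX V b ξ ξ' i (fun j => v (Sum.inl j)) (Pi.single l 1) := fun i =>
        Bh_smul_left (CV V) b X (Cx ξ) (Cx ξ') i c _ _
      simp only [h1, mul_sub, Finset.mul_sum]
      congr 1
      · exact Finset.sum_congr rfl fun i _ => by ring
      · exact Finset.sum_congr rfl fun i _ => by ring

/-- V9 SysY.lean -/
theorem sysY (hξ : ξ 0 = 1) (hξ' : ξ' 0 = 1) (hne : ∀ i, ξ i ≠ 0) (hne' : ∀ i, ξ' i ≠ 0)
    (hV : ∀ s l, V s l ≠ 0) {lam : Fin (n + 1) → k[X]}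
    (hlam : ∀ U, ∑ i, lam i * BX V b ξ ξ' i U (Cx ξ') = 0)
    (hlam0 : ∀ i, (lam i).eval 0 = lam0 V b ξ' i) {P : Finset (Fin (n + 1))}
    (hP : (0 : Fin (n + 1)) ∉ P) :
    ∃ U σ : Fin (n + 1) → k[X], (∀ i ∈ P, thX V b ξ i U = 0) ∧
      (∀ W, ∑ i with i ∉ P, lam i * BX V b ξ ξ' i U W = ∑ i ∈ P, σ i * thX V b ξ' i W) ∧
      (∀ i, (U i).eval 0 = if i ∈ P then ξ i else ξ' i) ∧
      ∀ i ∈ P, (σ i).eval 0 = -(V (b 0) 0 * V (b 0) i / V (b i) 0) := by
  classical
  set ν : Fin (n + 1) ⊕ Fin (n + 1) → k[X] := Sum.elim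
    (fun i => if i ∈ P then lam i * (EE (CV V) X (b i) (Cx ξ') * Cx ξ' i) else 0)
    (fun l => Cx ξ' l) with hνdef
  set v₀ : Fin (n + 1) ⊕ Fin (n + 1) → k := Sum.elim
    (fun i => if i ∈ P then ξ i else ξ' i)
    (fun i => if i ∈ P then -(V (b 0) 0 * V (b 0) i / V (b i) 0) else 0) with hv₀
  have hCx : Cx ξ' 0 = (1 : k[X]) := by simp [Cx, hξ']
  have hν : ν ≠ 0 := by
    intro h
    have := congrFun h (Sum.inr 0)
    simp [hνdef, hCx] at this
  have hf : ∀ v, ∑ i, ν i * fY V b ξ ξ' lam P v i = 0 := by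
    intro v
    set U : Fin (n + 1) → k[X] := fun j => v (Sum.inl j) with hU
    set σ : Fin (n + 1) → k[X] := fun j => v (Sum.inr j) with hσ
    rw [Fintype.sum_sum_type]
    have e1 : ∑ i, ν (Sum.inl i) * fY V b ξ ξ' lam P v (Sum.inl i)
        = ∑ i ∈ P, lam i * BX V b ξ ξ' i U (Cx ξ') := by
      rw [← Finset.sum_filter_add_sum_filter_not Finset.univ (fun i => i ∈ P)]
      have h2 : ∑ i with i ∉ P, ν (Sum.inl i) * fY V b ξ ξ' lam P v (Sum.inl i) = 0 := by
        apply Finset.sum_eq_zero
        intro i hi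
        have hi' : i ∉ P := by simpa using hi
        simp [hνdef, hi']
      rw [h2, add_zero]
      have h3 : Finset.univ.filter (fun i => i ∈ P) = P := by ext; simp
      rw [h3]
      apply Finset.sum_congr rfl
      intro i hi
      have h4 : BX V b ξ ξ' i U (Cx ξ') = thX V b ξ i U * (EE (CV V) X (b i) (Cx ξ') * Cx ξ' i) :=
        Bh_self_right (CV V) b X (Cx ξ) (Cx ξ') hCx i U
      rw [h4]
      simp only [hνdef, Sum.elim_inl, hi, if_true, fY, LinearMap.coe_mk, AddHom.coe_mk]
      ring
    have e2 : ∑ l, ν (Sum.inr l) * fY V b ξ ξ' lam P v (Sum.inr l)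
        = ∑ i with i ∉ P, lam i * BX V b ξ ξ' i U (Cx ξ') := by
      have h1 : ∀ l, ν (Sum.inr l) * fY V b ξ ξ' lam P v (Sum.inr l)
          = (∑ i with i ∉ P, lam i * (Cx ξ' l * BX V b ξ ξ' i U (Pi.single l 1)))
            - ∑ i ∈ P, σ i * (Cx ξ' l * thX V b ξ' i (Pi.single l 1)) := by
        intro l
        simp only [hνdef, Sum.elim_inr, fY, LinearMap.coe_mk, AddHom.coe_mk, mul_sub,
          Finset.mul_sum]
        congr 1
        · exact Finset.sum_congr rfl fun i _ => by ring
        · exact Finset.sum_congr rfl fun i _ => by simp only [hσ]; ring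
      rw [Finset.sum_congr rfl fun l _ => h1 l, Finset.sum_sub_distrib, Finset.sum_comm]
      have h2 : ∑ l, ∑ i ∈ P, σ i * (Cx ξ' l * thX V b ξ' i (Pi.single l 1)) = 0 := by
        rw [Finset.sum_comm]
        apply Finset.sum_eq_zero
        intro i _
        rw [← Finset.mul_sum]
        have h3 : ∑ l, Cx ξ' l * thX V b ξ' i (Pi.single l 1) = thX V b ξ' i (Cx ξ') :=
          (th_expand (CV V) b X (Cx ξ') i (Cx ξ')).symm
        rw [h3]
        have h4 : thX V b ξ' i (Cx ξ') = 0 := th_self (CV V) b X (Cx ξ') hCx i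
        rw [h4, mul_zero]
      rw [h2, sub_zero]
      apply Finset.sum_congr rfl
      intro i _
      rw [← Finset.mul_sum]
      congr 1
      exact (Bh_expand_right (CV V) b X (Cx ξ) (Cx ξ') i U (Cx ξ')).symm
    rw [e1, e2]
    have h5 := hlam U
    rw [← Finset.sum_filter_add_sum_filter_not Finset.univ (fun i => i ∈ P)] at h5
    have h3 : Finset.univ.filter (fun i => i ∈ P) = P := by ext; simp
    rw [h3] at h5
    exact h5
  have hker : ∀ v : Fin (n + 1) ⊕ Fin (n + 1) → k,
      (∀ i, (fY V b ξ ξ' lam P (fun j => C (v j)) i).eval 0 = 0) → ∃ c, ∀ j, v j = c * v₀ j := by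
    intro v hv
    set u : Fin (n + 1) → k := fun j => v (Sum.inl j) with hu
    set s : Fin (n + 1) → k := fun j => v (Sum.inr j) with hs
    have hP0 : ∀ i ∈ P, i ≠ 0 := fun i hi h => hP (h ▸ hi)
    have r1 : ∀ i ∈ P, u i = ξ i * u 0 := by
      intro i hi
      have h1 := hv (Sum.inl i)
      simp only [fY, LinearMap.coe_mk, AddHom.coe_mk, Sum.elim_inl, hi, if_true] at h1
      have h2 : (thX V b ξ i (fun l => C (u l))).eval 0 = 0 := h1
      rw [eval_thX, th0_succ (hP0 i hi) hξ] at h2
      rcases mul_eq_zero.1 h2 with h3 | h3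
      · exact absurd h3 (hV _ _)
      · linear_combination h3
    have r2 : ∀ i, i ∉ P → s i = 0 := by
      intro i hi
      have h1 := hv (Sum.inl i)
      simp only [fY, LinearMap.coe_mk, AddHom.coe_mk, Sum.elim_inl, hi, if_false, eval_C] at h1
      exact h1
    have r3 : ∀ l, l ≠ 0 → -(V (b 0) 0 * V (b 0) l * u 0)
        + (if l ∈ P then -(s l * V (b l) 0) else V (b 0) 0 * V (b 0) l / ξ' l * u l) = 0 := by
      intro l hl
      have h1 := hv (Sum.inr l)
      simp only [fY, LinearMap.coe_mk, AddHom.coe_mk, Sum.elim_inr, eval_sub, eval_finset_sum,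
        eval_mul, eval_C, hlam0] at h1
      have h2 : ∀ i, (BX V b ξ ξ' i (fun j => C (v (Sum.inl j))) (Pi.single l 1)).eval 0
          = Bh V b 0 ξ ξ' i u (Pi.single l 1) := fun i => eval_BX_single i l u
      simp only [h2, eval_thX_single] at h1
      have hd : (Pi.single l (1 : k) : Fin (n + 1) → k) 0 = 0 := by
        simp [Ne.symm hl]
      have h3 : ∑ i ∈ P, v (Sum.inr i) * th V b 0 ξ' i (Pi.single l 1)
          = if l ∈ P then s l * V (b l) 0 else 0 := by
        have : ∀ i ∈ P, v (Sum.inr i) * th V b 0 ξ' i (Pi.single l 1)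
            = if i = l then s l * V (b l) 0 else 0 := by
          intro i hi
          rw [th0_succ (hP0 i hi) hξ', hd]
          by_cases hil : i = l
          · subst hil; simp [hs]
          · simp [Pi.single_apply, hil]
        rw [Finset.sum_congr rfl this, Finset.sum_ite_eq']
      have h4 : ∑ i with i ∉ P, lam0 V b ξ' i * Bh V b 0 ξ ξ' i u (Pi.single l 1)
          = -(V (b 0) 0 * V (b 0) l * u 0)
            + if l ∈ P then 0 else V (b 0) 0 * V (b 0) l / ξ' l * u l := by
        rw [← Finset.add_sum_erase _ _ (show (0 : Fin (n + 1)) ∈ Finset.univ.filter (· ∉ P) by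
          simp [hP])]
        rw [B0_zero hl hξ]
        have h5 : lam0 V b ξ' 0 = 1 := by simp [lam0]
        rw [h5, one_mul]
        congr 1
        have h6 : ∀ i ∈ (Finset.univ.filter (· ∉ P)).erase (0 : Fin (n + 1)),
            lam0 V b ξ' i * Bh V b 0 ξ ξ' i u (Pi.single l 1)
              = if i = l then V (b 0) 0 * V (b 0) l / ξ' l * u l else 0 := by
          intro i hi
          have hi0 : i ≠ 0 := Finset.ne_of_mem_erase hi
          rw [B0_succ hi0 hl hξ hξ']
          by_cases hil : i = l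
          · subst hil
            simp only [if_true, lam0, hi0, if_false]
            have := hV (b i) 0
            have := hne' i
            field_simp
          · simp [hil]
        rw [Finset.sum_congr rfl h6, Finset.sum_ite_eq']
        have h7 : l ∈ (Finset.univ.filter (· ∉ P)).erase (0 : Fin (n + 1)) ↔ l ∉ P := by
          simp [hl]
        simp only [h7]
        by_cases hlP : l ∈ P <;> simp [hlP]
      rw [h3, h4] at h1
      by_cases hlP : l ∈ P
      · simp only [hlP, if_true] at h1 ⊢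
        linear_combination h1
      · simp only [hlP, if_false] at h1 ⊢
        linear_combination h1
    refine ⟨u 0, ?_⟩
    intro j
    rcases j with i | i
    · by_cases hi : i ∈ P
      · simp only [hv₀, Sum.elim_inl, hi, if_true]
        exact (r1 i hi).trans (by ring)
      · simp only [hv₀, Sum.elim_inl, hi, if_false]
        by_cases hi0 : i = 0
        · subst hi0; rw [hξ']; simp [hu]
        · have h1 := r3 i hi0
          simp only [hi, if_false] at h1
          have h2 := hV (b 0) 0
          have h3 := hV (b 0) i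
          have h4 := hne' i
          have h5 : u i = u 0 * ξ' i := by
            have h6 : (V (b 0) 0 * V (b 0) i) * (u i - u 0 * ξ' i) = 0 := by
              field_simp at h1
              linear_combination h1
            rcases mul_eq_zero.1 h6 with h7 | h7
            · exact absurd h7 (mul_ne_zero h2 h3)
            · linear_combination h7
          exact h5
    · by_cases hi : i ∈ P
      · simp only [hv₀, Sum.elim_inr, hi, if_true]
        have h1 := r3 i (hP0 i hi)
        simp only [hi, if_true] at h1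
        have h4 := hV (b i) 0
        have h5 : s i = u 0 * -(V (b 0) 0 * V (b 0) i / V (b i) 0) := by
          field_simp
          linear_combination -h1
        exact h5
      · simp only [hv₀, Sum.elim_inr, hi, if_false, mul_zero]
        exact r2 i hi
  obtain ⟨w, hw, hw0⟩ := lin_ker (fY V b ξ ξ' lam P) hν hf hker
  refine ⟨fun i => w (Sum.inl i), fun i => w (Sum.inr i), ?_, ?_, ?_, ?_⟩
  · intro i hi
    have := congrFun hw (Sum.inl i)
    simpa [fY, hi] using this
  · intro W
    have h1 : ∀ l, (∑ i with i ∉ P, lam i * BX V b ξ ξ' i (fun j => w (Sum.inl j))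
        (Pi.single l 1)) = ∑ i ∈ P, w (Sum.inr i) * thX V b ξ' i (Pi.single l 1) := by
      intro l
      have := congrFun hw (Sum.inr l)
      simp only [fY, LinearMap.coe_mk, AddHom.coe_mk, Sum.elim_inr, Pi.zero_apply] at this
      exact sub_eq_zero.1 this
    have h2 : ∀ i, BX V b ξ ξ' i (fun j => w (Sum.inl j)) W
        = ∑ l, W l * BX V b ξ ξ' i (fun j => w (Sum.inl j)) (Pi.single l 1) := fun i =>
      Bh_expand_right (CV V) b X (Cx ξ) (Cx ξ') i _ W
    have h3 : ∀ i, thX V b ξ' i W = ∑ l, W l * thX V b ξ' i (Pi.single l 1) := fun i =>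
      th_expand (CV V) b X (Cx ξ') i W
    calc ∑ i with i ∉ P, lam i * BX V b ξ ξ' i (fun j => w (Sum.inl j)) W
        = ∑ l, W l * ∑ i with i ∉ P, lam i *
            BX V b ξ ξ' i (fun j => w (Sum.inl j)) (Pi.single l 1) := by
          simp only [h2, Finset.mul_sum]
          rw [Finset.sum_comm]
          exact Finset.sum_congr rfl fun l _ => Finset.sum_congr rfl fun i _ => by ring
      _ = ∑ l, W l * ∑ i ∈ P, w (Sum.inr i) * thX V b ξ' i (Pi.single l 1) := by
          simp only [h1]
      _ = ∑ i ∈ P, w (Sum.inr i) * thX V b ξ' i W := by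
          simp only [h3, Finset.mul_sum]
          rw [Finset.sum_comm]
          exact Finset.sum_congr rfl fun l _ => Finset.sum_congr rfl fun i _ => by ring
  · intro i
    have := hw0 (Sum.inl i)
    simpa [hv₀] using this
  · intro i hi
    have := hw0 (Sum.inr i)
    simpa [hv₀, hi] using this

end SysY
end Pool.Agent.VGen
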