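import Pool.Agent.VGen.SysDefs
import Pool.Agent.VGen.Lin
import Pool.Agent.VGen.Forms

/-!
# Uniqueness of the solutions of the systems
-/

set_option autoImplicit false

noncomputable section

namespace Pool.Agent.VGen

open Pool.Agent.ZCyc Polynomial

universe u

section Systems

variable {k : Type u} [Field k] {n r : ℕ} {V : Fin r → Fin (n + 1) → k}
  {b : Fin (n + 1) → Fin r} {ξ ξ' : Fin (n + 1) → k}

private def uTh (V : Fin r → Fin (n + 1) → k) (b : Fin (n + 1) → Fin r) (ξ : Fin (n + 1) → k)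
    (i : Fin (n + 1)) : (Fin (n + 1) → k[X]) →ₗ[k[X]] k[X] where
  toFun := thX V b ξ i
  map_add' := th_add _ _ _ _ _
  map_smul' c U := by rw [RingHom.id_apply, smul_eq_mul]; exact th_smul _ _ _ _ _ _ _

private def uBr (V : Fin r → Fin (n + 1) → k) (b : Fin (n + 1) → Fin r) (ξ ξ' : Fin (n + 1) → k)
    (i : Fin (n + 1)) (U : Fin (n + 1) → k[X]) : (Fin (n + 1) → k[X]) →ₗ[k[X]] k[X] where
  toFun := BX V b ξ ξ' i U
  map_add' := Bh_add_right _ _ _ _ _ _ _
  map_smul' c W := by rw [RingHom.id_apply, smul_eq_mul]; exact Bh_smul_right _ _ _ _ _ _ _ _ _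

private def uBl (V : Fin r → Fin (n + 1) → k) (b : Fin (n + 1) → Fin r) (ξ ξ' : Fin (n + 1) → k)
    (i : Fin (n + 1)) (W : Fin (n + 1) → k[X]) : (Fin (n + 1) → k[X]) →ₗ[k[X]] k[X] where
  toFun := fun U => BX V b ξ ξ' i U W
  map_add' U U' := Bh_add_left _ _ _ _ _ _ _ _ _
  map_smul' c U := by rw [RingHom.id_apply, smul_eq_mul]; exact Bh_smul_left _ _ _ _ _ _ _ _ _

private lemma uTh_apply (i : Fin (n + 1)) (U : Fin (n + 1) → k[X]) :
    uTh V b ξ i U = thX V b ξ i U := rfl

private lemma uBr_apply (i : Fin (n + 1)) (U W : Fin (n + 1) → k[X]) :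
    uBr V b ξ ξ' i U W = BX V b ξ ξ' i U W := rfl

private lemma uBl_apply (i : Fin (n + 1)) (U W : Fin (n + 1) → k[X]) :
    uBl V b ξ ξ' i W U = BX V b ξ ξ' i U W := rfl

private lemma evTh (e : k) (i : Fin (n + 1)) (w : Fin (n + 1) → k) :
    (thX V b ξ i fun l => C (w l)).eval e = th V b e ξ i w := by
  have h := map_th (CV V) b X (evalRingHom e) (Cx ξ) i (fun l => C (w l))
  simp only [coe_evalRingHom, CV, Cx, eval_C, eval_X] at h
  exact h

private lemma evBh (e : k) (i : Fin (n + 1)) (U W : Fin (n + 1) → k[X]) :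
    (BX V b ξ ξ' i U W).eval e = Bh V b e ξ ξ' i (fun l => (U l).eval e)
      (fun l => (W l).eval e) := by
  have h := map_Bh (CV V) b X (evalRingHom e) (Cx ξ) (Cx ξ') i U W
  simp only [coe_evalRingHom, CV, Cx, eval_C, eval_X] at h
  exact h

private lemma evBr (e : k) (i : Fin (n + 1)) (U : Fin (n + 1) → k[X]) (w : Fin (n + 1) → k) :
    (BX V b ξ ξ' i U fun l => C (w l)).eval e = Bh V b e ξ ξ' i (fun l => (U l).eval e) w := by
  rw [evBh]
  simp only [eval_C]

private lemma evBc (e : k) (i : Fin (n + 1)) (u w : Fin (n + 1) → k) :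
    (BX V b ξ ξ' i (fun l => C (u l)) fun l => C (w l)).eval e = Bh V b e ξ ξ' i u w := by
  rw [evBr]
  simp only [eval_C]

private lemma EE0 (s : Fin r) (U : Fin (n + 1) → k) : EE V 0 s U = V s 0 * U 0 := by
  unfold EE
  rw [zero_mul, add_zero]

private lemma th0 {i : Fin (n + 1)} (hi : i ≠ 0) (U : Fin (n + 1) → k) :
    th V b 0 ξ i U = V (b i) 0 * (ξ 0 * U i - ξ i * U 0) := by
  unfold th
  rw [if_neg hi, EE0, EE0]
  ring

private lemma ph_single {s : Fin r} {v : Fin (n + 1) → k} {j : Fin (n + 1)} (hj : j ≠ 0)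
    (h : ∀ i, i ≠ 0 → i ≠ j → v i = 0) : ph V s v = V s j * v j := by
  obtain ⟨l, rfl⟩ := Fin.exists_succ_eq_of_ne_zero hj
  unfold ph
  rw [Finset.sum_eq_single l]
  · intro i _ hi
    rw [h i.succ (Fin.succ_ne_zero i) (fun h => hi (Fin.succ_injective _ h)), mul_zero]
  · intro h
    exact absurd (Finset.mem_univ _) h

/-- V11 Uniq.lean: uniqueness for the steps -/
theorem uniq_step (hξ : ξ 0 = 1) (hξ' : ξ' 0 = 1) (hne : ∀ i, ξ i ≠ 0) (hne' : ∀ i, ξ' i ≠ 0)
    (hV : ∀ s l, V s l ≠ 0) {P Q : Finset (Fin (n + 1))} (hP : (0 : Fin (n + 1)) ∉ P)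
    {j : Fin (n + 1)} (hj0 : j ≠ 0) (hj : j ∉ P) (hQ : Q = P ∨ Q = insert j P)
    {U : Fin (n + 1) → k[X]} (hU0 : ∀ i, (U i).eval 0 = if i ∈ Q then ξ i else ξ' i) :
    ∀ᶠ e in Filter.cofinite, ∀ w : Fin (n + 1) → k, (∀ i ∈ P, th V b e ξ' i w = 0) →
      (∀ i ∉ insert j P, Bh V b e ξ ξ' i (fun l => (U l).eval e) w = 0) → w 0 = 0 → w = 0 := by
  classical
  have h := lin_inj (LinearMap.pi fun i : Fin (n + 1) =>
    if i = j then LinearMap.proj (0 : Fin (n + 1)) else
      if i ∈ P then uTh V b ξ' i else uBr V b ξ ξ' i U) (k := k) ?_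
  · refine h.mono fun e he w h1 h2 h3 => he w fun i => ?_
    rw [LinearMap.pi_apply]
    by_cases hij : i = j
    · rw [if_pos hij, LinearMap.proj_apply, h3, eval_C]
    · rw [if_neg hij]
      by_cases hi : i ∈ P
      · rw [if_pos hi]
        rw [uTh_apply, evTh]
        exact h1 i hi
      · rw [if_neg hi]
        rw [uBr_apply, evBr]
        exact h2 i (by simp [hij, hi])
  · intro v hv
    have hU1 : (U 0).eval 0 = 1 := by
      rw [hU0]
      split_ifs
      · exact hξ
      · exact hξ'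
    have hv0 : v 0 = 0 := by
      have := hv j
      rw [LinearMap.pi_apply, if_pos rfl, LinearMap.proj_apply, eval_C] at this
      exact this
    have hvi : ∀ i, i ≠ 0 → i ≠ j → v i = 0 := by
      intro i hi0 hij
      have h1 := hv i
      rw [LinearMap.pi_apply, if_neg hij] at h1
      by_cases hi : i ∈ P
      · rw [if_pos hi] at h1
        rw [uTh_apply, evTh] at h1
        have h2 := h1
        rw [th0 hi0, hξ', hv0, one_mul, mul_zero, sub_zero] at h2
        exact (mul_eq_zero.1 h2).resolve_left (hV _ _)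
      · rw [if_neg hi] at h1
        rw [uBr_apply, evBr] at h1
        have h2 := h1
        unfold Bh at h2
        rw [th0 hi0, th0 hi0, EE0, EE0, hξ, hξ', hv0, hU1] at h2
        have h3 : V (b i) 0 * V (b i) 0 * (U i).eval 0 * v i = 0 := by
          linear_combination h2
        have h4 : (U i).eval 0 ≠ 0 := by
          rw [hU0]
          split_ifs
          · exact hne i
          · exact hne' i
        exact (mul_eq_zero.1 h3).resolve_left
          (mul_ne_zero (mul_ne_zero (hV _ _) (hV _ _)) h4)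
    have hvj : v j = 0 := by
      have h1 := hv 0
      rw [LinearMap.pi_apply, if_neg (Ne.symm hj0), if_neg hP] at h1
      rw [uBr_apply, evBr] at h1
      have h2 := h1
      unfold Bh at h2
      rw [EE0, EE0] at h2
      unfold th at h2
      rw [if_pos rfl, if_pos rfl, ph_single (v := v) hj0 hvi, hξ, hv0] at h2
      beta_reduce at h2
      rw [hU1] at h2
      have h3 : V (b 0) 0 * V (b 0) j * v j = 0 := by
        linear_combination -h2
      exact (mul_eq_zero.1 h3).resolve_left (mul_ne_zero (hV _ _) (hV _ _))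
    funext i
    by_cases hi0 : i = 0
    · rw [hi0, hv0, Pi.zero_apply]
    · by_cases hij : i = j
      · rw [hij, hvj, Pi.zero_apply]
      · exact hvi i hi0 hij

/-- V11 Uniq.lean: uniqueness of the point with `θ_i = 0` for all `i ≠ 0` -/
theorem uniq_th (hξ : ξ 0 = 1) (hV : ∀ s l, V s l ≠ 0) :
    ∀ᶠ e in Filter.cofinite, ∀ w : Fin (n + 1) → k, (∀ i, i ≠ 0 → th V b e ξ i w = 0) →
      w 0 = 0 → w = 0 := by
  classical
  have h := lin_inj (LinearMap.pi fun i : Fin (n + 1) =>
    if i = 0 then LinearMap.proj (0 : Fin (n + 1)) else uTh V b ξ i) (k := k) ?_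
  · refine h.mono fun e he w h1 h3 => he w fun i => ?_
    rw [LinearMap.pi_apply]
    by_cases hi : i = 0
    · rw [if_pos hi, LinearMap.proj_apply, h3, eval_C]
    · rw [if_neg hi]
      rw [uTh_apply, evTh]
      exact h1 i hi
  · intro v hv
    have hv0 : v 0 = 0 := by
      have := hv 0
      rw [LinearMap.pi_apply, if_pos rfl, LinearMap.proj_apply, eval_C] at this
      exact this
    funext i
    by_cases hi0 : i = 0
    · rw [hi0, hv0, Pi.zero_apply]
    · have h1 := hv i
      rw [LinearMap.pi_apply, if_neg hi0] at h1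
      rw [uTh_apply, evTh] at h1
      have h2 := h1
      rw [th0 hi0, hξ, hv0, one_mul, mul_zero, sub_zero] at h2
      exact (mul_eq_zero.1 h2).resolve_left (hV _ _)

/-- V11 Uniq.lean: uniqueness of the first point -/
theorem uniq_first (hξ : ξ 0 = 1) (hξ' : ξ' 0 = 1) (hne : ∀ i, ξ i ≠ 0) (hne' : ∀ i, ξ' i ≠ 0)
    (hV : ∀ s l, V s l ≠ 0) {lam : Fin (n + 1) → k[X]}
    (hlam0 : ∀ i, (lam i).eval 0 = lam0 V b ξ' i) :
    ∀ᶠ e in Filter.cofinite, ∀ w : Fin (n + 1) → k,
      (∀ W, ∑ i, (lam i).eval e * Bh V b e ξ ξ' i w W = 0) → w 0 = 0 → w = 0 := by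
  classical
  have h := lin_inj (LinearMap.pi fun l : Fin (n + 1) =>
    if l = 0 then LinearMap.proj (0 : Fin (n + 1)) else
      ∑ i, lam i • uBl V b ξ ξ' i (fun j => C ((Pi.single l 1 : Fin (n + 1) → k) j))) (k := k) ?_
  · refine h.mono fun e he w h1 h3 => he w fun l => ?_
    rw [LinearMap.pi_apply]
    by_cases hl : l = 0
    · rw [if_pos hl, LinearMap.proj_apply, h3, eval_C]
    · rw [if_neg hl, LinearMap.sum_apply, eval_finsetSum, ← h1 (Pi.single l 1)]
      refine Finset.sum_congr rfl fun i _ => ?_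
      rw [LinearMap.smul_apply, smul_eq_mul, eval_mul]
      rw [uBl_apply, evBc]
  · intro v hv
    have hv0 : v 0 = 0 := by
      have := hv 0
      rw [LinearMap.pi_apply, if_pos rfl, LinearMap.proj_apply, eval_C] at this
      exact this
    funext l
    by_cases hl : l = 0
    · rw [hl, hv0, Pi.zero_apply]
    · have h1 := hv l
      rw [LinearMap.pi_apply, if_neg hl, LinearMap.sum_apply, eval_finsetSum] at h1
      rw [Finset.sum_eq_single l] at h1
      · rw [LinearMap.smul_apply, smul_eq_mul, eval_mul, hlam0, lam0, if_neg hl] at h1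
        have h2 : (uBl V b ξ ξ' l (fun j => C ((Pi.single l 1 : Fin (n + 1) → k) j))
            (fun j => C (v j))).eval 0 = V (b l) 0 * V (b l) 0 * v l := by
          rw [uBl_apply, evBc]
          unfold Bh
          rw [th0 hl, th0 hl, EE0, EE0, hξ, hξ', hv0, Pi.single_eq_same]
          ring
        rw [h2] at h1
        have h3 : V (b 0) 0 * V (b 0) l / (V (b l) 0 ^ 2 * ξ' l) ≠ 0 :=
          div_ne_zero (mul_ne_zero (hV _ _) (hV _ _))
            (mul_ne_zero (pow_ne_zero _ (hV _ _)) (hne' _))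
        exact (mul_eq_zero.1 ((mul_eq_zero.1 h1).resolve_left h3)).resolve_left
          (mul_ne_zero (hV _ _) (hV _ _))
      · intro i _ hi
        rw [LinearMap.smul_apply, smul_eq_mul, eval_mul]
        have h2 : (uBl V b ξ ξ' i (fun j => C ((Pi.single l 1 : Fin (n + 1) → k) j))
            (fun j => C (v j))).eval 0 = 0 := by
          rw [uBl_apply, evBc]
          unfold Bh
          rw [EE0, EE0, hv0, Pi.single_eq_of_ne hi]
          ring
        rw [h2, mul_zero]
      · intro h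
        exact absurd (Finset.mem_univ _) h

/-- V11 Uniq.lean: uniqueness of the point `W` for `P = ∅` -/
theorem uniq_last (hξ : ξ 0 = 1) (hξ' : ξ' 0 = 1) (hne : ∀ i, ξ i ≠ 0) (hne' : ∀ i, ξ' i ≠ 0)
    (hV : ∀ s l, V s l ≠ 0) :
    ∀ᶠ e in Filter.cofinite, ∀ w : Fin (n + 1) → k,
      (∀ i, i ≠ 0 → Bh V b e ξ ξ' i ξ' w = 0) → w 0 = 0 → w = 0 := by
  classical
  have h := lin_inj (LinearMap.pi fun i : Fin (n + 1) =>
    if i = 0 then LinearMap.proj (0 : Fin (n + 1)) else
      uBr V b ξ ξ' i (fun l => C (ξ' l))) (k := k) ?_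
  · refine h.mono fun e he w h1 h3 => he w fun i => ?_
    rw [LinearMap.pi_apply]
    by_cases hi : i = 0
    · rw [if_pos hi, LinearMap.proj_apply, h3, eval_C]
    · rw [if_neg hi]
      rw [uBr_apply, evBc]
      exact h1 i hi
  · intro v hv
    have hv0 : v 0 = 0 := by
      have := hv 0
      rw [LinearMap.pi_apply, if_pos rfl, LinearMap.proj_apply, eval_C] at this
      exact this
    funext i
    by_cases hi0 : i = 0
    · rw [hi0, hv0, Pi.zero_apply]
    · have h1 := hv i
      rw [LinearMap.pi_apply, if_neg hi0] at h1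
      rw [uBr_apply, evBc] at h1
      have h2 := h1
      unfold Bh at h2
      rw [th0 hi0, th0 hi0, EE0, hξ, hξ', hv0] at h2
      have h3 : V (b i) 0 * V (b i) 0 * ξ' i * v i = 0 := by
        linear_combination h2
      exact (mul_eq_zero.1 h3).resolve_left
        (mul_ne_zero (mul_ne_zero (hV _ _) (hV _ _)) (hne' i))

end Systems

end Pool.Agent.VGen
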