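import Pool.Agent.VGen.Chain
import Pool.Agent.VGen.SysL
import Pool.Agent.VGen.SysY
import Pool.Agent.VGen.SysW
import Pool.Agent.VGen.Uniq

/-!
# The relation for almost all points of a line through the coordinate point
-/

set_option autoImplicit false

noncomputable section

namespace Pool.Agent.VGen

open Pool.Agent.ZCyc Polynomial

universe u

section Eval

variable {k : Type u} [Field k] {n r : ℕ} {V : Fin r → Fin (n + 1) → k}
  {b : Fin (n + 1) → Fin r} {ξ ξ' : Fin (n + 1) → k}

theorem eval_EE (e : k) (s : Fin r) (U : Fin (n + 1) → k[X]) :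
    (EE (CV V) X s U).eval e = EE V e s (fun l => (U l).eval e) := by
  have h := map_EE (CV V) X (f := evalRingHom e) s U
  simpa [CV] using h

theorem eval_thX (e : k) (i : Fin (n + 1)) (U : Fin (n + 1) → k[X]) :
    (thX V b ξ i U).eval e = th V b e ξ i (fun l => (U l).eval e) := by
  have h := map_th (CV V) b X (f := evalRingHom e) (Cx ξ) i U
  simpa [CV, Cx, thX] using h

theorem eval_BX (e : k) (i : Fin (n + 1)) (U W : Fin (n + 1) → k[X]) :
    (BX V b ξ ξ' i U W).eval e =
      Bh V b e ξ ξ' i (fun l => (U l).eval e) (fun l => (W l).eval e) := by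
  have h := map_Bh (CV V) b X (f := evalRingHom e) (Cx ξ) (Cx ξ') i U W
  simpa [CV, Cx, BX] using h

theorem pt_smul (V : Fin r → Fin (n + 1) → k) (e c : k) (U : Fin (n + 1) → k) (j : Ix n r) :
    pt V e (c • U) j = c * pt V e U j := by
  rcases j with i | s
  · simp only [pt, Sum.elim_inl, Pi.smul_apply, smul_eq_mul]
    split_ifs <;> ring
  · simp only [pt, Sum.elim_inr, EE_smul]

theorem pt_zero (V : Fin r → Fin (n + 1) → k) (e : k) : pt V e 0 = 0 := by
  funext j
  have := pt_smul V e 0 (0 : Fin (n + 1) → k) j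
  rw [smul_zero, zero_mul] at this
  exact this

end Eval

section Gen

open Filter

variable {k : Type u} [Field k] {n r : ℕ} {V : Fin r → Fin (n + 1) → k}
  {b : Fin (n + 1) → Fin r} {ξ ξ' : Fin (n + 1) → k}

private theorem ev_ne_zero : ∀ᶠ e : k in cofinite, e ≠ 0 := by
  have h := Filter.eventually_cofinite_ne (0 : k)
  exact h

private theorem ev_pt (hV : ∀ s l, V s l ≠ 0) {U : Fin (n + 1) → k[X]}
    (hU : ∀ i, (U i).eval 0 ≠ 0) :
    ∀ᶠ e in cofinite, ∀ j, pt V e (fun l => (U l).eval e) j ≠ 0 := by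
  have h1 : ∀ᶠ e in cofinite, ∀ i, (U i).eval e ≠ 0 :=
    eventually_all.2 fun i => eventually_eval_ne (hU i)
  have h2 : ∀ᶠ e in cofinite, ∀ s, (EE (CV V) X s U).eval e ≠ 0 := by
    refine eventually_all.2 fun s => eventually_eval_ne ?_
    rw [eval_EE]
    unfold EE
    rw [zero_mul, add_zero]
    exact mul_ne_zero (hV s 0) (hU 0)
  filter_upwards [h1, h2, ev_ne_zero] with e h1 h2 h3 j
  rcases j with i | s
  · simp only [pt, Sum.elim_inl]
    split_ifs
    · exact h1 0
    · exact mul_ne_zero h3 (h1 i)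
  · have := h2 s
    rw [eval_EE] at this
    exact this

end Gen

section Main

open Filter

variable {k : Type u} [Field k] [IsAlgClosed k] [CharZero k] {m n r : ℕ} {a : Ix n r → ℕ}
  {V : Fin r → Fin (n + 1) → k} {W : Type*} [AddCommGroup W]
  {sy : (Ix n r → k) → (Ix n r → k) → W} {b : Fin (n + 1) → Fin r} {ξ ξ' : Fin (n + 1) → k}

/-- the relation for almost all points of the line -/
theorem gen_swap (hsy : IsSy m a V sy) (hm : 0 < m)
    (ha : ∀ s, m ∣ a (Sum.inr s) + ∑ i with b i = s, a (Sum.inl i)) (hV : ∀ s l, V s l ≠ 0)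
    (hξ : ξ 0 = 1) (hξ' : ξ' 0 = 1) (hne : ∀ i, ξ i ≠ 0) (hne' : ∀ i, ξ' i ≠ 0)
    (hd : ∀ i, i ≠ 0 → ξ i ≠ ξ' i) :
    ∀ᶠ e in cofinite, ∀ p q : Ix n r → k, (∀ j, p j ^ m = pt V e ξ j) →
      (∀ j, q j ^ m = pt V e ξ' j) → sy p q = (-1 : ℤ) ^ n • sy q p := by
  obtain ⟨lam, hlam, hlam0⟩ := sysL (b := b) hξ hξ' hne hne' hV
  have hY := fun s => sysY (b := b) hξ hξ' hne hne' hV hlam hlam0 (zero_notMem_St n s)
  choose U σ hUt hU hU0 hσ0 using hY
  have hW := fun s => sysW (b := b) hξ hξ' hne hne' hV hlam0 (zero_notMem_St n s) (hU s) (hU0 s)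
  choose T hTt hT hT0 using hW
  have hlam0' : ∀ i, (lam i).eval 0 ≠ 0 := by
    intro i
    rw [hlam0, lam0]
    split_ifs
    · exact one_ne_zero
    · exact div_ne_zero (mul_ne_zero (hV _ _) (hV _ _))
        (mul_ne_zero (pow_ne_zero _ (hV _ _)) (hne' i))
  -- the conditions for the parameter
  have c0 : ∀ᶠ e : k in cofinite, e ≠ 0 := ev_ne_zero
  have c1 : ∀ᶠ e in cofinite, ∀ j, pt V e ξ j ≠ 0 := by
    have := ev_pt hV (U := Cx ξ) (fun i => by simpa [Cx] using hne i)
    simpa [Cx] using this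
  have c1' : ∀ᶠ e in cofinite, ∀ j, pt V e ξ' j ≠ 0 := by
    have := ev_pt hV (U := Cx ξ') (fun i => by simpa [Cx] using hne' i)
    simpa [Cx] using this
  have c2 : ∀ᶠ e in cofinite, ∀ s ∈ Finset.range (n + 1), ∀ j,
      pt V e (fun l => (U s l).eval e) j ≠ 0 := by
    refine (Filter.eventually_all_finset _).2 fun s _ => ev_pt hV fun i => ?_
    rw [hU0]
    split_ifs
    · exact hne i
    · exact hne' i
  have c2' : ∀ᶠ e in cofinite, ∀ s ∈ Finset.range (n + 1), ∀ j,
      pt V e (fun l => (T s l).eval e) j ≠ 0 := by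
    refine (Filter.eventually_all_finset _).2 fun s _ => ev_pt hV fun i => ?_
    rw [hT0]
    split_ifs
    · exact hne' i
    · exact hne i
  have c3 : ∀ᶠ e in cofinite, ∀ j : Fin n, (thX V b ξ j.succ (U j)).eval e ≠ 0 := by
    refine eventually_all.2 fun j => eventually_eval_ne ?_
    rw [eval_thX]
    unfold th EE
    rw [if_neg (Fin.succ_ne_zero j)]
    simp only [hU0, if_neg (succ_notMem_St j), if_neg (zero_notMem_St n j), hξ, hξ', zero_mul,
      add_zero, mul_one]
    have h1 : V (b j.succ) 0 * ξ' j.succ - ξ j.succ * V (b j.succ) 0 =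
        V (b j.succ) 0 * (ξ' j.succ - ξ j.succ) := by ring
    rw [h1]
    exact mul_ne_zero (hV _ _) (sub_ne_zero.2 (hd _ (Fin.succ_ne_zero j)).symm)
  have c4 : ∀ᶠ e in cofinite, ∀ i, (lam i).eval e ≠ 0 :=
    eventually_all.2 fun i => eventually_eval_ne (hlam0' i)
  have hmem : ∀ j : Fin n, j.succ ∈ St n (j + 1) := by
    intro j
    rw [St_succ]
    exact Finset.mem_insert_self _ _
  have c5 : ∀ᶠ e in cofinite, ∀ j : Fin n, (σ (j + 1) j.succ).eval e ≠ 0 := by
    refine eventually_all.2 fun j => eventually_eval_ne ?_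
    rw [hσ0 _ _ (hmem j)]
    exact neg_ne_zero.2 (div_ne_zero (mul_ne_zero (hV _ _) (hV _ _)) (hV _ _))
  have c6 : ∀ᶠ e in cofinite, ∀ j : Fin n, (σ (j + 1) j.succ +
      lam j.succ * C (ξ j.succ) * EE (CV V) X (b j.succ) (U (j + 1))).eval e ≠ 0 := by
    refine eventually_all.2 fun j => eventually_eval_ne ?_
    rw [eval_add, eval_mul, eval_mul, eval_C, eval_EE, hσ0 _ _ (hmem j), hlam0, lam0,
      if_neg (Fin.succ_ne_zero j)]
    unfold EE
    simp only [hU0, if_neg (zero_notMem_St n _), hξ', zero_mul, add_zero, mul_one]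
    have h1 := hV (b j.succ) 0
    have h2 := hV (b 0) 0
    have h3 := hV (b 0) j.succ
    have h4 := hne' j.succ
    have h5 : -(V (b 0) 0 * V (b 0) j.succ / V (b j.succ) 0) +
        V (b 0) 0 * V (b 0) j.succ / (V (b j.succ) 0 ^ 2 * ξ' j.succ) * ξ j.succ *
          V (b j.succ) 0 = V (b 0) 0 * V (b 0) j.succ * (ξ j.succ - ξ' j.succ) /
          (V (b j.succ) 0 * ξ' j.succ) := by
      field_simp
      ring
    rw [h5]
    exact div_ne_zero (mul_ne_zero (mul_ne_zero h2 h3)
      (sub_ne_zero.2 (hd _ (Fin.succ_ne_zero j)))) (mul_ne_zero h1 h4)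
  have c7 : ∀ᶠ e in cofinite, ∀ j : Fin n, ∀ w : Fin (n + 1) → k,
      (∀ i ∈ St n j, th V b e ξ' i w = 0) → (∀ i ∉ insert j.succ (St n j),
        Bh V b e ξ ξ' i (fun l => (U (j + 1) l).eval e) w = 0) → w 0 = 0 → w = 0 :=
    eventually_all.2 fun j => uniq_step hξ hξ' hne hne' hV (zero_notMem_St n j)
      (Fin.succ_ne_zero j) (succ_notMem_St j) (Or.inr (St_succ j)) (hU0 (j + 1))
  have c8 : ∀ᶠ e in cofinite, ∀ j : Fin n, ∀ w : Fin (n + 1) → k,
      (∀ i ∈ St n j, th V b e ξ' i w = 0) → (∀ i ∉ insert j.succ (St n j),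
        Bh V b e ξ ξ' i (fun l => (U j l).eval e) w = 0) → w 0 = 0 → w = 0 :=
    eventually_all.2 fun j => uniq_step hξ hξ' hne hne' hV (zero_notMem_St n j)
      (Fin.succ_ne_zero j) (succ_notMem_St j) (Or.inl rfl) (hU0 j)
  have c9 := uniq_th (b := b) hξ hV
  have c9' := uniq_th (b := b) hξ' hV
  have c10 := uniq_first (b := b) hξ hξ' hne hne' hV hlam0
  have c11 := uniq_last (b := b) hξ hξ' hne hne' hV
  filter_upwards [c0, c1, c1', c2, c2', c3, c4, c5, c6, c7, c8, c9, c9', c10, c11] with e h0 h1 h1'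
    h2 h2' h3 h4 h5 h6 h7 h8 h9 h9' h10 h11 p q hp hq
  have hκ : ∀ i : Fin (n + 1), (if i = 0 then e else e ^ 2) ≠ 0 := by
    intro i
    split_ifs
    · exact h0
    · exact pow_ne_zero _ h0
  have hrange : ∀ s ≤ n, s ∈ Finset.range (n + 1) := fun s hs => Finset.mem_range.2 (by omega)
  -- the ends
  have hUn : (fun l => (U n l).eval e) = (U n 0).eval e • ξ := by
    have h12 : (fun l => (U n l).eval e) - (U n 0).eval e • ξ = 0 := by
      apply h9
      · intro i hi
        rw [sub_eq_add_neg, ← neg_one_smul k, th_add, th_smul, th_smul, th_self _ _ _ _ hξ,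
          ← eval_thX, hUt n i (St_last.2 hi)]
        simp
      · simp [hξ]
    exact sub_eq_zero.1 h12
  have hTn : (fun l => (T n l).eval e) = (T n 0).eval e • ξ' := by
    have h12 : (fun l => (T n l).eval e) - (T n 0).eval e • ξ' = 0 := by
      apply h9'
      · intro i hi
        rw [sub_eq_add_neg, ← neg_one_smul k, th_add, th_smul, th_smul, th_self _ _ _ _ hξ',
          ← eval_thX, hTt n i (St_last.2 hi)]
        simp
      · simp [hξ']
    exact sub_eq_zero.1 h12
  have hlamk : ∀ w : Fin (n + 1) → k, ∑ i, (lam i).eval e * Bh V b e ξ ξ' i w ξ' = 0 := by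
    intro w
    have h12 := congrArg (eval e) (hlam (Cx w))
    rw [eval_finsetSum] at h12
    simp only [eval_mul, eval_BX, eval_zero] at h12
    simpa [Cx] using h12
  have hU00 : (fun l => (U 0 l).eval e) = (U 0 0).eval e • ξ' := by
    have h12 : (fun l => (U 0 l).eval e) - (U 0 0).eval e • ξ' = 0 := by
      apply h10
      · intro w
        have h13 : ∑ i, (lam i).eval e * Bh V b e ξ ξ' i (fun l => (U 0 l).eval e) w = 0 := by
          have h14 := congrArg (eval e) (hU 0 (Cx w))
          rw [St_zero] at h14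
          rw [eval_finsetSum] at h14
          simp only [Finset.notMem_empty, not_false_eq_true, Finset.filter_true,
            Finset.sum_empty, eval_mul, eval_BX, eval_zero] at h14
          simpa [Cx] using h14
        have h15 : ∀ i, (lam i).eval e * Bh V b e ξ ξ' i
            ((fun l => (U 0 l).eval e) - (U 0 0).eval e • ξ') w =
            (lam i).eval e * Bh V b e ξ ξ' i (fun l => (U 0 l).eval e) w -
            (U 0 0).eval e * ((lam i).eval e * Bh V b e ξ ξ' i w ξ') := by
          intro i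
          rw [sub_eq_add_neg, ← neg_one_smul k, Bh_add_left, Bh_smul_left, Bh_smul_left,
            Bh_symm V b e hξ hξ' i ξ' w]
          ring
        rw [Finset.sum_congr rfl fun i _ => h15 i, Finset.sum_sub_distrib, ← Finset.mul_sum,
          h13, hlamk, mul_zero, sub_zero]
      · simp [hξ']
    exact sub_eq_zero.1 h12
  have hU000 : (U 0 0).eval e ≠ 0 := by
    intro h
    have h12 := h2 0 (hrange 0 (Nat.zero_le _)) (Sum.inl 0)
    simp [pt, h] at h12
  have hT00 : (fun l => (T 0 l).eval e) = (T 0 0).eval e • ξ := by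
    have h12 : (fun l => (T 0 l).eval e) - (T 0 0).eval e • ξ = 0 := by
      apply h11
      · intro i _
        have h13 : Bh V b e ξ ξ' i ξ' (fun l => (T 0 l).eval e) = 0 := by
          have h14 := congrArg (eval e) (hT 0 i (by rw [St_zero]; exact Finset.notMem_empty i))
          rw [eval_BX, eval_zero, hU00, Bh_smul_left] at h14
          exact (mul_eq_zero.1 h14).resolve_left hU000
        have h14 : Bh V b e ξ ξ' i ξ' ξ = 0 := by
          rw [Bh_symm V b e hξ hξ', Bh_self_left _ _ _ _ _ hξ, th_self _ _ _ _ hξ', mul_zero]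
        rw [sub_eq_add_neg, ← neg_one_smul k, Bh_add_right, Bh_smul_right, Bh_smul_right, h13,
          h14]
        simp
      · simp [hξ]
    exact sub_eq_zero.1 h12
  refine chain hsy hm ha (b := b) (x := pt V e ξ) (x' := pt V e ξ') h1 h1'
    (y := fun s => pt V e fun l => (U s l).eval e) (y' := fun s => pt V e fun l => (T s l).eval e)
    (fun s _ => pt_inL _ _ _) (fun s _ => pt_inL _ _ _) (fun s hs => h2 s (hrange s hs))
    (fun s hs => h2' s (hrange s hs)) ?_ ?_ ?_
    (lam := fun i => (lam i).eval e / if i = 0 then e else e ^ 2)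
    (σ := fun s i => (σ s i).eval e / e) ?_ ?_ ?_ ?_ ?_ ?_ ?_ (u₁ := (U n 0).eval e)
    (u₂ := (T n 0).eval e) (u₃ := (U 0 0).eval e) (u₄ := (T 0 0).eval e) ?_ ?_ ?_ ?_ hp hq
  · intro s _ i hi
    rw [Th_pt _ _ _ hξ, ← eval_thX, hUt s i hi, eval_zero, mul_zero]
  · intro s _ i hi
    rw [Th_pt _ _ _ hξ', ← eval_thX, hTt s i hi, eval_zero, mul_zero]
  · intro s _ i hi
    rw [BB_pt _ _ _ hξ hξ', ← eval_BX, hT s i hi, eval_zero, mul_zero]
  · intro s _ w hw
    obtain ⟨w, rfl, _⟩ := exists_pt h0 hw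
    have h12 := congrArg (eval e) (hU s (Cx w))
    rw [eval_finsetSum, eval_finsetSum] at h12
    simp only [eval_mul, eval_BX, eval_thX] at h12
    have h13 : (fun l => (Cx w l).eval e) = w := by
      funext l
      simp [Cx]
    rw [h13] at h12
    simp only [BB_pt _ _ _ hξ hξ', Th_pt _ _ _ hξ']
    have h14 : ∀ i, (lam i).eval e / (if i = 0 then e else e ^ 2) *
        ((if i = 0 then e else e ^ 2) * Bh V b e ξ ξ' i (fun l => (U s l).eval e) w) =
        (lam i).eval e * Bh V b e ξ ξ' i (fun l => (U s l).eval e) w := by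
      intro i
      rw [← mul_assoc, div_mul_cancel₀ _ (hκ i)]
    have h15 : ∀ i, (σ s i).eval e / e * (e * th V b e ξ' i w) =
        (σ s i).eval e * th V b e ξ' i w := by
      intro i
      rw [← mul_assoc, div_mul_cancel₀ _ h0]
    rw [Finset.sum_congr rfl fun i _ => h14 i, Finset.sum_congr rfl fun i _ => h15 i]
    exact h12
  · intro j
    rw [Th_pt _ _ _ hξ, ← eval_thX]
    exact mul_ne_zero h0 (h3 j)
  · intro j
    exact div_ne_zero (h4 _) (hκ _)
  · intro j
    exact div_ne_zero (h5 j) h0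
  · intro j
    have h12 := h6 j
    rw [eval_add, eval_mul, eval_mul, eval_C, eval_EE] at h12
    have h13 : (σ (j + 1) j.succ).eval e / e +
        (lam j.succ).eval e / (if j.succ = 0 then e else e ^ 2) * pt V e ξ (Sum.inl j.succ) *
          pt V e (fun l => (U (j + 1) l).eval e) (Sum.inr (b j.succ)) =
        ((σ (j + 1) j.succ).eval e + (lam j.succ).eval e * ξ j.succ *
          EE V e (b j.succ) fun l => (U (j + 1) l).eval e) / e := by
      simp only [pt, Sum.elim_inl, Sum.elim_inr, if_neg (Fin.succ_ne_zero j)]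
      field_simp
    rw [h13]
    exact div_ne_zero h12 h0
  · intro j w hw hw1 hw2 hw3
    obtain ⟨w, rfl, hw0⟩ := exists_pt h0 hw
    rw [h7 j w, pt_zero]
    · intro i hi
      have := hw1 i hi
      rw [Th_pt _ _ _ hξ'] at this
      exact (mul_eq_zero.1 this).resolve_left h0
    · intro i hi
      have := hw2 i hi
      rw [BB_pt _ _ _ hξ hξ'] at this
      exact (mul_eq_zero.1 this).resolve_left (hκ i)
    · rw [hw0, hw3]
  · intro j w hw hw1 hw2 hw3
    obtain ⟨w, rfl, hw0⟩ := exists_pt h0 hw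
    rw [h8 j w, pt_zero]
    · intro i hi
      have := hw1 i hi
      rw [Th_pt _ _ _ hξ'] at this
      exact (mul_eq_zero.1 this).resolve_left h0
    · intro i hi
      have := hw2 i hi
      rw [BB_pt _ _ _ hξ hξ'] at this
      exact (mul_eq_zero.1 this).resolve_left (hκ i)
    · rw [hw0, hw3]
  · intro i
    rw [hUn, pt_smul]
  · intro i
    rw [hTn, pt_smul]
  · intro i
    rw [hU00, pt_smul]
  · intro i
    rw [hT00, pt_smul]

end Main

end Pool.Agent.VGen
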