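import Pool.Agent.VGen.Defs
import Pool.Agent.DCI57.Relation

/-!
# Values of points at places
-/

set_option autoImplicit false

noncomputable section

namespace Pool.Agent.VGen

open Pool.Agent.ZCyc Pool.Agent.DCI57 Polynomial

universe u w

section Red

variable {k : Type u} [Field k] {I : Type} {v : Place k (Om k)}

theorem exists_red [IsAlgClosed k] [Fintype I] (v : Place k (Om k)) {P : I → Om k} (hP : P ≠ 0) :
    ∃ p, Red v P p := by
  classical
  obtain ⟨j₀, hj₀⟩ := Function.ne_iff.1 hP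
  obtain ⟨i, -, hi⟩ := Finset.exists_max_image Finset.univ (fun j => v.ring.valuation (P j))
    ⟨j₀, Finset.mem_univ j₀⟩
  have hxi : P i ≠ 0 := by
    intro h0
    have h1 := hi j₀ (Finset.mem_univ j₀)
    simp only [h0, map_zero] at h1
    exact hj₀ ((map_eq_zero _).1 (le_zero_iff.1 h1))
  have h2 : ∀ j, ∃ c : k, v.At (P j / P i) c := by
    intro j
    apply exists_at
    rw [← v.ring.valuation_le_one_iff, map_div₀]
    exact div_le_one_of_le₀ (hi j (Finset.mem_univ j)) zero_le
  choose c hc using h2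
  have hci : c i = 1 := by
    have h3 := hc i
    rw [div_self hxi] at h3
    exact h3.unique (by simpa using Place.at_const (v := v) (1 : k))
  refine ⟨c, ?_, (P i)⁻¹, fun j => ?_⟩
  · intro h0
    rw [h0] at hci
    exact zero_ne_one hci
  · have h3 : (P i)⁻¹ * P j = P j / P i := by
      rw [div_eq_mul_inv, mul_comm]
    rw [h3]
    exact hc j

private theorem red_ne {g x : Om k} {c : k} (h : v.At (g * x) c) (hc : c ≠ 0) :
    g ≠ 0 ∧ x ≠ 0 := by
  have h1 : g * x ≠ 0 := by
    intro h0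
    rw [h0] at h
    exact hc (h.unique (by simpa using Place.at_const (v := v) (0 : k)))
  exact ⟨left_ne_zero_of_mul h1, right_ne_zero_of_mul h1⟩

theorem Red.unique {P : I → Om k} {p p' : I → k} (h : Red v P p) (h' : Red v P p') :
    ∃ c : k, c ≠ 0 ∧ ∀ j, p' j = c * p j := by
  obtain ⟨hp, s, hs⟩ := h
  obtain ⟨hp', s', hs'⟩ := h'
  obtain ⟨i, hi⟩ := Function.ne_iff.1 hp
  obtain ⟨hs0, hxi⟩ := red_ne (hs i) hi
  have h2 : v.At (s' / s) (p' i / p i) := by
    have := (hs' i).div (hs i) hi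
    rwa [mul_div_mul_right _ _ hxi] at this
  have h3 : ∀ j, p' j = p' i / p i * p j := by
    intro j
    have h3 := h2.mul (hs j)
    have h4 : s' / s * (s * P j) = s' * P j := by
      field_simp
    rw [h4] at h3
    exact (hs' j).unique h3
  refine ⟨p' i / p i, ?_, h3⟩
  intro h0
  apply hp'
  funext j
  rw [h3 j, h0, zero_mul]
  rfl

theorem Red.pow {m : ℕ} {P : I → Om k} {p : I → k} (h : Red v P p) {u : Om k} {w : I → Om k}
    {w₀ : I → k} (hw : ∀ j, P j ^ m = u * w j) (hw₀ : ∀ j, v.At (w j) (w₀ j)) (hne : w₀ ≠ 0) :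
    ∃ c : k, c ≠ 0 ∧ ∀ j, p j ^ m = c * w₀ j := by
  obtain ⟨hp, s, hs⟩ := h
  obtain ⟨i, hi⟩ := Function.ne_iff.1 hne
  have hwi : w i ≠ 0 := by
    intro h0
    have h1 := hw₀ i
    rw [h0] at h1
    exact hi (h1.unique (by simpa using Place.at_const (v := v) (0 : k)))
  have h1 : ∀ j, v.At (s ^ m * u * w j) (p j ^ m) := by
    intro j
    have h2 := (hs j).pow m
    have h3 : (s * P j) ^ m = s ^ m * u * w j := by
      rw [mul_pow, hw j]
      ring
    rwa [h3] at h2
  have h2 : v.At (s ^ m * u) (p i ^ m / w₀ i) := by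
    have := (h1 i).div (hw₀ i) hi
    rwa [mul_div_cancel_right₀ _ hwi] at this
  have h3 : ∀ j, p j ^ m = p i ^ m / w₀ i * w₀ j := fun j => (h1 j).unique (h2.mul (hw₀ j))
  refine ⟨p i ^ m / w₀ i, ?_, h3⟩
  intro h0
  apply hp
  funext j
  have h4 := h3 j
  rw [h0, zero_mul] at h4
  exact eq_zero_of_pow_eq_zero h4

theorem Red.mul {P Q : I → Om k} {p q : I → k} (hp : Red v P p) (hq : Red v Q q) {i j : I}
    {g : Om k} {c : k} (hg : v.At g c) (h : P i * Q i = g * (P j * Q j)) :
    p i * q i = c * (p j * q j) := by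
  obtain ⟨-, s, hs⟩ := hp
  obtain ⟨-, s', hs'⟩ := hq
  have h1 := (hs i).mul (hs' i)
  have h2 := hg.mul ((hs j).mul (hs' j))
  have h3 : s * P i * (s' * Q i) = g * (s * P j * (s' * Q j)) := by
    linear_combination s * s' * h
  rw [h3] at h1
  exact h1.unique h2

theorem tt_transcendental (k : Type u) [Field k] : Transcendental k (tt k) := by
  unfold tt
  rw [transcendental_algebraMap_iff (algebraMap (RatFunc k) (Om k)).injective]
  exact RatFunc.transcendental_X

end Red

end Pool.Agent.VGen
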