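import Pool.Agent.VGen.Red
import Pool.Agent.VGen.SyLemmas

/-!
# The family over the quadratic
-/

set_option autoImplicit false

noncomputable section

namespace Pool.Agent.VGen

open Pool.Agent.ZCyc Polynomial

universe u

section StepA

variable {k : Type u} [Field k]

private lemma aeval_ne [IsAlgClosed k] {τ : Om k} (hτ : ∀ c : k, τ ≠ algebraMap k (Om k) c)
    {f : k[X]} (hf : f ≠ 0) : aeval τ f ≠ 0 := by
  intro h
  have h1 : (f.map (algebraMap k (Om k))).IsRoot τ := by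
    rw [IsRoot, eval_map_algebraMap, h]
  obtain ⟨c, hc⟩ := (IsAlgClosed.splits f).mem_range_of_isRoot hf h1
  exact hτ c hc.symm

private lemma tt_pow_ne {m : ℕ} (hm : 0 < m) {c d : k}
    (h : algebraMap k (Om k) c = tt k ^ m * algebraMap k (Om k) d) : d = 0 := by
  by_contra hd
  have h1 : aeval (tt k) (C d * X ^ m - C c) = 0 := by
    simp only [map_sub, map_mul, aeval_C, map_pow, aeval_X]
    rw [h]
    ring
  have h2 := (transcendental_iff.1 (tt_transcendental k)) _ h1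
  have h3 := congrArg (fun f => Polynomial.coeff f m) h2
  simp only [coeff_sub, coeff_C_mul, coeff_X_pow, if_true, coeff_C, coeff_zero, if_neg hm.ne',
    mul_one, sub_zero] at h3
  exact hd h3

private lemma quad {m : ℕ} (hm : 0 < m) {g : k} {D N : k[X]}
    (hD : D.natDegree ≤ 2) (hN : N.natDegree ≤ 2) (h0 : N.coeff 0 = D.coeff 0)
    (h2 : N.coeff 2 = D.coeff 2) (h22 : D.coeff 2 ≠ 0) :
    ∃ τ₁ τ₂ : Om k, (τ₁ * τ₂ = algebraMap k (Om k) (D.coeff 0 / D.coeff 2)) ∧
      (tt k ^ m - algebraMap k (Om k) (g ^ m)) * algebraMap k (Om k) (D.coeff 2) * (τ₁ + τ₂) =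
        algebraMap k (Om k) (g ^ m * N.coeff 1) - tt k ^ m * algebraMap k (Om k) (D.coeff 1) ∧
      (tt k ^ m * aeval τ₁ D = algebraMap k (Om k) (g ^ m) * aeval τ₁ N) ∧
      (tt k ^ m * aeval τ₂ D = algebraMap k (Om k) (g ^ m) * aeval τ₂ N) := by
  have hT : tt k ^ m - algebraMap k (Om k) (g ^ m) ≠ 0 := by
    intro h
    have h1 : algebraMap k (Om k) (g ^ m) = tt k ^ m * algebraMap k (Om k) 1 := by
      rw [map_one, mul_one]
      exact (sub_eq_zero.1 h).symm
    exact one_ne_zero (tt_pow_ne hm h1)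
  have hD2 : algebraMap k (Om k) (D.coeff 2) ≠ 0 := by simpa using h22
  set p : Om k := (algebraMap k (Om k) (g ^ m * N.coeff 1) -
    tt k ^ m * algebraMap k (Om k) (D.coeff 1)) /
      ((tt k ^ m - algebraMap k (Om k) (g ^ m)) * algebraMap k (Om k) (D.coeff 2)) with hp
  set q : Om k := algebraMap k (Om k) (D.coeff 0 / D.coeff 2) with hq
  obtain ⟨τ, hτ⟩ : ∃ τ : Om k, τ * (p - τ) = q := by
    obtain ⟨x, hx⟩ := IsAlgClosed.exists_root (X ^ 2 - C p * X + C q : (Om k)[X]) (by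
      have : (X ^ 2 - C p * X + C q : (Om k)[X]).degree = 2 := by
        compute_degree!
      rw [this]
      norm_num)
    refine ⟨x, ?_⟩
    simp only [IsRoot, eval_add, eval_sub, eval_pow, eval_X, eval_mul, eval_C] at hx
    linear_combination -hx
  have hval : ∀ x : Om k, x * (p - x) = q →
      tt k ^ m * aeval x D = algebraMap k (Om k) (g ^ m) * aeval x N := by
    intro x hx
    have e1 : aeval x D = algebraMap k (Om k) (D.coeff 0) + algebraMap k (Om k) (D.coeff 1) * x +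
        algebraMap k (Om k) (D.coeff 2) * x ^ 2 := by
      rw [aeval_eq_sum_range' (Nat.lt_succ_of_le hD)]
      simp only [Finset.sum_range_succ, Finset.sum_range_zero, Algebra.smul_def]
      ring
    have e2 : aeval x N = algebraMap k (Om k) (D.coeff 0) + algebraMap k (Om k) (N.coeff 1) * x +
        algebraMap k (Om k) (D.coeff 2) * x ^ 2 := by
      rw [aeval_eq_sum_range' (Nat.lt_succ_of_le hN)]
      simp only [Finset.sum_range_succ, Finset.sum_range_zero, Algebra.smul_def, h0, h2]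
      ring
    have e3 : p * ((tt k ^ m - algebraMap k (Om k) (g ^ m)) * algebraMap k (Om k) (D.coeff 2)) =
        algebraMap k (Om k) (g ^ m * N.coeff 1) - tt k ^ m * algebraMap k (Om k) (D.coeff 1) := by
      rw [hp]
      exact div_mul_cancel₀ _ (mul_ne_zero hT hD2)
    have e4 : q * algebraMap k (Om k) (D.coeff 2) = algebraMap k (Om k) (D.coeff 0) := by
      rw [hq, ← map_mul, div_mul_cancel₀ _ h22]
    rw [map_mul] at e3
    rw [e1, e2, ← e4, ← hx]
    clear_value p q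
    linear_combination x * e3
  refine ⟨τ, p - τ, hτ, ?_, hval τ hτ, hval (p - τ) ?_⟩
  · rw [add_sub_cancel, hp, mul_div_cancel₀ _ (mul_ne_zero hT hD2)]
  · rw [← hτ]
    ring


section Family

variable {m n r : ℕ} {V : Fin r → Fin (n + 1) → k} {b : Fin (n + 1) → Fin r}

private lemma family [IsAlgClosed k] (hm : 0 < m) {j : Fin (n + 1)} {y z : Ix n r → k}
    (hy0 : ∀ i, y i ≠ 0) {w : Ix n r → k[X]} (hw0 : ∀ i, w i ≠ 0) {γ : Fin (n + 1) → k}
    (hB : ∀ i, i ≠ j → (C (y (Sum.inl i)) + C (z (Sum.inl i)) * X) * w (Sum.inl i) =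
      C (γ i ^ m) * ((C (y (Sum.inr (b i))) + C (z (Sum.inr (b i))) * X) * w (Sum.inr (b i))))
    {D N : k[X]} (hD0 : D ≠ 0)
    (hDN : (C (y (Sum.inl j)) + C (z (Sum.inl j)) * X) * w (Sum.inl j) * D =
      C (γ j ^ m) * ((C (y (Sum.inr (b j))) + C (z (Sum.inr (b j))) * X) * w (Sum.inr (b j))) * N)
    {τ : Om k} (hτ : ∀ c : k, τ ≠ algebraMap k (Om k) c)
    (hF : tt k ^ m * aeval τ D = algebraMap k (Om k) (γ j ^ m) * aeval τ N) :
    ∃ P Q : Ix n r → Om k,
      (∀ i, P i ^ m = algebraMap k (Om k) (y i) + τ * algebraMap k (Om k) (z i)) ∧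
      (∀ i, Q i ^ m = aeval τ (w i)) ∧ (∀ i, P i ≠ 0) ∧ (∀ i, Q i ≠ 0) ∧
      ∀ i, P (Sum.inl i) * Q (Sum.inl i) = (if i = j then tt k else algebraMap k (Om k) (γ i)) *
        (P (Sum.inr (b i)) * Q (Sum.inr (b i))) := by
  classical
  have hyz : ∀ i, C (y i) + C (z i) * X ≠ (0 : k[X]) := by
    intro i h
    have := congrArg (fun f => coeff f 0) h
    simp at this
    exact hy0 i this
  have hyz' : ∀ i, aeval τ (C (y i) + C (z i) * X) =
      algebraMap k (Om k) (y i) + τ * algebraMap k (Om k) (z i) := by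
    intro i
    simp only [map_add, map_mul, aeval_C, aeval_X]
    ring
  have hyz0 : ∀ i, algebraMap k (Om k) (y i) + τ * algebraMap k (Om k) (z i) ≠ 0 := by
    intro i
    rw [← hyz']
    exact aeval_ne hτ (hyz i)
  have hwτ : ∀ i, aeval τ (w i) ≠ 0 := fun i => aeval_ne hτ (hw0 i)
  have hDτ : aeval τ D ≠ 0 := aeval_ne hτ hD0
  choose P hP using fun i => IsAlgClosed.exists_pow_nat_eq
    (algebraMap k (Om k) (y i) + τ * algebraMap k (Om k) (z i)) hm
  choose Q₀ hQ₀ using fun s => IsAlgClosed.exists_pow_nat_eq (aeval τ (w (Sum.inr s : Ix n r))) hm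
  have hP0 : ∀ i, P i ≠ 0 := by
    intro i h
    apply hyz0 i
    rw [← hP, h, zero_pow hm.ne']
  set G : Fin (n + 1) → Om k := fun i => if i = j then tt k else algebraMap k (Om k) (γ i)
    with hG
  set Q : Ix n r → Om k := Sum.elim (fun i => G i * (P (Sum.inr (b i)) * Q₀ (b i)) /
    P (Sum.inl i)) Q₀ with hQ
  have hQm : ∀ i, Q i ^ m = aeval τ (w i) := by
    rintro (i | s)
    · have e1 : Q (Sum.inl i) ^ m = G i ^ m * ((algebraMap k (Om k) (y (Sum.inr (b i))) +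
          τ * algebraMap k (Om k) (z (Sum.inr (b i)))) * aeval τ (w (Sum.inr (b i)))) /
            (algebraMap k (Om k) (y (Sum.inl i)) + τ * algebraMap k (Om k) (z (Sum.inl i))) := by
        rw [hQ, Sum.elim_inl, div_pow, mul_pow, mul_pow, hP, hP, hQ₀]
      rw [e1, div_eq_iff (hyz0 _)]
      by_cases hij : i = j
      · subst hij
        have e2 := congrArg (aeval τ) hDN
        simp only [map_mul, hyz', aeval_C] at e2
        have e3 : G i = tt k := by simp [hG]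
        rw [e3]
        apply mul_right_cancel₀ hDτ
        linear_combination ((algebraMap k (Om k) (y (Sum.inr (b i))) +
          τ * algebraMap k (Om k) (z (Sum.inr (b i)))) * aeval τ (w (Sum.inr (b i)))) * hF - e2
      · have e2 := congrArg (aeval τ) (hB i hij)
        simp only [map_mul, hyz', aeval_C] at e2
        have e3 : G i = algebraMap k (Om k) (γ i) := by simp [hG, hij]
        rw [e3, ← map_pow]
        linear_combination -e2
    · exact hQ₀ s
  refine ⟨P, Q, hP, hQm, hP0, ?_, ?_⟩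
  · intro i h
    apply hwτ i
    rw [← hQm, h, zero_pow hm.ne']
  · intro i
    simp only [hQ, Sum.elim_inl, Sum.elim_inr]
    rw [mul_div_cancel₀ _ (hP0 _)]

end Family

section Values

variable [IsAlgClosed k] {m n r : ℕ} {a : Ix n r → ℕ}
  {V : Fin r → Fin (n + 1) → k} {W : Type*} [AddCommGroup W]
  {sy : (Ix n r → k) → (Ix n r → k) → W} {b : Fin (n + 1) → Fin r}

omit [IsAlgClosed k] in
private lemma ne_zero_of_forall {x : Ix n r → k} (h : ∀ i, x i ≠ 0) : x ≠ 0 := by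
  intro h0
  exact h (Sum.inl 0) (congrFun h0 _)

private lemma value_zero (hsy : IsSy m a V sy) (hm : 0 < m)
    (ha : ∀ s, m ∣ a (Sum.inr s) + ∑ i with b i = s, a (Sum.inl i)) {j : Fin (n + 1)}
    {y z y' : Ix n r → k} (hy0 : ∀ i, y i ≠ 0) (hy0' : ∀ i, y' i ≠ 0)
    {w : Ix n r → k[X]} {γ : Fin (n + 1) → k} {α : k} (hα : α ≠ 0)
    (hα' : ∀ i, (w i).coeff 0 = α * y' i)
    {p q : Ix n r → k} (hp : ∀ i, p i ^ m = y i) (hq : ∀ i, q i ^ m = y' i)
    (hpq : ∀ i, p (Sum.inl i) * q (Sum.inl i) = γ i * (p (Sum.inr (b i)) * q (Sum.inr (b i))))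
    {τ : Om k} {P Q : Ix n r → Om k}
    (hP : ∀ i, P i ^ m = algebraMap k (Om k) (y i) + τ * algebraMap k (Om k) (z i))
    (hQ : ∀ i, Q i ^ m = aeval τ (w i))
    (hPQ : ∀ i, P (Sum.inl i) * Q (Sum.inl i) =
      (if i = j then tt k else algebraMap k (Om k) (γ i)) *
        (P (Sum.inr (b i)) * Q (Sum.inr (b i))))
    {v : Place k (Om k)} (hT : v.At (tt k) (γ j)) (hτ : v.Vanishes τ) {p₁ q₁ : Ix n r → k}
    (h1 : Red v P p₁) (h2 : Red v Q q₁) : sy p₁ q₁ = sy p q := by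
  have hτ0 : v.At τ 0 := Place.at_zero_iff.2 hτ
  obtain ⟨c, hc, hc'⟩ := h1.pow (m := m) (u := 1)
    (w := fun i => algebraMap k (Om k) (y i) + τ * algebraMap k (Om k) (z i)) (w₀ := y)
    (fun i => by rw [hP, one_mul])
    (fun i => by
      have := (Place.at_const (v := v) (y i)).add (hτ0.mul (Place.at_const (v := v) (z i)))
      simpa using this)
    (ne_zero_of_forall hy0)
  obtain ⟨d, hd, hd'⟩ := h2.pow (m := m) (u := 1)
    (w := fun i => aeval τ (w i)) (w₀ := fun i => α * y' i)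
    (fun i => by rw [hQ, one_mul])
    (fun i => by
      have := hτ0.aeval (w i)
      rwa [← coeff_zero_eq_eval_zero, hα'] at this)
    (ne_zero_of_forall fun i => mul_ne_zero hα (hy0' i))
  refine hsy.congr hm ha (p := p) (q := q) (α := c) (β := d * α) ?_ ?_ hc (mul_ne_zero hd hα)
    ?_ ?_ hpq ?_
  · intro i h
    apply hy0 i
    rw [← hp, h, zero_pow hm.ne']
  · intro i h
    apply hy0' i
    rw [← hq, h, zero_pow hm.ne']
  · intro i
    rw [hc', hp]
  · intro i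
    rw [hd', hq, mul_assoc]
  · intro i
    refine Red.mul h1 h2 (g := if i = j then tt k else algebraMap k (Om k) (γ i)) ?_ (hPQ i)
    by_cases hij : i = j
    · rw [if_pos hij, hij]
      exact hT
    · rw [if_neg hij]
      exact Place.at_const _

private lemma value_inf (hsy : IsSy m a V sy) (hm : 0 < m)
    (ha : ∀ s, m ∣ a (Sum.inr s) + ∑ i with b i = s, a (Sum.inl i)) {j : Fin (n + 1)}
    {y z z' : Ix n r → k} (hz0 : ∀ i, z i ≠ 0) (hz0' : ∀ i, z' i ≠ 0)
    {w : Ix n r → k[X]} {γ : Fin (n + 1) → k} {d : ℕ} (hd : ∀ i, (w i).natDegree ≤ d) {β : k}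
    (hβ : β ≠ 0) (hβ' : ∀ i, (w i).coeff d = β * z' i)
    {p q : Ix n r → k} (hp : ∀ i, p i ^ m = z i) (hq : ∀ i, q i ^ m = z' i)
    (hpq : ∀ i, p (Sum.inl i) * q (Sum.inl i) = γ i * (p (Sum.inr (b i)) * q (Sum.inr (b i))))
    {τ : Om k} {P Q : Ix n r → Om k}
    (hP : ∀ i, P i ^ m = algebraMap k (Om k) (y i) + τ * algebraMap k (Om k) (z i))
    (hQ : ∀ i, Q i ^ m = aeval τ (w i))
    (hPQ : ∀ i, P (Sum.inl i) * Q (Sum.inl i) =
      (if i = j then tt k else algebraMap k (Om k) (γ i)) *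
        (P (Sum.inr (b i)) * Q (Sum.inr (b i))))
    {v : Place k (Om k)} (hT : v.At (tt k) (γ j)) (hτ : v.Vanishes τ⁻¹) (hτ0 : τ ≠ 0)
    {p₁ q₁ : Ix n r → k} (h1 : Red v P p₁) (h2 : Red v Q q₁) : sy p₁ q₁ = sy p q := by
  have hτ' : v.At τ⁻¹ 0 := Place.at_zero_iff.2 hτ
  obtain ⟨c, hc, hc'⟩ := h1.pow (m := m) (u := τ)
    (w := fun i => algebraMap k (Om k) (z i) + τ⁻¹ * algebraMap k (Om k) (y i)) (w₀ := z)
    (fun i => by
      rw [hP, mul_add, ← mul_assoc, mul_inv_cancel₀ hτ0, one_mul, add_comm])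
    (fun i => by
      have := (Place.at_const (v := v) (z i)).add (hτ'.mul (Place.at_const (v := v) (y i)))
      simpa using this)
    (ne_zero_of_forall hz0)
  obtain ⟨e, he, he'⟩ := h2.pow (m := m) (u := τ ^ d)
    (w := fun i => aeval τ⁻¹ (reflect d (w i))) (w₀ := fun i => β * z' i)
    (fun i => by
      have := invertibleOfNonzero hτ0
      have := eval₂_reflect_mul_pow (algebraMap k (Om k)) τ d (w i) (hd i)
      rw [invOf_eq_inv] at this
      rw [hQ, aeval_def, aeval_def, ← this, mul_comm])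
    (fun i => by
      have := hτ'.aeval (reflect d (w i))
      rwa [← coeff_zero_eq_eval_zero, coeff_reflect, revAt_zero, hβ'] at this)
    (ne_zero_of_forall fun i => mul_ne_zero hβ (hz0' i))
  refine hsy.congr hm ha (p := p) (q := q) (α := c) (β := e * β) ?_ ?_ hc (mul_ne_zero he hβ)
    ?_ ?_ hpq ?_
  · intro i h
    apply hz0 i
    rw [← hp, h, zero_pow hm.ne']
  · intro i h
    apply hz0' i
    rw [← hq, h, zero_pow hm.ne']
  · intro i
    rw [hc', hp]
  · intro i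
    rw [he', hq, mul_assoc]
  · intro i
    refine Red.mul h1 h2 (g := if i = j then tt k else algebraMap k (Om k) (γ i)) ?_ (hPQ i)
    by_cases hij : i = j
    · rw [if_pos hij, hij]
      exact hT
    · rw [if_neg hij]
      exact Place.at_const _

omit [IsAlgClosed k] in
private lemma inL_add {y z : Ix n r → k} (hy : InL V y) (hz : InL V z) (τ : Om k) :
    InL (fun s l => algebraMap k (Om k) (V s l))
      (fun i => algebraMap k (Om k) (y i) + τ * algebraMap k (Om k) (z i)) := by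
  intro s
  simp only
  rw [hy s, hz s, map_sum, map_sum, Finset.mul_sum, ← Finset.sum_add_distrib]
  refine Finset.sum_congr rfl fun l _ => ?_
  simp only [map_mul]
  ring

omit [IsAlgClosed k] in
private lemma inL_aeval {w : Ix n r → k[X]} (hw : InL (fun s l => C (V s l)) w) (τ : Om k) :
    InL (fun s l => algebraMap k (Om k) (V s l)) (fun i => aeval τ (w i)) := by
  intro s
  simp only
  rw [hw s, map_sum]
  refine Finset.sum_congr rfl fun l _ => ?_
  simp only [map_mul, aeval_C]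

end Values

section Main

variable {k : Type u} [Field k] [IsAlgClosed k] [CharZero k] {m n r : ℕ} {a : Ix n r → ℕ}
  {V : Fin r → Fin (n + 1) → k} {W : Type*} [AddCommGroup W]
  {sy : (Ix n r → k) → (Ix n r → k) → W} {b : Fin (n + 1) → Fin r}

theorem step_A (hsy : IsSy m a V sy) (hm : 0 < m)
    (ha : ∀ s, m ∣ a (Sum.inr s) + ∑ i with b i = s, a (Sum.inl i)) {j : Fin (n + 1)}
    {y z y' z' : Ix n r → k} (hy : InL V y) (hz : InL V z) (hy0 : ∀ i, y i ≠ 0)
    (hz0 : ∀ i, z i ≠ 0) (hy0' : ∀ i, y' i ≠ 0) (hz0' : ∀ i, z' i ≠ 0)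
    {w : Ix n r → k[X]} (hw : InL (fun s l => C (V s l)) w) {γ : Fin (n + 1) → k}
    (hγ : ∀ i, γ i ≠ 0)
    (hB : ∀ i, i ≠ j → (C (y (Sum.inl i)) + C (z (Sum.inl i)) * X) * w (Sum.inl i) =
      C (γ i ^ m) * ((C (y (Sum.inr (b i))) + C (z (Sum.inr (b i))) * X) * w (Sum.inr (b i))))
    {D N : k[X]} (hD : D.natDegree ≤ 2) (hN : N.natDegree ≤ 2) (h0 : N.coeff 0 = D.coeff 0)
    (h00 : D.coeff 0 ≠ 0) (h2 : N.coeff 2 = D.coeff 2) (h22 : D.coeff 2 ≠ 0)
    (h1 : N.coeff 1 ≠ D.coeff 1)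
    (hDN : (C (y (Sum.inl j)) + C (z (Sum.inl j)) * X) * w (Sum.inl j) * D =
      C (γ j ^ m) * ((C (y (Sum.inr (b j))) + C (z (Sum.inr (b j))) * X) * w (Sum.inr (b j))) * N)
    {d : ℕ} (hd : ∀ i, (w i).natDegree ≤ d) {α β : k} (hα : α ≠ 0) (hβ : β ≠ 0)
    (hα' : ∀ i, (w i).coeff 0 = α * y' i) (hβ' : ∀ i, (w i).coeff d = β * z' i)
    {p q p' q' : Ix n r → k} (hp : ∀ i, p i ^ m = y i) (hq : ∀ i, q i ^ m = y' i)
    (hp' : ∀ i, p' i ^ m = z i) (hq' : ∀ i, q' i ^ m = z' i)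
    (hpq : ∀ i, p (Sum.inl i) * q (Sum.inl i) = γ i * (p (Sum.inr (b i)) * q (Sum.inr (b i))))
    (hpq' : ∀ i, p' (Sum.inl i) * q' (Sum.inl i) =
      γ i * (p' (Sum.inr (b i)) * q' (Sum.inr (b i)))) :
    sy p q + sy p' q' = 0 := by
  obtain ⟨τ₁, τ₂, hprod, hsum, hF₁, hF₂⟩ := quad hm (g := γ j) hD hN h0 h2 h22
  have hw0 : ∀ i, w i ≠ 0 := by
    intro i h
    have := hα' i
    rw [h, coeff_zero] at this
    exact mul_ne_zero hα (hy0' i) this.symm
  have hD0 : D ≠ 0 := by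
    rintro rfl
    exact h00 (coeff_zero 0)
  -- the parameters are not constant
  have hnc : ∀ τ : Om k, tt k ^ m * aeval τ D = algebraMap k (Om k) (γ j ^ m) * aeval τ N →
      ∀ c : k, τ ≠ algebraMap k (Om k) c := by
    intro τ hF c hc
    rw [hc, aeval_algebraMap_apply, aeval_algebraMap_apply, ← map_mul] at hF
    have hDc : aeval c D = 0 := tt_pow_ne hm hF.symm
    have hNc : aeval c N = 0 := by
      rw [hDc, map_zero, mul_zero] at hF
      have h3 : γ j ^ m * aeval c N = 0 := by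
        apply (algebraMap k (Om k)).injective
        rw [← hF, map_zero]
      rcases mul_eq_zero.1 h3 with h3 | h3
      · exact absurd h3 (pow_ne_zero _ (hγ j))
      · exact h3
    rw [aeval_eq_sum_range' (Nat.lt_succ_of_le hD)] at hDc
    rw [aeval_eq_sum_range' (Nat.lt_succ_of_le hN)] at hNc
    simp only [Finset.sum_range_succ, Finset.sum_range_zero, smul_eq_mul, h0, h2] at hDc hNc
    have h4 : (N.coeff 1 - D.coeff 1) * c = 0 := by linear_combination hNc - hDc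
    rcases mul_eq_zero.1 h4 with h4 | h4
    · exact h1 (sub_eq_zero.1 h4)
    · rw [h4] at hDc
      apply h00
      simpa using hDc
  obtain ⟨P₁, Q₁, hP₁, hQ₁, hP₁0, hQ₁0, hPQ₁⟩ := family hm hy0 hw0 hB hD0 hDN (hnc τ₁ hF₁) hF₁
  obtain ⟨P₂, Q₂, hP₂, hQ₂, hP₂0, hQ₂0, hPQ₂⟩ := family hm hy0 hw0 hB hD0 hDN (hnc τ₂ hF₂) hF₂
  have hne₁ : τ₁ ≠ 0 := by
    have := hnc τ₁ hF₁ 0
    rwa [map_zero] at this
  have hne₂ : τ₂ ≠ 0 := by
    have := hnc τ₂ hF₂ 0
    rwa [map_zero] at this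
  have hL₁ : InL (fun s l => algebraMap k (Om k) (V s l)) (fun i => P₁ i ^ m) := by
    simpa only [hP₁] using inL_add hy hz τ₁
  have hL₂ : InL (fun s l => algebraMap k (Om k) (V s l)) (fun i => P₂ i ^ m) := by
    simpa only [hP₂] using inL_add hy hz τ₂
  have hM₁ : InL (fun s l => algebraMap k (Om k) (V s l)) (fun i => Q₁ i ^ m) := by
    simpa only [hQ₁] using inL_aeval hw τ₁
  have hM₂ : InL (fun s l => algebraMap k (Om k) (V s l)) (fun i => Q₂ i ^ m) := by
    simpa only [hQ₂] using inL_aeval hw τ₂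
  refine hsy.bridge 2 1 ![P₁, P₂] ![Q₁, Q₂] ?_ ?_ ?_ ?_ (γ j) 0 _ ?_ ?_
  · intro i h
    fin_cases i
    · exact hP₁0 (Sum.inl 0) (congrFun h _)
    · exact hP₂0 (Sum.inl 0) (congrFun h _)
  · intro i h
    fin_cases i
    · exact hQ₁0 (Sum.inl 0) (congrFun h _)
    · exact hQ₂0 (Sum.inl 0) (congrFun h _)
  · intro i
    fin_cases i
    · exact hL₁
    · exact hL₂
  · intro i
    fin_cases i
    · exact hM₁
    · exact hM₂
  · intro v hv P₀ Q₀ hP₀ hQ₀
    refine ⟨1, one_pos, ?_⟩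
    have hP1 : Red v P₁ (P₀ 0) := hP₀ 0
    have hP2 : Red v P₂ (P₀ 1) := hP₀ 1
    have hQ1 : Red v Q₁ (Q₀ 0) := hQ₀ 0
    have hQ2 : Red v Q₂ (Q₀ 1) := hQ₀ 1
    have hnot : ¬ (τ₁ ∈ v.ring ∧ τ₂ ∈ v.ring) := by
      rintro ⟨hm1, hm2⟩
      have h3 : v.At (tt k ^ m - algebraMap k (Om k) (γ j ^ m)) 0 := by
        have := (hv.pow m).sub (Place.at_const (v := v) (γ j ^ m))
        rwa [sub_self] at this
      have h4 : v.Vanishes ((tt k ^ m - algebraMap k (Om k) (γ j ^ m)) *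
          algebraMap k (Om k) (D.coeff 2) * (τ₁ + τ₂)) :=
        Place.Vanishes.mul v (Place.Vanishes.mul v (Place.at_zero_iff.1 h3) (v.const_mem _))
          (v.ring.add_mem _ _ hm1 hm2)
      have h5 : v.At (algebraMap k (Om k) (γ j ^ m * N.coeff 1) -
          tt k ^ m * algebraMap k (Om k) (D.coeff 1))
          (γ j ^ m * N.coeff 1 - γ j ^ m * D.coeff 1) :=
        (Place.at_const _).sub ((hv.pow m).mul (Place.at_const _))
      rw [← hsum] at h5
      have h6 := h5.unique (Place.at_zero_iff.2 h4)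
      have h7 : γ j ^ m * (N.coeff 1 - D.coeff 1) = 0 := by linear_combination h6
      rcases mul_eq_zero.1 h7 with h7 | h7
      · exact pow_ne_zero _ (hγ j) h7
      · exact h1 (sub_eq_zero.1 h7)
    rw [Fin.sum_univ_two, one_smul]
    simp only [Pi.one_apply, one_smul]
    by_cases hm1 : τ₁ ∈ v.ring
    · have hm2 : τ₂ ∉ v.ring := fun h => hnot ⟨hm1, h⟩
      have hv2 : v.Vanishes τ₂⁻¹ := by
        rw [Place.vanishes_iff_or, inv_inv]
        exact Or.inr hm2
      have hv1 : v.Vanishes τ₁ := by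
        have e : τ₁ = algebraMap k (Om k) (D.coeff 0 / D.coeff 2) * τ₂⁻¹ := by
          rw [← hprod, mul_inv_cancel_right₀ hne₂]
        rw [e]
        exact Place.Vanishes.mul' v hv2 (v.const_mem _)
      rw [value_zero hsy hm ha hy0 hy0' hα hα' hp hq hpq hP₁ hQ₁ hPQ₁ hv hv1 hP1 hQ1,
        value_inf hsy hm ha hz0 hz0' hd hβ hβ' hp' hq' hpq' hP₂ hQ₂ hPQ₂ hv hv2 hne₂ hP2 hQ2]
    · have hv1 : v.Vanishes τ₁⁻¹ := by
        rw [Place.vanishes_iff_or, inv_inv]
        exact Or.inr hm1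
      have hv2 : v.Vanishes τ₂ := by
        have e : τ₂ = algebraMap k (Om k) (D.coeff 0 / D.coeff 2) * τ₁⁻¹ := by
          rw [← hprod, mul_comm τ₁, mul_inv_cancel_right₀ hne₁]
        rw [e]
        exact Place.Vanishes.mul' v hv1 (v.const_mem _)
      rw [value_zero hsy hm ha hy0 hy0' hα hα' hp hq hpq hP₂ hQ₂ hPQ₂ hv hv2 hP2 hQ2,
        value_inf hsy hm ha hz0 hz0' hd hβ hβ' hp' hq' hpq' hP₁ hQ₁ hPQ₁ hv hv1 hne₁ hP1 hQ1,
        add_comm]
  · intro v hv P₀ Q₀ hP₀ hQ₀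
    have hP1 : Red v P₁ (P₀ 0) := hP₀ 0
    have hP2 : Red v P₂ (P₀ 1) := hP₀ 1
    have hQ1 : Red v Q₁ (Q₀ 0) := hQ₀ 0
    have hQ2 : Red v Q₂ (Q₀ 1) := hQ₀ 1
    have key : ∀ {P Q : Ix n r → Om k} {p₁ q₁ : Ix n r → k}, Red v P p₁ → Red v Q q₁ →
        (∀ i, P (Sum.inl i) * Q (Sum.inl i) =
          (if i = j then tt k else algebraMap k (Om k) (γ i)) *
          (P (Sum.inr (b i)) * Q (Sum.inr (b i)))) → sy p₁ q₁ = 0 := by
      intro P Q p₁ q₁ hp₁ hq₁ h
      have h3 := h j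
      rw [if_pos rfl] at h3
      have h4 := Red.mul hp₁ hq₁ hv h3
      rw [zero_mul] at h4
      exact hsy.zero p₁ q₁ (Sum.inl j) (mul_eq_zero.1 h4)
    rw [Fin.sum_univ_two, key hP1 hQ1 hPQ₁, key hP2 hQ2 hPQ₂, smul_zero, smul_zero, add_zero]

end Main

end StepA

end Pool.Agent.VGen
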