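import Pool.Agent.VGen.Lin
import Pool.Agent.VGen.StepA

/-!
# The step
-/

set_option autoImplicit false

noncomputable section

namespace Pool.Agent.VGen

open Pool.Agent.ZCyc Polynomial

universe u w

section StepB

variable {k : Type u} [Field k] {n r : ℕ} {b : Fin (n + 1) → Fin r}

/-- the vector of the linear space with given free coordinates -/
private def ext {K : Type*} [CommRing K] (V : Fin r → Fin (n + 1) → K) (v : Fin (n + 1) → K) :
    Ix n r → K := Sum.elim v fun s => ∑ l, V s l * v l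

private lemma ext_inL {K : Type*} [CommRing K] (V : Fin r → Fin (n + 1) → K)
    (v : Fin (n + 1) → K) : InL V (ext V v) := fun _ => rfl

/-- constant polynomials -/
private def Cc (x : Ix n r → k) : Ix n r → k[X] := fun i => C (x i)

/-- the polynomials `y + z X` -/
private def lin (y z : Ix n r → k) : Ix n r → k[X] := fun i => C (y i) + C (z i) * X

/-- the rows of the system -/
private def row (V : Fin r → Fin (n + 1) → k) (b : Fin (n + 1) → Fin r)
    (P : Finset (Fin (n + 1))) (j : Fin (n + 1)) (x x' y z : Ix n r → k) (w : Ix n r → k[X])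
    (i : Fin (n + 1)) : k[X] :=
  if i = j then 0 else if i ∈ P then Th b (Cc x') i w else BB b (Cc x) (Cc x') i (lin y z) w

private def sys (V : Fin r → Fin (n + 1) → k) (b : Fin (n + 1) → Fin r)
    (P : Finset (Fin (n + 1))) (j : Fin (n + 1)) (x x' y z : Ix n r → k) :
    (Fin (n + 1) → k[X]) →ₗ[k[X]] (Fin (n + 1) → k[X]) where
  toFun v := row V b P j x x' y z (ext (fun s l => C (V s l)) v)
  map_add' := by
    intro v v'
    funext i
    simp only [row, Pi.add_apply]
    split_ifs with h1 h2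
    · ring
    · simp only [Th, ext, Sum.elim_inl, Sum.elim_inr, Pi.add_apply, mul_add,
        Finset.sum_add_distrib]
      ring
    · simp only [BB, ext, Sum.elim_inl, Sum.elim_inr, Pi.add_apply, mul_add,
        Finset.sum_add_distrib]
      ring
  map_smul' := by
    intro c v
    funext i
    have hs : ∀ s : Fin r, ∑ l, C (V s l) * (c * v l) = c * ∑ l, C (V s l) * v l := by
      intro s
      rw [Finset.mul_sum]
      exact Finset.sum_congr rfl fun l _ => by ring
    simp only [row, Pi.smul_apply, smul_eq_mul, RingHom.id_apply]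
    split_ifs with h1 h2
    · ring
    · simp only [Th, ext, Sum.elim_inl, Sum.elim_inr, Pi.smul_apply, smul_eq_mul, hs]
      ring
    · simp only [BB, ext, Sum.elim_inl, Sum.elim_inr, Pi.smul_apply, smul_eq_mul, hs]
      ring

/-- solution of the system -/
private lemma exists_sol (V : Fin r → Fin (n + 1) → k) (b : Fin (n + 1) → Fin r)
    (P : Finset (Fin (n + 1))) {j : Fin (n + 1)} (hj : j ∉ P) (x x' y z : Ix n r → k) :
    ∃ w : Ix n r → k[X], InL (fun s l => C (V s l)) w ∧
      (∀ i ∈ P, Th b (Cc x') i w = 0) ∧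
      (∀ i ∉ insert j P, BB b (Cc x) (Cc x') i (lin y z) w = 0) ∧
      (fun i => (w i).coeff 0) ≠ 0 := by
  obtain ⟨v, hv, hv0⟩ := exists_ker_eval (LinearMap.toMatrix' (sys V b P j x x' y z))
    (Matrix.det_eq_zero_of_row_eq_zero j fun l => by
      rw [LinearMap.toMatrix'_apply]
      simp [sys, row])
  rw [LinearMap.toMatrix'_mulVec] at hv
  refine ⟨ext (fun s l => C (V s l)) v, ext_inL _ _, ?_, ?_, ?_⟩
  · intro i hi
    have h1 := congrFun hv i
    have hij : i ≠ j := by
      rintro rfl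
      exact hj hi
    simpa [sys, row, hij, hi] using h1
  · intro i hi
    rw [Finset.mem_insert, not_or] at hi
    have h1 := congrFun hv i
    simpa [sys, row, hi.1, hi.2] using h1
  · intro h
    apply hv0
    funext i
    have h1 := congrFun h (Sum.inl i)
    simp only [ext, Sum.elim_inl, Pi.zero_apply] at h1
    rw [← coeff_zero_eq_eval_zero]
    exact h1

/-- the coefficients of a vector of polynomials -/
private lemma coeff_inL {V : Fin r → Fin (n + 1) → k} {w : Ix n r → k[X]}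
    (hw : InL (fun s l => C (V s l)) w) (d : ℕ) : InL V fun i => (w i).coeff d := by
  intro s
  change (w (Sum.inr s)).coeff d = ∑ l, V s l * (w (Sum.inl l)).coeff d
  rw [hw s, finsetSum_coeff]
  exact Finset.sum_congr rfl fun l _ => by rw [coeff_C_mul]

private lemma coeff_Th (x' : Ix n r → k) (i : Fin (n + 1)) (w : Ix n r → k[X]) (d : ℕ) :
    (Th b (Cc x') i w).coeff d = Th b x' i fun l => (w l).coeff d := by
  simp only [Th, Cc, coeff_sub, coeff_mul_C, coeff_C_mul]

private lemma coeff_BB_C (x x' y : Ix n r → k) (i : Fin (n + 1)) (w : Ix n r → k[X]) (d : ℕ) :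
    (BB b (Cc x) (Cc x') i (Cc y) w).coeff d = BB b x x' i y fun l => (w l).coeff d := by
  simp only [BB, Cc, coeff_sub, ← C_mul, coeff_C_mul]

private lemma BB_lin (x x' y z : Ix n r → k) (i : Fin (n + 1)) (w : Ix n r → k[X]) :
    BB b (Cc x) (Cc x') i (lin y z) w = BB b (Cc x) (Cc x') i (Cc y) w +
      X * BB b (Cc x) (Cc x') i (Cc z) w := by
  simp only [BB, Cc, lin]
  ring

private lemma inL_sub {V : Fin r → Fin (n + 1) → k} {w w' : Ix n r → k} (c : k) (h : InL V w)
    (h' : InL V w') : InL V fun i => w i - c * w' i := by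
  intro s
  change w (Sum.inr s) - c * w' (Sum.inr s) = ∑ l, V s l * (w (Sum.inl l) - c * w' (Sum.inl l))
  rw [h s, h' s, Finset.mul_sum, ← Finset.sum_sub_distrib]
  exact Finset.sum_congr rfl fun l _ => by ring

/-- a solution is a multiple of the given one -/
private lemma eq_mul {V : Fin r → Fin (n + 1) → k} {P : Finset (Fin (n + 1))} {j : Fin (n + 1)}
    {x x' y y' w : Ix n r → k} (hy0' : ∀ i, y' i ≠ 0) (hy' : InL V y')
    (hTy' : ∀ i ∈ P, Th b x' i y' = 0) (hBy : ∀ i ∉ insert j P, BB b x x' i y y' = 0)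
    (Uy : ∀ w, InL V w → (∀ i ∈ P, Th b x' i w = 0) →
      (∀ i ∉ insert j P, BB b x x' i y w = 0) → w (Sum.inl 0) = 0 → w = 0)
    (hw : InL V w) (hw1 : ∀ i ∈ P, Th b x' i w = 0)
    (hw2 : ∀ i ∉ insert j P, BB b x x' i y w = 0) (hw0 : w ≠ 0) :
    ∃ α : k, α ≠ 0 ∧ ∀ i, w i = α * y' i := by
  set α := w (Sum.inl 0) / y' (Sum.inl 0) with hα
  have h1 : (fun i => w i - α * y' i) = 0 := by
    apply Uy _ (inL_sub α hw hy')
    · intro i hi
      have e1 := hw1 i hi
      have e2 := hTy' i hi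
      simp only [Th] at e1 e2 ⊢
      linear_combination e1 - α * e2
    · intro i hi
      have e1 := hw2 i hi
      have e2 := hBy i hi
      simp only [BB] at e1 e2 ⊢
      linear_combination e1 - α * e2
    · change w (Sum.inl 0) - α * y' (Sum.inl 0) = 0
      rw [hα, div_mul_cancel₀ _ (hy0' _), sub_self]
  have h2 : ∀ i, w i = α * y' i := by
    intro i
    have := congrFun h1 i
    exact sub_eq_zero.1 this
  refine ⟨α, ?_, h2⟩
  intro h0
  apply hw0
  funext i
  rw [h2, h0, zero_mul]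
  rfl

private lemma quad_zero (u v w : k) : (C u * X ^ 2 + C v * X + C w : k[X]).coeff 0 = w := by
  simp

private lemma quad_one (u v w : k) : (C u * X ^ 2 + C v * X + C w : k[X]).coeff 1 = v := by
  simp [coeff_C]

private lemma quad_two (u v w : k) : (C u * X ^ 2 + C v * X + C w : k[X]).coeff 2 = u := by
  simp

private lemma quad_aux {xJ xB xJ' xB' yJ yB g : k} (n1 : xJ ≠ 0) (hyx : yJ * xB = xJ * yB)
    (hγj : xJ * xJ' = g * (xB * xB')) (s : k) : yJ * xJ' * s = yB * xB' * s * g := by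
  apply mul_left_cancel₀ n1
  linear_combination (yJ * s) * hγj + (s * g * xB') * hyx

end StepB

section Main

variable {k : Type u} [Field k] [IsAlgClosed k] [CharZero k] {m n r : ℕ} {a : Ix n r → ℕ}
  {V : Fin r → Fin (n + 1) → k} {W : Type*} [AddCommGroup W]
  {sy : (Ix n r → k) → (Ix n r → k) → W} {b : Fin (n + 1) → Fin r}

theorem step_B (hsy : IsSy m a V sy) (hm : 0 < m)
    (ha : ∀ s, m ∣ a (Sum.inr s) + ∑ i with b i = s, a (Sum.inl i)) {P : Finset (Fin (n + 1))}
    {j : Fin (n + 1)} (hj : j ∉ P) {x x' y z y' z' : Ix n r → k}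
    (hy : InL V y) (hz : InL V z) (hy' : InL V y') (hz' : InL V z')
    (hx0 : ∀ i, x i ≠ 0) (hx0' : ∀ i, x' i ≠ 0) (hy0 : ∀ i, y i ≠ 0)
    (hz0 : ∀ i, z i ≠ 0) (hy0' : ∀ i, y' i ≠ 0) (hz0' : ∀ i, z' i ≠ 0)
    {γ : Fin (n + 1) → k} (hγ : ∀ i, x (Sum.inl i) * x' (Sum.inl i) =
      γ i ^ m * (x (Sum.inr (b i)) * x' (Sum.inr (b i))))
    (hTy : ∀ i ∈ insert j P, Th b x i y = 0) (hTz : ∀ i ∈ P, Th b x i z = 0)
    (hTj : Th b x j z ≠ 0) {lam σ τ : Fin (n + 1) → k}
    (h5 : ∀ w, InL V w → ∑ i with i ∉ insert j P, lam i * BB b x x' i y w =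
      ∑ i ∈ insert j P, σ i * Th b x' i w)
    (h6 : ∀ w, InL V w → ∑ i with i ∉ P, lam i * BB b x x' i z w = ∑ i ∈ P, τ i * Th b x' i w)
    (hlam : lam j ≠ 0) (hσ : σ j ≠ 0)
    (hne : σ j + lam j * x (Sum.inl j) * y (Sum.inr (b j)) ≠ 0)
    (hTy' : ∀ i ∈ P, Th b x' i y' = 0) (hBy : ∀ i ∉ insert j P, BB b x x' i y y' = 0)
    (hTz' : ∀ i ∈ P, Th b x' i z' = 0) (hBz : ∀ i ∉ insert j P, BB b x x' i z z' = 0)
    (Uy : ∀ w, InL V w → (∀ i ∈ P, Th b x' i w = 0) →
      (∀ i ∉ insert j P, BB b x x' i y w = 0) → w (Sum.inl 0) = 0 → w = 0)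
    (Uz : ∀ w, InL V w → (∀ i ∈ P, Th b x' i w = 0) →
      (∀ i ∉ insert j P, BB b x x' i z w = 0) → w (Sum.inl 0) = 0 → w = 0)
    {p q p' q' : Ix n r → k} (hp : ∀ i, p i ^ m = y i) (hq : ∀ i, q i ^ m = y' i)
    (hp' : ∀ i, p' i ^ m = z i) (hq' : ∀ i, q' i ^ m = z' i)
    (hpq : ∀ i, p (Sum.inl i) * q (Sum.inl i) = γ i * (p (Sum.inr (b i)) * q (Sum.inr (b i))))
    (hpq' : ∀ i, p' (Sum.inl i) * q' (Sum.inl i) =
      γ i * (p' (Sum.inr (b i)) * q' (Sum.inr (b i)))) :
    sy p q + sy p' q' = 0 := by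
  obtain ⟨w, hwL, hwT, hwB, hw0⟩ := exists_sol V b P hj x x' y z
  -- the coefficients of the system
  have hcT : ∀ d, ∀ i ∈ P, Th b x' i (fun l => (w l).coeff d) = 0 := by
    intro d i hi
    rw [← coeff_Th, hwT i hi, coeff_zero]
  have hcB0 : ∀ i ∉ insert j P, BB b x x' i y (fun l => (w l).coeff 0) = 0 := by
    intro i hi
    have h1 := congrArg (fun f => coeff f 0) (hwB i hi)
    simp only [BB_lin, coeff_add, coeff_BB_C, coeff_X_mul_zero, add_zero, coeff_zero] at h1
    exact h1
  -- the value at zero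
  obtain ⟨α, hα, hαe⟩ := eq_mul hy0' hy' hTy' hBy Uy (coeff_inL hwL 0) (hcT 0) hcB0 hw0
  -- the leading coefficient
  set d := Finset.univ.sup fun i => (w i).natDegree with hd
  have hdle : ∀ i, (w i).natDegree ≤ d := fun i =>
    Finset.le_sup (f := fun i => (w i).natDegree) (Finset.mem_univ i)
  have hwd0 : (fun i => (w i).coeff d) ≠ 0 := by
    intro h
    obtain ⟨i, hi⟩ : ∃ i, w i ≠ 0 := by
      by_contra hcon
      push Not at hcon
      apply hw0
      funext i
      rw [hcon i]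
      simp
    obtain ⟨i₀, -, hi₀⟩ := Finset.exists_mem_eq_sup (Finset.univ : Finset (Ix n r))
      ⟨i, Finset.mem_univ i⟩ fun i => (w i).natDegree
    rw [← hd] at hi₀
    have h1 : w i₀ = 0 := by
      have h2 := congrFun h i₀
      simp only [Pi.zero_apply] at h2
      rw [hi₀] at h2
      exact leadingCoeff_eq_zero.1 h2
    have h3 : d = 0 := by rw [hi₀, h1, natDegree_zero]
    apply hw0
    funext l
    have := congrFun h l
    rw [h3] at this
    exact this
  have hcBd : ∀ i ∉ insert j P, BB b x x' i z (fun l => (w l).coeff d) = 0 := by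
    intro i hi
    have h1 := congrArg (fun f => coeff f (d + 1)) (hwB i hi)
    simp only [BB_lin, coeff_add, coeff_BB_C, coeff_X_mul, coeff_zero] at h1
    have h2 : (fun l => (w l).coeff (d + 1)) = 0 := by
      funext l
      exact coeff_eq_zero_of_natDegree_lt (Nat.lt_succ_of_le (hdle l))
    rw [h2] at h1
    have h3 : BB b x x' i y 0 = 0 := by simp [BB]
    rw [h3, zero_add] at h1
    exact h1
  obtain ⟨β, hβ, hβe⟩ := eq_mul hz0' hz' hTz' hBz Uz (coeff_inL hwL d) (hcT d) hcBd hwd0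
  -- the key relation
  have h5' : ∑ i with i ∉ insert j P, C (lam i) * BB b (Cc x) (Cc x') i (Cc y) w =
      ∑ i ∈ insert j P, C (σ i) * Th b (Cc x') i w := by
    ext d
    simp only [finsetSum_coeff, coeff_C_mul, coeff_BB_C, coeff_Th]
    exact h5 _ (coeff_inL hwL d)
  have h6' : ∑ i with i ∉ P, C (lam i) * BB b (Cc x) (Cc x') i (Cc z) w =
      ∑ i ∈ P, C (τ i) * Th b (Cc x') i w := by
    ext d
    simp only [finsetSum_coeff, coeff_C_mul, coeff_BB_C, coeff_Th]
    exact h6 _ (coeff_inL hwL d)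
  have hfil : (Finset.univ.filter fun i => i ∉ P) =
      insert j (Finset.univ.filter fun i => i ∉ insert j P) := by
    ext i
    simp only [Finset.mem_filter, Finset.mem_univ, true_and, Finset.mem_insert, not_or]
    constructor
    · intro h
      by_cases hij : i = j
      · exact Or.inl hij
      · exact Or.inr ⟨hij, h⟩
    · rintro (h | h)
      · rw [h]
        exact hj
      · exact h.2
  have hkey : X * (C (lam j) * BB b (Cc x) (Cc x') j (Cc z) w) =
      C (σ j) * Th b (Cc x') j w := by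
    have e1 : ∑ i ∈ P, C (σ i) * Th b (Cc x') i w = 0 :=
      Finset.sum_eq_zero fun i hi => by rw [hwT i hi, mul_zero]
    have e2 : ∑ i ∈ P, C (τ i) * Th b (Cc x') i w = 0 :=
      Finset.sum_eq_zero fun i hi => by rw [hwT i hi, mul_zero]
    have e3 : ∑ i with i ∉ insert j P, C (lam i) * BB b (Cc x) (Cc x') i (Cc y) w =
        -(X * ∑ i with i ∉ insert j P, C (lam i) * BB b (Cc x) (Cc x') i (Cc z) w) := by
      rw [← sub_eq_zero, sub_neg_eq_add, Finset.mul_sum, ← Finset.sum_add_distrib]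
      refine Finset.sum_eq_zero fun i hi => ?_
      have h1 := hwB i (Finset.mem_filter.1 hi).2
      rw [BB_lin] at h1
      linear_combination C (lam i) * h1
    rw [Finset.sum_insert hj, e1, add_zero, e3] at h5'
    rw [hfil, Finset.sum_insert (by simp), e2] at h6'
    linear_combination h5' + X * h6'
  -- abbreviations
  set xJ := x (Sum.inl j) with hxJ
  set xB := x (Sum.inr (b j)) with hxB
  set xJ' := x' (Sum.inl j) with hxJ'
  set xB' := x' (Sum.inr (b j)) with hxB'
  set yJ := y (Sum.inl j) with hyJ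
  set yB := y (Sum.inr (b j)) with hyB
  set zJ := z (Sum.inl j) with hzJ
  set zB := z (Sum.inr (b j)) with hzB
  have hγ0 : ∀ i, γ i ≠ 0 := by
    intro i h
    have h1 := hγ i
    rw [h, zero_pow hm.ne', zero_mul] at h1
    exact mul_ne_zero (hx0 _) (hx0' _) h1
  have hyx : yJ * xB = xJ * yB := by
    have := hTy j (Finset.mem_insert_self j P)
    simp only [Th] at this
    exact sub_eq_zero.1 this
  have hγj := hγ j
  rw [← hxJ, ← hxB, ← hxJ', ← hxB'] at hγj
  have hg : γ j ^ m ≠ 0 := pow_ne_zero _ (hγ0 j)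
  have hTj' : zJ * xB - xJ * zB ≠ 0 := hTj
  have n1 : xJ ≠ 0 := hx0 _
  have n2 : xB ≠ 0 := hx0 _
  have n3 : xJ' ≠ 0 := hx0' _
  have n4 : xB' ≠ 0 := hx0' _
  set s := σ j with hs
  set t := lam j with ht
  set g := γ j ^ m with hgd
  -- the two quadratic polynomials
  set D : k[X] := C (-(zB * xB' * t * xB * zJ)) * X ^ 2 +
    C (zB * xB' * s - yB * xB' * t * xB * zJ) * X + C (yB * xB' * s) with hD
  set N : k[X] := C (-(zJ * xJ' * t * xJ * zB) / g) * X ^ 2 +
    C ((zJ * xJ' * s - yJ * xJ' * t * xJ * zB) / g) * X + C (yJ * xJ' * s / g) with hN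
  have hDf : D = (C yB + C zB * X) * (C xB' * (C s - X * (C t * (C xB * C zJ)))) := by
    rw [hD]
    simp only [C_neg, C_mul, C_sub]
    ring
  have hNf : C g * N = (C yJ + C zJ * X) * (C xJ' * (C s - X * (C t * (C xJ * C zB)))) := by
    have e1 : C g * C (-(zJ * xJ' * t * xJ * zB) / g) = C (-(zJ * xJ' * t * xJ * zB)) := by
      rw [← C_mul, mul_div_cancel₀ _ hg]
    have e2 : C g * C ((zJ * xJ' * s - yJ * xJ' * t * xJ * zB) / g) =
        C (zJ * xJ' * s - yJ * xJ' * t * xJ * zB) := by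
      rw [← C_mul, mul_div_cancel₀ _ hg]
    have e3 : C g * C (yJ * xJ' * s / g) = C (yJ * xJ' * s) := by
      rw [← C_mul, mul_div_cancel₀ _ hg]
    rw [hN, mul_add, mul_add, ← mul_assoc, ← mul_assoc, e1, e2, e3]
    simp only [C_neg, C_mul, C_sub]
    ring
  have hrel : w (Sum.inl j) * (C xB' * (C s - X * (C t * (C xB * C zJ)))) =
      w (Sum.inr (b j)) * (C xJ' * (C s - X * (C t * (C xJ * C zB)))) := by
    simp only [BB, Th, Cc] at hkey
    rw [← hxJ, ← hxB, ← hxJ', ← hxB', ← hzJ, ← hzB] at hkey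
    linear_combination -hkey
  refine step_A (j := j) hsy hm ha hy hz hy0 hz0 hy0' hz0' hwL hγ0 ?_ (D := D) (N := N)
    natDegree_quadratic_le natDegree_quadratic_le ?_ ?_ ?_ ?_ ?_ ?_ hdle hα hβ hαe hβe hp hq hp'
    hq' hpq hpq'
  · -- the relation for the other coordinates
    intro i hij
    have hγi := hγ i
    have nb := hx0 (Sum.inr (b i))
    have nb' := hx0' (Sum.inr (b i))
    have hCγ : C (x (Sum.inl i)) * C (x' (Sum.inl i)) =
        C (γ i ^ m) * (C (x (Sum.inr (b i))) * C (x' (Sum.inr (b i)))) := by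
      rw [← C_mul, hγi, C_mul, C_mul]
    have hcan : C (x (Sum.inr (b i))) * C (x' (Sum.inr (b i))) ≠ (0 : k[X]) := by
      rw [← C_mul]
      exact C_ne_zero.2 (mul_ne_zero nb nb')
    apply mul_left_cancel₀ hcan
    by_cases hiP : i ∈ P
    · have a1 := hTy i (Finset.mem_insert_of_mem hiP)
      have a2 := hTz i hiP
      have a3 := hwT i hiP
      simp only [Th, Cc] at a1 a2 a3
      have b1 := congrArg (C : k → k[X]) (sub_eq_zero.1 a1)
      have b2 := congrArg (C : k → k[X]) (sub_eq_zero.1 a2)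
      rw [C_mul, C_mul] at b1 b2
      linear_combination (w (Sum.inl i) * C (x' (Sum.inr (b i)))) * b1 +
        (w (Sum.inl i) * C (x' (Sum.inr (b i))) * X) * b2 +
        (C (x (Sum.inl i)) * (C (y (Sum.inr (b i))) + C (z (Sum.inr (b i))) * X)) * a3 +
        ((C (y (Sum.inr (b i))) + C (z (Sum.inr (b i))) * X) * w (Sum.inr (b i))) * hCγ
    · have a1 := hwB i (by rw [Finset.mem_insert, not_or]; exact ⟨hij, hiP⟩)
      simp only [BB, Cc, lin] at a1
      linear_combination a1 +
        ((C (y (Sum.inr (b i))) + C (z (Sum.inr (b i))) * X) * w (Sum.inr (b i))) * hCγ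
  · rw [hD, hN, quad_zero, quad_zero, div_eq_iff hg]
    exact quad_aux n1 hyx hγj s
  · rw [hD, quad_zero]
    exact mul_ne_zero (mul_ne_zero (hy0 _) n4) hσ
  · rw [hD, hN, quad_two, quad_two, div_eq_iff hg]
    linear_combination (-(zJ * t * zB)) * hγj
  · rw [hD, quad_two, neg_ne_zero]
    exact mul_ne_zero (mul_ne_zero (mul_ne_zero (mul_ne_zero (hz0 _) n4) hlam) n2) (hz0 _)
  · rw [hD, hN, quad_one, quad_one]
    intro h
    rw [div_eq_iff hg] at h
    have h1 : xB' * (zJ * xB - xJ * zB) * (s + t * xJ * yB) * g = 0 := by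
      linear_combination xJ * h - (zJ * s - yJ * t * xJ * zB) * hγj +
        (g * xB' * t * xJ * zB) * hyx
    exact mul_ne_zero (mul_ne_zero (mul_ne_zero n4 hTj') hne) hg h1
  · rw [hDf]
    have e1 : C (γ j ^ m) * ((C (y (Sum.inr (b j))) + C (z (Sum.inr (b j))) * X) *
        w (Sum.inr (b j))) * N = (C yB + C zB * X) * w (Sum.inr (b j)) * (C g * N) := by
      rw [hgd, hyB, hzB]
      ring
    rw [e1, hNf]
    linear_combination ((C yB + C zB * X) * (C yJ + C zJ * X)) * hrel

end Main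

end Pool.Agent.VGen
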