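import Pool.Agent.VGen.Ext
import Pool.Agent.VGen.Bridge
import Pool.Agent.VGen.Frame

/-!
# The exchange of the two factors for diagonal complete intersections in general position
-/

set_option autoImplicit false

noncomputable section

namespace Pool.Agent.VGen

open Pool.Agent.ZCyc Pool.Agent.DCI57 Pool.Agent.VCI
open scoped LinearAlgebra.Projectivization

universe u w

variable {k : Type u} [Field k] [IsAlgClosed k] [CharZero k] {J : Type} [Fintype J]
  [DecidableEq J] {m : ℕ} [NeZero m] {R : Type w} [Field R] [CharZero R] {n r : ℕ}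

/-- the classes have the properties `IsSy` -/
theorem isSy_syJ (e : Ix n r ≃ J) {ζ : kˣ} (hζ : IsPrimitiveRoot (ζ : k) m) {ω : R}
    (hω : IsPrimitiveRoot ω m) {ψ : AddChar (J → ZMod m) R} {a : Ix n r → ℕ}
    (hψ : ∀ t, ψ t = ω ^ (∑ j, (a (e.symm j) : ZMod m) * t j).val) (hψ0 : ∀ i, ¬ m ∣ a i)
    {c : Fin r → J → k} {V : Fin r → Fin (n + 1) → k}
    (hV : ∀ i l, c i (e (Sum.inl l)) + ∑ s, c i (e (Sum.inr s)) * V s l = 0) :
    IsSy m a V (syJ e ζ ψ (Diag m c)) := by
  have hζ1 : ζ ^ m = 1 := by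
    apply Units.ext
    push_cast
    exact hζ.pow_eq_one
  have hψ1 : ∀ j, ψ (Pi.single j 1) ≠ 1 := by
    intro j h
    have h1 : ∑ i, (a (e.symm i) : ZMod m) * (Pi.single j (1 : ZMod m) : J → ZMod m) i =
        (a (e.symm j) : ZMod m) := by
      rw [Finset.sum_eq_single j]
      · rw [Pi.single_eq_same, mul_one]
      · intro i _ hi
        rw [Pi.single_eq_of_ne hi, mul_zero]
      · intro h2
        exact absurd (Finset.mem_univ j) h2
    rw [hψ, h1, hω.pow_eq_one_iff_dvd] at h
    by_cases hm : 1 < m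
    · have : Fact (1 < m) := ⟨hm⟩
      have h2 := Nat.eq_zero_of_dvd_of_lt h (ZMod.val_lt _)
      rw [ZMod.val_eq_zero, ZMod.natCast_eq_zero_iff] at h2
      exact hψ0 _ h2
    · have h2 : m = 1 := by
        have := NeZero.pos m
        omega
      apply hψ0 (e.symm j)
      rw [h2]
      exact one_dvd _
  have hX : ∀ {K : Type u} [Field K] [Algebra k K] {z : Ix n r → K},
      InL (fun s l => algebraMap k K (V s l)) z →
      ∀ i, ∑ j, algebraMap k K (c i j) * z (e.symm j) = 0 := by
    intro K _ _ z hz i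
    have h1 : ∑ j, algebraMap k K (c i j) * z (e.symm j) =
        ∑ x, algebraMap k K (c i (e x)) * z x := by
      rw [← Equiv.sum_comp e]
      exact Finset.sum_congr rfl fun x _ => by rw [Equiv.symm_apply_apply]
    rw [h1, Fintype.sum_sum_type]
    have h2 : ∀ s, algebraMap k K (c i (e (Sum.inr s))) * z (Sum.inr s) =
        ∑ l, algebraMap k K (c i (e (Sum.inr s)) * V s l) * z (Sum.inl l) := by
      intro s
      rw [hz s, Finset.mul_sum]
      refine Finset.sum_congr rfl fun l _ => ?_
      rw [map_mul]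
      ring
    rw [Finset.sum_congr rfl fun s _ => h2 s, Finset.sum_comm, ← Finset.sum_add_distrib]
    refine Finset.sum_eq_zero fun l _ => ?_
    rw [← Finset.sum_mul, ← add_mul, ← map_sum, ← map_add, hV, map_zero, zero_mul]
  constructor
  · intro c' d p q hc hd
    exact syJ_smul e ζ ψ _ hc hd p q
  · intro p q j h
    exact syJ_zero e hζ1 hψ1 _ h
  · intro t t' p q ht ht' h
    exact syJ_rot e hζ hω hψ _ ht ht' h
  · intro N ε P Q hP hQ hPL hQL c₀ c₁ s₀ h₀ h₁
    exact syJ_bridge e hζ1 ψ N ε P Q hP hQ (fun i l => hX (hPL i) l) (fun i l => hX (hQL i) l)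
      c₀ c₁ s₀ h₀ h₁

/-- **The exchange of the two factors**: all `r × r` minors of the coefficients are nonzero, the
exponents of the character are not zero and can be divided into `r` blocks with sum zero. -/
theorem swap_gen {ζ : kˣ} (hζ : IsPrimitiveRoot (ζ : k) m) {c : Fin r → J → k}
    (hc : ∀ f : Fin r → J, Function.Injective f → (Matrix.of fun i s => c i (f s)).det ≠ 0)
    (hJ : Fintype.card J = n + r + 1) {a : J → ZMod m} (ha : ∀ j, a j ≠ 0) {B : J → Fin r}
    (hB : Function.Surjective B) (hsum : ∀ s, ∑ j with B j = s, a j = 0) {ω : R}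
    (hω : IsPrimitiveRoot ω m) {ψ : AddChar (J → ZMod m) R}
    (hψ : ∀ t, ψ t = ω ^ (∑ j, a j * t j).val) {p q : ℙ k (J → k)} (hp : p ∈ Diag m c)
    (hq : q ∈ Diag m c) :
    op2 ζ ψ ψ (Finsupp.single (p, q) 1) - (-1 : R) ^ n • op2 ζ ψ ψ (Finsupp.single (q, p) 1) ∈
      ratEquiv2 R (Diag m c) := by
  obtain ⟨e, V, heB, hV0, hcV, hdiag⟩ := exists_frame hc hJ hB
  have hm : 0 < m := NeZero.pos m
  have hcast : ∀ j, (((a j).val : ℕ) : ZMod m) = a j := fun j => ZMod.natCast_zmod_val _
  have hsy := isSy_syJ e hζ hω (ψ := ψ) (a := fun i => (a (e i)).val) (c := c) (V := V)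
    (fun t => by
      rw [hψ]
      simp only [Equiv.apply_symm_apply, hcast]) (fun i h => by
      apply ha (e i)
      rw [← ZMod.natCast_eq_zero_iff, hcast] at h
      exact h) hcV
  have hb : ∀ s, m ∣ (fun i => (a (e i)).val) (Sum.inr s) +
      ∑ i with (fun i => B (e (Sum.inl i))) i = s, (fun i => (a (e i)).val) (Sum.inl i) := by
    intro s
    rw [← ZMod.natCast_eq_zero_iff]
    push_cast
    simp only [hcast]
    rw [← hsum s, Finset.sum_filter, Finset.sum_filter,
      ← Equiv.sum_comp e (fun j => if B j = s then a j else 0), Fintype.sum_sum_type, add_comm]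
    congr 1
    simp only [heB]
    rw [Finset.sum_ite_eq' Finset.univ s, if_pos (Finset.mem_univ s)]
  have key := swap_abs (b := fun i => B (e (Sum.inl i))) hsy hm hb hV0
    (p := fun i => p.rep (e i)) (q := fun i => q.rep (e i)) (hdiag _ fun i => by
      have := hp i
      simpa using this) (hdiag _ fun i => by
      have := hq i
      simpa using this)
  rw [syJ_rep, syJ_rep] at key
  have h1 : (ratEquiv2 R (Diag m c)).mkQ (op2 ζ ψ ψ (Finsupp.single (p, q) 1) -
      (-1 : R) ^ n • op2 ζ ψ ψ (Finsupp.single (q, p) 1)) = 0 := by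
    rw [map_sub, map_smul, key, sub_eq_zero]
    rcases Nat.even_or_odd n with h | h
    · rw [h.neg_one_pow, h.neg_one_pow, one_smul, one_smul]
    · rw [h.neg_one_pow, h.neg_one_pow, neg_smul, one_smul, neg_smul, one_smul]
  rwa [Submodule.mkQ_apply, Submodule.Quotient.mk_eq_zero] at h1

end Pool.Agent.VGen
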