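import Pool.Agent.VGen.Defs

/-!
# The scaled forms over the polynomial ring
-/

set_option autoImplicit false

noncomputable section

namespace Pool.Agent.VGen

open Polynomial

universe u

variable {k : Type u} [Field k] {n r : ℕ}

/-- the coefficients `V s l` as constant polynomials -/
def CV (V : Fin r → Fin (n + 1) → k) : Fin r → Fin (n + 1) → k[X] := fun s l => C (V s l)

/-- constant polynomials -/
def Cx (ξ : Fin (n + 1) → k) : Fin (n + 1) → k[X] := fun l => C (ξ l)

/-- the form `θ_i` over `k[X]`, with `e = X` -/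
def thX (V : Fin r → Fin (n + 1) → k) (b : Fin (n + 1) → Fin r) (ξ : Fin (n + 1) → k)
    (i : Fin (n + 1)) (U : Fin (n + 1) → k[X]) : k[X] := th (CV V) b X (Cx ξ) i U

/-- the form `B_i` over `k[X]`, with `e = X` -/
def BX (V : Fin r → Fin (n + 1) → k) (b : Fin (n + 1) → Fin r) (ξ ξ' : Fin (n + 1) → k)
    (i : Fin (n + 1)) (U W : Fin (n + 1) → k[X]) : k[X] := Bh (CV V) b X (Cx ξ) (Cx ξ') i U W

/-- the value of `λ` at `0` -/
def lam0 (V : Fin r → Fin (n + 1) → k) (b : Fin (n + 1) → Fin r) (ξ' : Fin (n + 1) → k)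
    (i : Fin (n + 1)) : k :=
  if i = 0 then 1 else V (b 0) 0 * V (b 0) i / (V (b i) 0 ^ 2 * ξ' i)

end Pool.Agent.VGen
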